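import Pool.Agent.R217.PC.LI2
import Pool.Agent.R217.HS.Cpt2

set_option autoImplicit false
set_option linter.unusedSectionVars false

open MeasureTheory Filter Topology
open scoped ContDiff ENNReal NNReal RealInnerProductSpace

namespace Pool.Agent.R217.PC

open Pool.Agent.R217.BN (E cexp sobS)
open Pool.Agent.R217.HS

variable {n : ℕ}

/-- The weight. -/
noncomputable def om (n : ℕ) (x : E n) : ℝ := ((1 + ‖x‖ ^ 2) ^ n)⁻¹

lemma om_pos (x : E n) : 0 < om n x := by unfold om; positivity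

lemma om_le (x : E n) : om n x ≤ 1 := by
  unfold om
  apply inv_le_one_of_one_le₀
  apply one_le_pow₀
  have : 0 ≤ ‖x‖ ^ 2 := by positivity
  linarith

lemma om_contDiff : ContDiff ℝ ∞ (om n) := by
  unfold om
  apply ContDiff.inv
  · exact (contDiff_const.add (contDiff_norm_sq ℝ)).pow n
  · intro x
    have : 0 < (1 + ‖x‖ ^ 2) ^ n := by positivity
    exact this.ne'

lemma om_grad (x : E n) : ‖gradient (om n) x‖ ≤ n * om n x := by
  rw [BN.norm_gradient]
  have h1 : HasFDerivAt (fun x : E n => 1 + ‖x‖ ^ 2) ((2:ℕ) • innerSL ℝ x) x := by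
    have := (hasStrictFDerivAt_norm_sq x).hasFDerivAt
    exact this.const_add 1
  have h2 := h1.pow n
  have hne : (1 + ‖x‖ ^ 2) ^ n ≠ 0 := by positivity
  have h3 : HasFDerivAt (om n) _ x := (hasFDerivAt_inv hne).comp x h2
  rw [h3.fderiv]
  have hpos : 0 < 1 + ‖x‖ ^ 2 := by positivity
  apply ContinuousLinearMap.opNorm_le_bound _ (mul_nonneg (by positivity) (om_pos x).le)
  intro v
  rcases Nat.eq_zero_or_pos n with h0 | h0
  · subst h0
    simp
  have hin := abs_real_inner_le_norm x v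
  have hx : 2 * ‖x‖ ≤ 1 + ‖x‖ ^ 2 := by nlinarith [sq_nonneg (‖x‖ - 1)]
  unfold om
  simp only [ContinuousLinearMap.comp_apply, ContinuousLinearMap.toSpanSingleton_apply,
    _root_.smul_apply, innerSL_apply_apply, smul_eq_mul, nsmul_eq_mul]
  obtain ⟨P, hP⟩ : ∃ P, P = 1 + ‖x‖ ^ 2 := ⟨_, rfl⟩
  rw [← hP] at hpos hne hx ⊢
  have e1 : P ^ n = P ^ (n - 1) * P := by
    rw [← pow_succ]; congr 1; omega
  obtain ⟨A, hA⟩ : ∃ A, A = P ^ n := ⟨_, rfl⟩
  obtain ⟨B, hB⟩ : ∃ B, B = P ^ (n - 1) := ⟨_, rfl⟩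
  have hA0 : 0 < A := by rw [hA]; positivity
  have hB0 : 0 < B := by rw [hB]; positivity
  have hgoal : B * (2 * |⟪x, v⟫|) * (A ^ 2)⁻¹ ≤ A⁻¹ * ‖v‖ := by
    have h5 : B * (2 * |⟪x, v⟫|) ≤ A * ‖v‖ := by
      rw [hA, e1, ← hB, mul_assoc]
      apply mul_le_mul_of_nonneg_left _ hB0.le
      nlinarith [norm_nonneg v, norm_nonneg x]
    calc B * (2 * |⟪x, v⟫|) * (A ^ 2)⁻¹ ≤ A * ‖v‖ * (A ^ 2)⁻¹ := by gcongr
      _ = A⁻¹ * ‖v‖ := by field_simp
  rw [Real.norm_eq_abs]
  have e3 : n * A⁻¹ * ‖v‖ = n * (A⁻¹ * ‖v‖) := by ring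
  rw [← hA, ← hB, e3]
  refine le_trans (le_of_eq ?_) (mul_le_mul_of_nonneg_left hgoal (Nat.cast_nonneg n))
  push_cast
  simp only [abs_mul, abs_neg, abs_inv, abs_pow, abs_two, Nat.abs_cast, abs_of_pos hA0,
    abs_of_pos hB0]
  ring

lemma om_int {s : ℝ} (hn : 2 ≤ n) (hs : 2 < s) : Integrable (fun x : E n => om n x ^ s) := by
  have hn2 : (2:ℝ) ≤ n := by exact_mod_cast hn
  have h := integrable_rpow_neg_one_add_norm_sq (E := E n) (μ := (volume : Measure (E n)))
    (r := 2 * (n:ℝ) * s) (by rw [finrank_euclideanSpace, Fintype.card_fin]; nlinarith)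
  refine h.congr (Eventually.of_forall fun x => ?_)
  dsimp only
  unfold om
  have hp : 0 < 1 + ‖x‖ ^ 2 := by positivity
  rw [← Real.rpow_natCast (1 + ‖x‖ ^ 2) n, ← Real.rpow_neg hp.le, ← Real.rpow_mul hp.le]
  congr 1
  ring

/-- Young's inequality. -/
lemma young {q : ℝ} (hq : 2 < q) (a b : ℝ) (hb : 0 ≤ b) :
    (b * a) ^ 2 ≤ |a| ^ q + b ^ (2 * q / (q - 2)) := by
  have hq2 : 0 < q - 2 := by linarith
  have hpq : (q / 2).HolderConjugate (q / (q - 2)) := by
    rw [Real.holderConjugate_iff]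
    constructor
    · linarith
    · field_simp; ring
  have h := Real.young_inequality_of_nonneg (a := |a| ^ 2) (b := b ^ 2) (by positivity)
    (by positivity) hpq
  have e1 : (|a| ^ 2) ^ (q / 2) = |a| ^ q := by
    rw [← Real.rpow_two, ← Real.rpow_mul (abs_nonneg _)]; congr 1; ring
  have e2 : (b ^ 2) ^ (q / (q - 2)) = b ^ (2 * q / (q - 2)) := by
    rw [← Real.rpow_two, ← Real.rpow_mul hb]; congr 1; ring
  rw [e1, e2] at h
  have h1 : |a| ^ q / (q / 2) ≤ |a| ^ q := div_le_self (by positivity) (by linarith)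
  have h2 : b ^ (2 * q / (q - 2)) / (q / (q - 2)) ≤ b ^ (2 * q / (q - 2)) := by
    apply div_le_self (by positivity)
    rw [le_div_iff₀ hq2]; linarith
  rw [mul_pow, ← sq_abs a]
  linarith

lemma split_T {q r : ℝ} (hq : 2 < q) (hqr : q < r) {T : ℝ} (hT : 0 < T) (t : ℝ) (ht : 0 ≤ t) :
    t ^ q ≤ T ^ (q - 2) * t ^ 2 + T ^ (q - r) * t ^ r := by
  have h1 : 0 ≤ T ^ (q - 2) * t ^ 2 := by positivity
  have h2 : 0 ≤ T ^ (q - r) * t ^ r := by positivity
  rcases eq_or_lt_of_le ht with h0 | h0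
  · rw [← h0, Real.zero_rpow (by linarith : q ≠ 0)]
    rw [← h0] at h1 h2
    linarith
  rcases le_total t T with h | h
  · have e : t ^ q = t ^ (q - 2) * t ^ 2 := by
      rw [← Real.rpow_two, ← Real.rpow_add h0]; congr 1; ring
    have h3 : t ^ (q - 2) ≤ T ^ (q - 2) := Real.rpow_le_rpow ht h (by linarith)
    have h4 : t ^ (q - 2) * t ^ 2 ≤ T ^ (q - 2) * t ^ 2 := by gcongr
    linarith
  · have e : t ^ q = t ^ (q - r) * t ^ r := by
      rw [← Real.rpow_add h0]; congr 1; ring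
    have h3 : t ^ (q - r) ≤ T ^ (q - r) := Real.rpow_le_rpow_of_nonpos hT h (by linarith)
    have h4 : t ^ (q - r) * t ^ r ≤ T ^ (q - r) * t ^ r := by gcongr
    linarith

/-- Fatou's lemma for powers. -/
lemma fatou_rpow {α : Type*} [MeasurableSpace α] {μ : Measure α} {q : ℝ} (hq : 0 < q)
    {f : ℕ → α → ℝ} {g : α → ℝ}
    (hf : ∀ k, Integrable (fun x => |f k x| ^ q) μ)
    (hfm : ∀ k, AEStronglyMeasurable (f k) μ) (hgm : AEStronglyMeasurable g μ)
    {M : ℝ} (hM : ∀ k, ∫ x, |f k x| ^ q ∂μ ≤ M)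
    (hae : ∀ᵐ x ∂μ, Tendsto (fun k => f k x) atTop (𝓝 (g x))) :
    Integrable (fun x => |g x| ^ q) μ ∧ ∫ x, |g x| ^ q ∂μ ≤ M := by
  have hM0 : 0 ≤ M := (integral_nonneg fun x => by positivity).trans (hM 0)
  have hmu : AEStronglyMeasurable (fun x => |g x| ^ q) μ :=
    (hgm.norm.aemeasurable.pow_const q).aestronglyMeasurable
  have f1 : ∫⁻ x, ENNReal.ofReal (|g x| ^ q) ∂μ ≤ ENNReal.ofReal M := by
    have e : ∀ᵐ x ∂μ, ENNReal.ofReal (|g x| ^ q) =
        liminf (fun k => ENNReal.ofReal (|f k x| ^ q)) atTop := by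
      filter_upwards [hae] with x hx
      have h3 : Tendsto (fun k => |f k x| ^ q) atTop (𝓝 (|g x| ^ q)) :=
        hx.abs.rpow_const (Or.inr hq.le)
      exact ((ENNReal.continuous_ofReal.tendsto _).comp h3).liminf_eq.symm
    rw [lintegral_congr_ae e]
    refine (lintegral_liminf_le' fun k => ?_).trans ?_
    · exact ((hfm k).norm.aemeasurable.pow_const q).ennreal_ofReal
    · have e2 : ∀ k, ∫⁻ x, ENNReal.ofReal (|f k x| ^ q) ∂μ =
          ENNReal.ofReal (∫ x, |f k x| ^ q ∂μ) := fun k =>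
        (ofReal_integral_eq_lintegral_ofReal (hf _)
          (Eventually.of_forall fun x => Real.rpow_nonneg (abs_nonneg _) _)).symm
      simp_rw [e2]
      apply (liminf_le_liminf (v := fun _ => ENNReal.ofReal M)
        (Eventually.of_forall fun k => ENNReal.ofReal_le_ofReal (hM k))).trans
      simp
  have hi : Integrable (fun x => |g x| ^ q) μ := by
    refine ⟨hmu, ?_⟩
    rw [hasFiniteIntegral_iff_ofReal (Eventually.of_forall fun x =>
      Real.rpow_nonneg (abs_nonneg _) _)]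
    exact f1.trans_lt ENNReal.ofReal_lt_top
  refine ⟨hi, ?_⟩
  rw [← ofReal_integral_eq_lintegral_ofReal hi (Eventually.of_forall fun x =>
    Real.rpow_nonneg (abs_nonneg _) _)] at f1
  exact (ENNReal.ofReal_le_ofReal_iff hM0).1 f1

/-- The compactness data. -/
structure CData (n : ℕ) (q : ℝ) (v : ℕ → E n → ℝ) (G : ℕ → E n → E n) (w : E n → ℝ)
    (H : E n → E n) : Prop where
  hH : MemLp H 2 volume
  hm : AEStronglyMeasurable w volume
  hq : Integrable (fun x => |w x| ^ q)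
  wG : ∀ W : E n → E n, MemLp W 2 volume →
    Tendsto (fun k => ∫ x, ⟪G k x, W x⟫) atTop (𝓝 (∫ x, ⟪H x, W x⟫))
  ae : ∀ᵐ x ∂(volume : Measure (E n)), Tendsto (fun k => v k x) atTop (𝓝 (w x))
  l2 : ∀ χ : E n → ℝ, Tst χ → LTo volume (fun k x => χ x * v k x) (fun x => χ x * w x)
  l2' : ∀ χ : E n → ℝ, Tst χ →
    LTo volume (fun k x => v k x • gradient χ x) (fun x => w x • gradient χ x)
  h1 : ∀ χ : E n → ℝ, Tst χ → IsH1 (fun x => χ x * w x) (fun x => χ x • H x + w x • gradient χ x)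
  lq : ∀ χ : E n → ℝ, Tst χ → Tendsto (fun k => ∫ x, |χ x * v k x - χ x * w x| ^ q) atTop (𝓝 0)

lemma exists_r (hn : 2 ≤ n) {q : ℝ} (hq' : ((n:ℝ) - 2) * q < 2 * n) :
    ∃ r : ℝ, q < r ∧ ((n:ℝ) - 2) * r < 2 * n := by
  have hn2 : (2:ℝ) ≤ n := by exact_mod_cast hn
  refine ⟨q + (2 * n - (n - 2) * q) / (n - 1), ?_, ?_⟩
  · have : 0 < (2 * n - ((n:ℝ) - 2) * q) / (n - 1) := by apply div_pos <;> linarith
    linarith
  · have h1 : ((n:ℝ) - 2) * ((2 * n - (n - 2) * q) / (n - 1)) < 2 * n - (n - 2) * q := by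
      rw [mul_div_assoc', div_lt_iff₀ (by linarith)]
      nlinarith
    rw [mul_add]; linarith

theorem comp (hn : 2 ≤ n) {q : ℝ} (hq : 2 < q) (hq' : ((n:ℝ) - 2) * q < 2 * n)
    {v : ℕ → E n → ℝ} {G : ℕ → E n → E n} (h : ∀ k, IsH1 (v k) (G k)) {M : ℝ}
    (hG : ∀ k, ∫ x, ‖G k x‖ ^ 2 ≤ M) (hv : ∀ k, ∫ x, |v k x| ^ q ≤ M) :
    ∃ (w : E n → ℝ) (H : E n → E n) (ns : ℕ → ℕ), StrictMono ns ∧
      CData n q (fun k => v (ns k)) (fun k => G (ns k)) w H := by
  have fact2 : Fact ((2:ℝ≥0∞) ≠ ⊤) := ⟨by norm_num⟩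
  have hq0 : 0 < q := by linarith
  have hq2 : 0 < q - 2 := by linarith
  obtain ⟨Ce, hCe0, hCe⟩ := emb hn hq.le hq'
  obtain ⟨s, hs⟩ : ∃ s, s = 2 * q / (q - 2) := ⟨_, rfl⟩
  have hs2 : 2 < s := by rw [hs, lt_div_iff₀ hq2]; linarith
  obtain ⟨I, hI⟩ : ∃ I, I = ∫ x : E n, om n x ^ s := ⟨_, rfl⟩
  have homi := om_int hn hs2
  have hM0 : 0 ≤ M := (integral_nonneg fun x => by positivity).trans (hG 0)
  -- weighted functions
  have hn0 : (0:ℝ) ≤ n := by positivity
  have hW : ∀ k, IsH1 (fun x => om n x * v k x)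
      (fun x => om n x • G k x + v k x • gradient (om n) x) := fun k =>
    (h k).mulW om_contDiff (C := max 1 n)
      (fun x => by rw [abs_of_pos (om_pos x)]; exact (om_le x).trans (le_max_left _ _))
      (fun x => (om_grad x).trans ((mul_le_of_le_one_right hn0 (om_le x)).trans (le_max_right _ _)))
  have hbu : ∀ k, ∫ x, (om n x * v k x) ^ 2 ≤ M + I := by
    intro k
    calc ∫ x, (om n x * v k x) ^ 2 ≤ ∫ x, (|v k x| ^ q + om n x ^ s) := by
          apply integral_mono (hW k).int_sq ((hCe _ _ (h k)).1.add homi)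
          intro x
          have := young hq (v k x) (om n x) (om_pos x).le
          rw [← hs] at this
          exact this
      _ = (∫ x, |v k x| ^ q) + I := by rw [integral_add (hCe _ _ (h k)).1 homi, hI]
      _ ≤ M + I := by linarith [hv k]
  have hbG : ∀ k, ∫ x, ‖om n x • G k x + v k x • gradient (om n) x‖ ^ 2 ≤
      2 * M + 2 * n ^ 2 * (M + I) := by
    intro k
    calc ∫ x, ‖om n x • G k x + v k x • gradient (om n) x‖ ^ 2 ≤
          ∫ x, (2 * ‖G k x‖ ^ 2 + 2 * n ^ 2 * (om n x * v k x) ^ 2) := by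
          apply integral_mono (hW k).int_grad
            (((h k).int_grad.const_mul 2).add ((hW k).int_sq.const_mul (2 * n ^ 2)))
          intro x
          change ‖om n x • G k x + v k x • gradient (om n) x‖ ^ 2 ≤
            2 * ‖G k x‖ ^ 2 + 2 * n ^ 2 * (om n x * v k x) ^ 2
          have a1 : ‖om n x • G k x‖ ≤ ‖G k x‖ := by
            rw [norm_smul, Real.norm_eq_abs, abs_of_pos (om_pos x)]
            exact mul_le_of_le_one_left (norm_nonneg _) (om_le x)
          have a2 : ‖v k x • gradient (om n) x‖ ≤ n * (om n x * |v k x|) := by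
            rw [norm_smul, Real.norm_eq_abs]
            calc |v k x| * ‖gradient (om n) x‖ ≤ |v k x| * (n * om n x) := by
                  gcongr; exact om_grad x
              _ = _ := by ring
          have a3 := (norm_add_le (om n x • G k x) (v k x • gradient (om n) x)).trans
            (add_le_add a1 a2)
          have a4 := pow_le_pow_left₀ (norm_nonneg _) a3 2
          have a5 : (om n x * v k x) ^ 2 = (om n x * |v k x|) ^ 2 := by
            rw [mul_pow, mul_pow, sq_abs]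
          rw [a5]
          nlinarith [sq_nonneg (‖G k x‖ - n * (om n x * |v k x|))]
      _ = 2 * (∫ x, ‖G k x‖ ^ 2) + 2 * n ^ 2 * ∫ x, (om n x * v k x) ^ 2 := by
          rw [integral_add ((h k).int_grad.const_mul 2) ((hW k).int_sq.const_mul (2 * n ^ 2)),
            integral_const_mul, integral_const_mul]
      _ ≤ _ := by
          have b1 := hG k
          have b2 := hbu k
          gcongr
  obtain ⟨ξ, Ξ, n1, hn1, hξ, -, -, lξ, aξ⟩ := loc_compact hn hW
    (M := (2 * M + 2 * n ^ 2 * (M + I)) + (M + I)) (fun k => add_le_add (hbG k) (hbu k))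
  obtain ⟨z2, n2, hn2, hz2⟩ := exists_weak_subseq (fun k => (h (n1 k)).mG.toLp (G (n1 k)))
    (R := Real.sqrt M) (fun k => by
      apply Real.le_sqrt_of_sq_le
      rw [norm_sq_toLp]
      exact hG _)
  obtain ⟨ns, hns⟩ : ∃ ns : ℕ → ℕ, ns = fun k => n1 (n2 k) := ⟨_, rfl⟩
  have hnsm : StrictMono ns := by rw [hns]; exact hn1.comp hn2
  obtain ⟨H, hH⟩ : ∃ H : E n → E n, H = (z2 : E n → E n) := ⟨_, rfl⟩
  have hHm : MemLp H 2 volume := by rw [hH]; exact Lp.memLp _
  obtain ⟨w, hw⟩ : ∃ w : E n → ℝ, w = fun x => (om n x)⁻¹ * ξ x := ⟨_, rfl⟩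
  have hξw : ∀ x, ξ x = om n x * w x := by
    intro x; rw [hw]; dsimp only
    rw [← mul_assoc, mul_inv_cancel₀ (om_pos x).ne', one_mul]
  have hoc : Continuous (om n) := om_contDiff.continuous
  have hwm : AEStronglyMeasurable w volume := by
    rw [hw]
    exact (hoc.inv₀ fun x => (om_pos x).ne').aestronglyMeasurable.mul hξ.mu.1
  -- almost everywhere convergence
  have hae : ∀ᵐ x ∂(volume : Measure (E n)), Tendsto (fun k => v (ns k) x) atTop (𝓝 (w x)) := by
    filter_upwards [aξ] with x hx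
    have h1 := ((hx.comp hn2.tendsto_atTop).const_mul (om n x)⁻¹)
    have h2 : (om n x)⁻¹ * ξ x = w x := by rw [hw]
    rw [h2] at h1
    refine h1.congr fun k => ?_
    simp only [Function.comp_apply, hns]
    rw [← mul_assoc, inv_mul_cancel₀ (om_pos x).ne', one_mul]
  -- weak convergence of the gradients
  have hwG : ∀ W : E n → E n, MemLp W 2 volume →
      Tendsto (fun k => ∫ x, ⟪G (ns k) x, W x⟫) atTop (𝓝 (∫ x, ⟪H x, W x⟫)) := by
    intro W hW
    have a1 := hz2 (hW.toLp W)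
    have e : (⟪z2, hW.toLp W⟫ : ℝ) = ∫ x, ⟪H x, W x⟫ := by
      rw [L2.inner_def, hH]
      apply integral_congr_ae
      filter_upwards [hW.coeFn_toLp] with x hx
      rw [hx]
    rw [e] at a1
    refine a1.congr fun k => ?_
    rw [inner_toLp, hns]
  -- strong local convergence against compactly supported fields
  have hlocal : ∀ {F : Type} [NormedAddCommGroup F] [InnerProductSpace ℝ F] (Y : E n → F),
      Continuous Y → HasCompactSupport Y →
      (MemLp (fun x => w x • Y x) 2 volume) ∧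
      LTo volume (fun k x => v (ns k) x • Y x) (fun x => w x • Y x) := by
    intro F _ _ Y hY hYs
    obtain ⟨R, hR⟩ : ∃ R : ℕ, ∀ x, Y x ≠ 0 → ‖x‖ ≤ R + 1 := by
      obtain ⟨r, hr⟩ := hYs.isCompact.isBounded.subset_closedBall (0 : E n)
      obtain ⟨R, hR⟩ := exists_nat_ge r
      refine ⟨R, fun x hx => ?_⟩
      have := hr (subset_tsupport Y hx)
      rw [Metric.mem_closedBall, dist_zero_right] at this
      linarith
    obtain ⟨C, hC⟩ : ∃ C, ∀ x, ‖(om n x)⁻¹ • Y x‖ ≤ C := by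
      have hc : Continuous fun x => (om n x)⁻¹ • Y x :=
        (hoc.inv₀ fun x => (om_pos x).ne').smul hY
      have hcs : HasCompactSupport fun x => (om n x)⁻¹ • Y x := hYs.smul_left
      exact hcs.exists_bound_of_continuous hc
    have hpt : ∀ (t : ℝ) (x : E n), ‖t • Y x‖ ≤ C * ‖chi n R x * (om n x * t)‖ := by
      intro t x
      by_cases hx : Y x = 0
      · rw [hx, smul_zero, norm_zero]
        have : 0 ≤ C := (norm_nonneg _).trans (hC 0)
        positivity
      · rw [chi_one (hR x hx), one_mul, norm_mul, Real.norm_eq_abs (om n x), abs_of_pos (om_pos x)]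
        have h1 := hC x
        rw [norm_smul, norm_inv, Real.norm_eq_abs, abs_of_pos (om_pos x)] at h1
        rw [norm_smul]
        have h2 : ‖Y x‖ ≤ C * om n x := by
          rw [inv_mul_le_iff₀ (om_pos x)] at h1
          linarith
        calc ‖t‖ * ‖Y x‖ ≤ ‖t‖ * (C * om n x) := by gcongr
          _ = C * (om n x * ‖t‖) := by ring
    have hmw : MemLp (fun x => w x • Y x) 2 volume := by
      refine (memLp_chi hξ.mu R).of_le_mul (c := C) (hwm.smul hY.aestronglyMeasurable)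
        (Eventually.of_forall fun x => ?_)
      have := hpt (w x) x
      rwa [← hξw] at this
    refine ⟨hmw, ?_⟩
    unfold LTo
    have l1 := (lξ R).comp hn2.tendsto_atTop
    have l2 : Tendsto (fun k => ENNReal.ofReal C * eLpNorm (fun x => chi n R x *
        (om n x * v (n1 (n2 k)) x) - chi n R x * ξ x) 2 volume) atTop (𝓝 0) := by
      have := ENNReal.Tendsto.const_mul l1 (Or.inr (ENNReal.ofReal_ne_top (r := C)))
      simpa using this
    refine tendsto_of_tendsto_of_tendsto_of_le_of_le tendsto_const_nhds l2 (fun k => zero_le)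
      fun k => ?_
    apply eLpNorm_le_mul'
    intro x
    rw [← sub_smul]
    refine (hpt _ x).trans (le_of_eq ?_)
    rw [hξw, hns, ← mul_sub, ← mul_sub]
  have hl2 : ∀ χ : E n → ℝ, Tst χ →
      LTo volume (fun k x => χ x * v (ns k) x) (fun x => χ x * w x) := by
    intro χ hχ
    have := (hlocal χ hχ.1.continuous hχ.2).2
    simpa only [smul_eq_mul, mul_comm] using this
  have hl2' : ∀ χ : E n → ℝ, Tst χ →
      LTo volume (fun k x => v (ns k) x • gradient χ x) (fun x => w x • gradient χ x) := fun χ hχ =>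
    (hlocal (gradient χ) hχ.cg (BN.gradient_compact hχ.2)).2
  have hm1 : ∀ χ : E n → ℝ, Tst χ → MemLp (fun x => χ x * w x) 2 volume := by
    intro χ hχ
    have := (hlocal χ hχ.1.continuous hχ.2).1
    simpa only [smul_eq_mul, mul_comm] using this
  have hm2 : ∀ χ : E n → ℝ, Tst χ → MemLp (fun x => w x • gradient χ x) 2 volume := fun χ hχ =>
    (hlocal (gradient χ) hχ.cg (BN.gradient_compact hχ.2)).1
  have hmk2 : ∀ χ : E n → ℝ, Tst χ → ∀ k, MemLp (fun x => v (ns k) x • gradient χ x) 2 volume := by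
    intro χ hχ k
    obtain ⟨C2, hC2⟩ := (BN.gradient_compact hχ.2).exists_bound_of_continuous hχ.cg
    refine (h (ns k)).mu.of_le_mul (c := C2) ((h (ns k)).mu.1.smul hχ.cg.aestronglyMeasurable)
      (Eventually.of_forall fun x => ?_)
    rw [norm_smul, mul_comm]
    gcongr
    exact hC2 x
  have hχW : ∀ (χ : E n → ℝ) (_ : Tst χ) (W : E n → E n), MemLp W 2 volume →
      MemLp (fun x => χ x • W x) 2 volume := by
    intro χ hχ W hW
    obtain ⟨C1, hC1⟩ := hχ.2.exists_bound_of_continuous hχ.1.continuous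
    refine hW.of_le_mul (c := C1) (hχ.1.continuous.aestronglyMeasurable.smul hW.1)
      (Eventually.of_forall fun x => ?_)
    rw [norm_smul]
    gcongr
    exact hC1 x
  have hh1 : ∀ χ : E n → ℝ, Tst χ →
      IsH1 (fun x => χ x * w x) (fun x => χ x • H x + w x • gradient χ x) := by
    intro χ hχ
    refine IsH1.of_weak (fun k => (h (ns k)).mulT hχ) (hm1 χ hχ) ((hχW χ hχ H hHm).add (hm2 χ hχ))
      ?_ ?_
    · intro f hf
      have cf : LTo volume (fun _ : ℕ => f) f := by unfold LTo; simp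
      have := (hl2 χ hχ).inner cf (fun k => ((h (ns k)).mulT hχ).mu) (hm1 χ hχ) (fun _ => hf) hf
      simp only [RCLike.inner_apply, conj_trivial] at this
      refine (this.congr fun k => ?_).trans (le_of_eq ?_)
      · congr 1; funext x; ring
      · congr 2; funext x; ring
    · intro W hW'
      have cW : LTo volume (fun _ : ℕ => W) W := by unfold LTo; simp
      have a1 := hwG _ (hχW χ hχ W hW')
      have a2 := (hl2' χ hχ).inner cW (hmk2 χ hχ) (hm2 χ hχ) (fun _ => hW') hW'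
      have a3 := a1.add a2
      refine (a3.congr fun k => ?_).trans (le_of_eq ?_)
      · rw [← integral_add (integrable_inner' (h (ns k)).mG (hχW χ hχ W hW'))
          (integrable_inner' (hmk2 χ hχ k) hW')]
        congr 1; funext x
        simp only [inner_add_left, real_inner_smul_left, real_inner_smul_right]
      · congr 1
        rw [← integral_add (integrable_inner' hHm (hχW χ hχ W hW'))
          (integrable_inner' (hm2 χ hχ) hW')]
        congr 1; funext x
        simp only [inner_add_left, real_inner_smul_left, real_inner_smul_right]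
  have hwq := fatou_rpow (μ := (volume : Measure (E n))) hq0 (fun k => (hCe _ _ (h (ns k))).1)
    (fun k => (h (ns k)).mu.1) hwm (fun k => hv (ns k)) hae
  refine ⟨w, H, ns, hnsm, hHm, hwm, hwq.1, hwG, hae, hl2, hl2', hh1, ?_⟩
  -- local convergence in `L^q`
  intro χ hχ
  obtain ⟨r, hqr, hr⟩ := exists_r hn hq'
  obtain ⟨Cr, hCr0, hCr⟩ := emb hn (show 2 ≤ r by linarith) hr
  have hF : ∀ k, IsH1 (fun x => χ x * v (ns k) x - χ x * w x)
      (fun x => (χ x • G (ns k) x + v (ns k) x • gradient χ x) -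
        (χ x • H x + w x • gradient χ x)) := fun k => ((h (ns k)).mulT hχ).sub (hh1 χ hχ)
  have c2 := (hl2 χ hχ).sub_sq (fun k => ((h (ns k)).mulT hχ).mu) (hm1 χ hχ)
  simp only [Real.norm_eq_abs, sq_abs] at c2
  -- bound of the gradients
  obtain ⟨C1, hC1⟩ := hχ.2.exists_bound_of_continuous hχ.1.continuous
  have hC10 : 0 ≤ C1 := (norm_nonneg _).trans (hC1 0)
  have cg2 := (hl2' χ hχ).sub_sq (hmk2 χ hχ) (hm2 χ hχ)
  obtain ⟨B1, hB1⟩ := cg2.bddAbove_range
  have hgb : ∀ k, ∫ x, ‖(χ x • G (ns k) x + v (ns k) x • gradient χ x) -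
        (χ x • H x + w x • gradient χ x)‖ ^ 2 ≤
      3 * C1 ^ 2 * M + 3 * C1 ^ 2 * (∫ x, ‖H x‖ ^ 2) + 3 * B1 := by
    intro k
    have i1 := (h (ns k)).int_grad
    have i2 := integrable_sq hHm
    have i3 := integrable_sq ((hmk2 χ hχ k).sub (hm2 χ hχ))
    have i3' : Integrable (fun x => ‖v (ns k) x • gradient χ x - w x • gradient χ x‖ ^ 2) := i3
    have i12 : Integrable (fun x => 3 * C1 ^ 2 * ‖G (ns k) x‖ ^ 2 + 3 * C1 ^ 2 * ‖H x‖ ^ 2) :=
      (i1.const_mul _).add (i2.const_mul _)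
    calc ∫ x, ‖(χ x • G (ns k) x + v (ns k) x • gradient χ x) -
        (χ x • H x + w x • gradient χ x)‖ ^ 2 ≤
        ∫ x, (3 * C1 ^ 2 * ‖G (ns k) x‖ ^ 2 + 3 * C1 ^ 2 * ‖H x‖ ^ 2 +
          3 * ‖v (ns k) x • gradient χ x - w x • gradient χ x‖ ^ 2) := by
          apply integral_mono (hF k).int_grad (i12.add (i3'.const_mul 3))
          intro x
          change ‖(χ x • G (ns k) x + v (ns k) x • gradient χ x) -
            (χ x • H x + w x • gradient χ x)‖ ^ 2 ≤ 3 * C1 ^ 2 * ‖G (ns k) x‖ ^ 2 +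
            3 * C1 ^ 2 * ‖H x‖ ^ 2 + 3 * ‖v (ns k) x • gradient χ x - w x • gradient χ x‖ ^ 2
          have e : (χ x • G (ns k) x + v (ns k) x • gradient χ x) -
            (χ x • H x + w x • gradient χ x) = χ x • G (ns k) x + (-(χ x • H x)) +
              (v (ns k) x • gradient χ x - w x • gradient χ x) := by abel
          rw [e]
          have a1 : ‖χ x • G (ns k) x‖ ≤ C1 * ‖G (ns k) x‖ := by
            rw [norm_smul]; gcongr; exact hC1 x
          have a2 : ‖-(χ x • H x)‖ ≤ C1 * ‖H x‖ := by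
            rw [norm_neg, norm_smul]; gcongr; exact hC1 x
          obtain ⟨A, hA⟩ : ∃ A, A = C1 * ‖G (ns k) x‖ := ⟨_, rfl⟩
          obtain ⟨B, hB⟩ : ∃ B, B = C1 * ‖H x‖ := ⟨_, rfl⟩
          obtain ⟨D, hD⟩ : ∃ D, D = ‖v (ns k) x • gradient χ x - w x • gradient χ x‖ := ⟨_, rfl⟩
          have a3 : ‖χ x • G (ns k) x + (-(χ x • H x)) +
              (v (ns k) x • gradient χ x - w x • gradient χ x)‖ ≤ A + B + D := by
            refine (norm_add_le _ _).trans ?_
            have := norm_add_le (χ x • G (ns k) x) (-(χ x • H x))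
            rw [hA, hB, hD]; linarith
          have a4 := pow_le_pow_left₀ (norm_nonneg _) a3 2
          have e2 : 3 * C1 ^ 2 * ‖G (ns k) x‖ ^ 2 = 3 * A ^ 2 := by rw [hA]; ring
          have e3 : 3 * C1 ^ 2 * ‖H x‖ ^ 2 = 3 * B ^ 2 := by rw [hB]; ring
          rw [e2, e3, ← hD]
          nlinarith [sq_nonneg (A - B), sq_nonneg (B - D), sq_nonneg (A - D)]
      _ = 3 * C1 ^ 2 * (∫ x, ‖G (ns k) x‖ ^ 2) + 3 * C1 ^ 2 * (∫ x, ‖H x‖ ^ 2) +
          3 * ∫ x, ‖v (ns k) x • gradient χ x - w x • gradient χ x‖ ^ 2 := by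
          rw [integral_add i12 (i3'.const_mul 3), integral_add (i1.const_mul _) (i2.const_mul _),
            integral_const_mul, integral_const_mul, integral_const_mul]
      _ ≤ _ := by
          have b1 := hG (ns k)
          have b2 : ∫ x, ‖v (ns k) x • gradient χ x - w x • gradient χ x‖ ^ 2 ≤ B1 :=
            hB1 ⟨k, rfl⟩
          have b3 : 3 * C1 ^ 2 * (∫ x, ‖G (ns k) x‖ ^ 2) ≤ 3 * C1 ^ 2 * M := by gcongr
          linarith
  obtain ⟨B2, hB2⟩ := c2.bddAbove_range
  obtain ⟨M3, hM3⟩ : ∃ M3, M3 = Cr * ((3 * C1 ^ 2 * M + 3 * C1 ^ 2 * (∫ x, ‖H x‖ ^ 2) + 3 * B1) +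
    B2) ^ (r / 2) := ⟨_, rfl⟩
  have hrb : ∀ k, ∫ x, |χ x * v (ns k) x - χ x * w x| ^ r ≤ M3 := by
    intro k
    refine (hCr _ _ (hF k)).2.trans ?_
    rw [hM3]
    apply mul_le_mul_of_nonneg_left _ hCr0
    apply Real.rpow_le_rpow
    · exact add_nonneg (integral_nonneg fun x => by positivity)
        (integral_nonneg fun x => by positivity)
    · exact add_le_add (hgb k) (hB2 ⟨k, rfl⟩)
    · linarith
  have hM30 : 0 ≤ M3 := (integral_nonneg fun x => by positivity).trans (hrb 0)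
  have hmain : ∀ T : ℝ, 0 < T → ∀ k, ∫ x, |χ x * v (ns k) x - χ x * w x| ^ q ≤
      T ^ (q - 2) * (∫ x, (χ x * v (ns k) x - χ x * w x) ^ 2) + T ^ (q - r) * M3 := by
    intro T hT k
    have i1 := (hF k).int_sq
    have i2 := (hCr _ _ (hF k)).1
    calc ∫ x, |χ x * v (ns k) x - χ x * w x| ^ q ≤
        ∫ x, (T ^ (q - 2) * (χ x * v (ns k) x - χ x * w x) ^ 2 +
          T ^ (q - r) * |χ x * v (ns k) x - χ x * w x| ^ r) := by
          apply integral_mono (hCe _ _ (hF k)).1 ((i1.const_mul _).add (i2.const_mul _))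
          intro x
          have := split_T hq hqr hT |χ x * v (ns k) x - χ x * w x| (abs_nonneg _)
          rw [sq_abs] at this
          exact this
      _ = T ^ (q - 2) * (∫ x, (χ x * v (ns k) x - χ x * w x) ^ 2) +
          T ^ (q - r) * ∫ x, |χ x * v (ns k) x - χ x * w x| ^ r := by
          rw [integral_add (i1.const_mul _) (i2.const_mul _), integral_const_mul,
            integral_const_mul]
      _ ≤ _ := by
          have := hrb k
          gcongr
  rw [Metric.tendsto_atTop]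
  intro ε hε
  obtain ⟨T, hT, hT2⟩ : ∃ T : ℝ, 0 < T ∧ T ^ (q - r) * M3 < ε / 2 := by
    have hlim : Tendsto (fun T : ℝ => T ^ (q - r) * M3) atTop (𝓝 0) := by
      have h1 := (tendsto_rpow_neg_atTop (show 0 < r - q by linarith)).mul_const M3
      rw [zero_mul] at h1
      refine h1.congr fun T => ?_
      rw [show -(r - q) = q - r by ring]
    obtain ⟨T, h1, h2⟩ := ((hlim.eventually (gt_mem_nhds (show (0:ℝ) < ε / 2 by positivity))).and
      (eventually_gt_atTop 0)).exists
    exact ⟨T, h2, h1⟩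
  have h4 := c2.const_mul (T ^ (q - 2))
  rw [mul_zero] at h4
  obtain ⟨K, hK⟩ := Metric.tendsto_atTop.1 h4 (ε / 2) (by positivity)
  refine ⟨K, fun k hk => ?_⟩
  have h5' := hK k hk
  rw [Real.dist_eq, sub_zero] at h5'
  have h5 := (abs_lt.1 h5').2
  rw [Real.dist_eq, sub_zero, abs_of_nonneg (integral_nonneg fun x => by positivity)]
  have h6 := hmain T hT k
  linarith

end Pool.Agent.R217.PC
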