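import Pool.Agent.R217.PC.Scale

set_option autoImplicit false
set_option linter.unusedSectionVars false

open MeasureTheory Filter Topology
open scoped ContDiff ENNReal NNReal RealInnerProductSpace

namespace Pool.Agent.R217.PC

open Pool.Agent.R217.BN (E cexp sobS)
open Pool.Agent.R217.HS

variable {n : ℕ}

/-- The scaled function. -/
noncomputable def vs (q ε : ℝ) (u : E n → ℝ) (z : Fin n → ℤ) (x : E n) : ℝ :=
  ε ^ (2 / (q - 2)) * u (ε • x + lat z)

/-- The scaled gradient. -/
noncomputable def Gs (q ε : ℝ) (G : E n → E n) (z : Fin n → ℤ) (x : E n) : E n :=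
  ε ^ (2 / (q - 2)) • ε • G (ε • x + lat z)

lemma setInt_shift (f : E n → ℝ) (y : E n) (r : ℝ) :
    ∫ x in Metric.ball (0 : E n) r, f (x + y) = ∫ x in Metric.ball y r, f x := by
  rw [← integral_indicator Metric.isOpen_ball.measurableSet,
    ← integral_indicator Metric.isOpen_ball.measurableSet,
    ← integral_add_right_eq_self (μ := (volume : Measure (E n)))
      (fun x => (Metric.ball y r).indicator f x) y]
  congr 1; funext x
  have hiff : x ∈ Metric.ball (0 : E n) r ↔ x + y ∈ Metric.ball y r := by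
    rw [mem_ball_zero_iff, Metric.mem_ball, dist_eq_norm, add_sub_cancel_right]
  by_cases hx : x ∈ Metric.ball (0 : E n) r
  · rw [Set.indicator_of_mem hx, Set.indicator_of_mem (hiff.1 hx)]
  · rw [Set.indicator_of_notMem hx, Set.indicator_of_notMem fun h => hx (hiff.2 h)]

lemma setInt_dil (g : E n → ℝ) {ε : ℝ} (hε : 0 < ε) (δ : ℝ) :
    ∫ x in Metric.ball (0 : E n) (δ / ε), g (ε • x) =
      (ε ^ n)⁻¹ * ∫ x in Metric.ball (0 : E n) δ, g x := by
  rw [← integral_indicator Metric.isOpen_ball.measurableSet,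
    ← integral_indicator Metric.isOpen_ball.measurableSet,
    ← int_dil (fun x => (Metric.ball (0 : E n) δ).indicator g x) hε]
  congr 1; funext x
  have hiff : x ∈ Metric.ball (0 : E n) (δ / ε) ↔ ε • x ∈ Metric.ball (0 : E n) δ := by
    rw [mem_ball_zero_iff, mem_ball_zero_iff, norm_smul, Real.norm_eq_abs, abs_of_pos hε,
      lt_div_iff₀ hε, mul_comm]
  by_cases hx : x ∈ Metric.ball (0 : E n) (δ / ε)
  · rw [Set.indicator_of_mem hx, Set.indicator_of_mem (hiff.1 hx)]
  · rw [Set.indicator_of_notMem hx, Set.indicator_of_notMem fun h => hx (hiff.2 h)]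

lemma vs_shift {q ε : ℝ} (hε : 0 < ε) (u : E n → ℝ) (z : Fin n → ℤ) (x : E n) :
    vs q ε u z x = vs q ε u 0 (x + ε⁻¹ • lat z) := by
  unfold vs
  rw [lat_zero, smul_add, smul_inv_smul₀ hε.ne', add_zero]

/-- The choice of the translations. -/
theorem exists_z (hn : 2 ≤ n) {q : ℝ} (hq : 2 < q) (hq' : ((n:ℝ) - 2) * q < 2 * n)
    {ε : ℕ → ℝ} (hε0 : ∀ k, 0 < ε k) (hε : Tendsto ε atTop (𝓝 0))
    {u : ℕ → E n → ℝ} {G : ℕ → E n → E n} (h : ∀ k, LES n q (ε k) (u k) (G k)) :
    ∃ (z : ℕ → Fin n → ℤ) (c : ℝ), 0 < c ∧ ∀ᶠ k in atTop,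
      c ≤ ∫ x in Metric.ball (0 : E n) 1, |vs q (ε k) (u k) (z k) x| ^ q := by
  obtain ⟨ε1, c, hε1, hc, hcon⟩ := Sc_conc hn hq hq'
  have hex : ∀ k, ∃ z : Fin n → ℤ, ε k ≤ ε1 →
      c ≤ ∫ x in Metric.ball (0 : E n) 1, |vs q (ε k) (u k) z x| ^ q := by
    intro k
    by_cases hk : ε k ≤ ε1
    · obtain ⟨z, hz⟩ := hcon (ε k) (hε0 k) hk _ _ ((h k).sc hq (hε0 k) 0)
      refine ⟨z, fun _ => ?_⟩
      simp_rw [vs_shift (hε0 k) (u k) z]
      rw [setInt_shift (fun x => |vs q (ε k) (u k) 0 x| ^ q)]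
      exact hz
    · exact ⟨0, fun h => absurd h hk⟩
  choose z hz using hex
  refine ⟨z, c, hc, ?_⟩
  filter_upwards [hε.eventually (gt_mem_nhds hε1)] with k hk
  exact hz k hk.le

lemma w_ne (hn : 2 ≤ n) {q : ℝ} (hq : 2 < q) (hq' : ((n:ℝ) - 2) * q < 2 * n)
    {v : ℕ → E n → ℝ} {G : ℕ → E n → E n} (h : ∀ k, IsH1 (v k) (G k)) {w : E n → ℝ}
    {H : E n → E n} (hc : CData n q v G w H) {c : ℝ} (hc0 : 0 < c)
    (hcon : ∀ᶠ k in atTop, c ≤ ∫ x in Metric.ball (0 : E n) 1, |v k x| ^ q) :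
    ¬ w =ᵐ[volume] 0 := by
  intro hw
  have hbm : MeasurableSet (Metric.ball (0 : E n) 1) := Metric.isOpen_ball.measurableSet
  have hl := loc_q hn hq hq' h hc one_pos
    (g := (Metric.ball (0 : E n) 1).indicator (fun _ => (1:ℝ))) (B := 1)
    (fun x => by
      by_cases hx : x ∈ Metric.ball (0 : E n) 1
      · rw [Set.indicator_of_mem hx]; simp
      · rw [Set.indicator_of_notMem hx]; simp)
    (measurable_const.indicator hbm).aestronglyMeasurable
    (fun x hx => (mem_ball_zero_iff.1 (Set.mem_of_indicator_ne_zero hx)).le)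
  have e : ∀ u : E n → ℝ, ∫ x, (Metric.ball (0 : E n) 1).indicator (fun _ => (1:ℝ)) x * |u x| ^ q =
      ∫ x in Metric.ball (0 : E n) 1, |u x| ^ q := by
    intro u
    rw [← integral_indicator hbm]
    congr 1; funext x
    by_cases hx : x ∈ Metric.ball (0 : E n) 1
    · rw [Set.indicator_of_mem hx, Set.indicator_of_mem hx, one_mul]
    · rw [Set.indicator_of_notMem hx, Set.indicator_of_notMem hx, zero_mul]
  simp only [e] at hl
  have h1 := ge_of_tendsto hl hcon
  have h2 : ∫ x in Metric.ball (0 : E n) 1, |w x| ^ q = 0 := by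
    rw [← integral_zero (E n) ℝ (μ := (volume : Measure (E n)).restrict (Metric.ball (0 : E n) 1))]
    apply integral_congr_ae
    filter_upwards [ae_restrict_of_ae hw] with x hx
    rw [hx, Pi.zero_apply, abs_zero, Real.zero_rpow (by linarith : q ≠ 0)]
  linarith

/-- Convergence of the inner masses. -/
lemma inner_conv {A T : ℕ → ℝ} {D : ℝ} (hAT : ∀ k, A k ≤ T k) (hT : Tendsto T atTop (𝓝 D))
    {l : ℕ → ℝ} (hl : Tendsto l atTop (𝓝 D)) {s : ℕ → ℕ → ℝ}
    (hs : ∀ R, Tendsto (s R) atTop (𝓝 (l R))) (hsA : ∀ R, ∀ᶠ k in atTop, s R k ≤ A k) :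
    Tendsto A atTop (𝓝 D) := by
  rw [Metric.tendsto_atTop']
  intro δ hδ
  obtain ⟨R, hR⟩ := (hl.eventually (lt_mem_nhds (show D - δ < D by linarith))).exists
  obtain ⟨K, hK⟩ := eventually_atTop.1 (((hsA R).and ((hs R).eventually (lt_mem_nhds hR))).and
    (hT.eventually (gt_mem_nhds (show D < D + δ by linarith))))
  refine ⟨K, fun k hk => ?_⟩
  obtain ⟨⟨h1, h2⟩, h3⟩ := hK k hk.le
  have h4 := hAT k
  rw [Real.dist_eq, abs_lt]
  constructor <;> linarith

/-- Global concentration. -/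
theorem concentration (hn : 2 ≤ n) {q : ℝ} (hq : 2 < q) (hq' : ((n:ℝ) - 2) * q < 2 * n)
    {ε : ℕ → ℝ} (hε0 : ∀ k, 0 < ε k) (hε1 : ∀ k, ε k ≤ 1) (hε : Tendsto ε atTop (𝓝 0))
    {u : ℕ → E n → ℝ} {G : ℕ → E n → E n} (h : ∀ k, LES n q (ε k) (u k) (G k)) :
    ∃ z : ℕ → Fin n → ℤ, ∀ δ : ℝ, 0 < δ →
      Tendsto (fun k =>
        (∫ x in Metric.ball (0 : E n) δ, (‖G k (x + lat (z k))‖ ^ 2 + u k (x + lat (z k)) ^ 2)) /
          ∫ x, (‖G k (x + lat (z k))‖ ^ 2 + u k (x + lat (z k)) ^ 2)) atTop (𝓝 1) ∧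
      Tendsto (fun k => (∫ x in Metric.ball (0 : E n) δ, |u k (x + lat (z k))| ^ q) /
          ∫ x, |u k (x + lat (z k))| ^ q) atTop (𝓝 1) := by
  obtain ⟨z, c, hc, hcon⟩ := exists_z hn hq hq' hε0 hε h
  refine ⟨z, fun δ hδ => ?_⟩
  obtain ⟨M, hM⟩ := Sc_bound2 hn hq hq'
  obtain ⟨Ce, -, hCe⟩ := emb hn hq.le hq'
  have hq2 : 0 < q - 2 := by linarith
  obtain ⟨v, hv⟩ : ∃ v : ℕ → E n → ℝ, v = fun k => vs q (ε k) (u k) (z k) := ⟨_, rfl⟩
  obtain ⟨W, hW⟩ : ∃ W : ℕ → E n → E n, W = fun k => Gs q (ε k) (G k) (z k) := ⟨_, rfl⟩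
  have hsc : ∀ k, Sc n q (ε k) (v k) (W k) := by
    intro k; rw [hv, hW]; exact (h k).sc hq (hε0 k) (z k)
  have hcon' : ∀ᶠ k in atTop, c ≤ ∫ x in Metric.ball (0 : E n) 1, |v k x| ^ q := by
    rw [hv]; exact hcon
  -- the ratios in the scaled variables
  have r1 : ∀ k, (∫ x in Metric.ball (0 : E n) δ,
        (‖G k (x + lat (z k))‖ ^ 2 + u k (x + lat (z k)) ^ 2)) /
          ∫ x, (‖G k (x + lat (z k))‖ ^ 2 + u k (x + lat (z k)) ^ 2) =
      (∫ x in Metric.ball (0 : E n) (δ / ε k), (‖W k x‖ ^ 2 + ε k ^ 2 * v k x ^ 2)) /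
        ∫ x, (‖W k x‖ ^ 2 + ε k ^ 2 * v k x ^ 2) := by
    intro k
    obtain ⟨b, hb⟩ : ∃ b, b = ε k ^ (2 / (q - 2)) := ⟨_, rfl⟩
    have hεk := hε0 k
    have hb0 : 0 < b := by rw [hb]; positivity
    have e : ∀ x, ‖W k x‖ ^ 2 + ε k ^ 2 * v k x ^ 2 = b ^ 2 * ε k ^ 2 *
        (fun y => ‖G k (y + lat (z k))‖ ^ 2 + u k (y + lat (z k)) ^ 2) (ε k • x) := by
      intro x
      rw [hW, hv]
      simp only [vs, Gs]
      rw [← hb, norm_smul, norm_smul, mul_pow, mul_pow, mul_pow, Real.norm_eq_abs,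
        Real.norm_eq_abs, sq_abs, sq_abs]
      ring
    simp_rw [e]
    rw [integral_const_mul, integral_const_mul,
      setInt_dil (fun y => ‖G k (y + lat (z k))‖ ^ 2 + u k (y + lat (z k)) ^ 2) hεk δ,
      int_dil (fun y => ‖G k (y + lat (z k))‖ ^ 2 + u k (y + lat (z k)) ^ 2) hεk,
      ← mul_assoc, ← mul_assoc, mul_div_mul_left]
    positivity
  have r2 : ∀ k, (∫ x in Metric.ball (0 : E n) δ, |u k (x + lat (z k))| ^ q) /
          ∫ x, |u k (x + lat (z k))| ^ q =
      (∫ x in Metric.ball (0 : E n) (δ / ε k), |v k x| ^ q) / ∫ x, |v k x| ^ q := by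
    intro k
    obtain ⟨b, hb⟩ : ∃ b, b = ε k ^ (2 / (q - 2)) := ⟨_, rfl⟩
    have hεk := hε0 k
    have hb0 : 0 < b := by rw [hb]; positivity
    have e : ∀ x, |v k x| ^ q = b ^ q *
        (fun y => |u k (y + lat (z k))| ^ q) (ε k • x) := by
      intro x
      rw [hv]
      simp only [vs]
      rw [← hb, abs_mul, Real.mul_rpow (abs_nonneg _) (abs_nonneg _), abs_of_pos hb0]
    simp_rw [e]
    rw [integral_const_mul, integral_const_mul,
      setInt_dil (fun y => |u k (y + lat (z k))| ^ q) hεk δ,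
      int_dil (fun y => |u k (y + lat (z k))| ^ q) hεk,
      ← mul_assoc, ← mul_assoc, mul_div_mul_left]
    positivity
  simp_rw [r1, r2]
  -- subsequences
  have hmain : ∀ ns : ℕ → ℕ, Tendsto ns atTop atTop → ∃ ms : ℕ → ℕ,
      Tendsto (fun k => (∫ x in Metric.ball (0 : E n) (δ / ε (ns (ms k))),
        (‖W (ns (ms k)) x‖ ^ 2 + ε (ns (ms k)) ^ 2 * v (ns (ms k)) x ^ 2)) /
        ∫ x, (‖W (ns (ms k)) x‖ ^ 2 + ε (ns (ms k)) ^ 2 * v (ns (ms k)) x ^ 2)) atTop (𝓝 1) ∧
      Tendsto (fun k => (∫ x in Metric.ball (0 : E n) (δ / ε (ns (ms k))), |v (ns (ms k)) x| ^ q) /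
        ∫ x, |v (ns (ms k)) x| ^ q) atTop (𝓝 1) := by
    intro ns hns
    obtain ⟨w, H, ms, hms, hcd⟩ := comp hn hq hq' (fun k => (hsc (ns k)).h1) (M := M)
      (fun k => (hM _ (hε0 _) (hε1 _) _ _ (hsc (ns k))).1)
      (fun k => (hM _ (hε0 _) (hε1 _) _ _ (hsc (ns k))).2)
    refine ⟨ms, ?_⟩
    obtain ⟨js, hjs⟩ : ∃ js : ℕ → ℕ, js = fun k => ns (ms k) := ⟨_, rfl⟩
    have hj : Tendsto js atTop atTop := by rw [hjs]; exact hns.comp hms.tendsto_atTop
    have ej : ∀ k, ns (ms k) = js k := fun k => by rw [hjs]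
    simp_rw [ej] at hcd ⊢
    have hεj : Tendsto (fun k => ε (js k)) atTop (𝓝 0) := hε.comp hj
    have hw := w_ne hn hq hq' (fun k => (hsc (js k)).h1) hcd hc (hj.eventually hcon')
    have hMj : ∀ k, ∫ x, ‖W (js k) x‖ ^ 2 ≤ M := fun k =>
      (hM _ (hε0 _) (hε1 _) _ _ (hsc (js k))).1
    obtain ⟨hD, -, hGc, hNc, hGs⟩ := energy_conv hn hq hq' (fun k => hε0 (js k)) hεj
      (fun k => hsc (js k)) hMj hcd hw
    have hqs := strong_q hn hq hq' (fun k => hε0 (js k)) hεj (fun k => hsc (js k)) hMj hcd hw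
    have hi : ∀ k, Integrable (fun x => |v (js k) x| ^ q) := fun k => (hCe _ _ (hsc (js k)).h1).1
    have hT1 : ∀ k, ∫ x, (‖W (js k) x‖ ^ 2 + ε (js k) ^ 2 * v (js k) x ^ 2) =
        (∫ x, ‖W (js k) x‖ ^ 2) + ε (js k) ^ 2 * ∫ x, v (js k) x ^ 2 := by
      intro k
      rw [integral_add (hsc (js k)).h1.int_grad ((hsc (js k)).h1.int_sq.const_mul _),
        integral_const_mul]
    have hint : ∀ k, Integrable (fun x => ‖W (js k) x‖ ^ 2 + ε (js k) ^ 2 * v (js k) x ^ 2) :=
      fun k => (hsc (js k)).h1.int_grad.add ((hsc (js k)).h1.int_sq.const_mul _)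
    have hbig : ∀ R : ℕ, ∀ᶠ k in atTop, (R:ℝ) + 1 ≤ δ / ε (js k) := by
      intro R
      filter_upwards [ev_small hεj (((R:ℝ) + 1) / δ)] with k hk
      rw [le_div_iff₀ (hε0 _)]
      rw [div_mul_eq_mul_div, div_le_one hδ] at hk
      exact hk
    constructor
    · have hTl : Tendsto (fun k => ∫ x, (‖W (js k) x‖ ^ 2 + ε (js k) ^ 2 * v (js k) x ^ 2)) atTop
          (𝓝 (∫ x, ‖H x‖ ^ 2)) := by
        have := hGc.add hNc
        rw [add_zero] at this
        exact this.congr fun k => (hT1 k).symm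
      have hAl : Tendsto (fun k => ∫ x in Metric.ball (0 : E n) (δ / ε (js k)),
          (‖W (js k) x‖ ^ 2 + ε (js k) ^ 2 * v (js k) x ^ 2)) atTop (𝓝 (∫ x, ‖H x‖ ^ 2)) := by
        refine inner_conv (fun k => ?_) hTl (ball_lim (integrable_sq hcd.hH))
          (s := fun R k => ∫ x in Metric.ball (0 : E n) (R + 1), ‖W (js k) x‖ ^ 2)
          (fun R => set_lim (fun k => (hsc (js k)).h1.mG) hcd.hH hGs) (fun R => ?_)
        · exact setIntegral_le_integral (hint k) (Eventually.of_forall fun x => by positivity)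
        · filter_upwards [hbig R] with k hk
          refine le_trans (setIntegral_mono (hsc (js k)).h1.int_grad.integrableOn
            (hint k).integrableOn fun x => ?_) (setIntegral_mono_set (hint k).integrableOn
              (Eventually.of_forall fun x => by positivity)
              (LE.le.eventuallyLE (Metric.ball_subset_ball hk)))
          have : 0 ≤ ε (js k) ^ 2 * v (js k) x ^ 2 := by positivity
          linarith
      have := hAl.div hTl hD.ne'
      rw [div_self hD.ne'] at this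
      exact this
    · have hqT : Tendsto (fun k => ∫ x, |v (js k) x| ^ q) atTop (𝓝 (∫ x, |w x| ^ q)) := by
        have := tendsto_int_rpow (μ := (volume : Measure (E n))) (show 1 ≤ q by linarith)
          (f := fun k x => v (js k) x) (f0 := w) (g := fun _ => 1) (B := 1) (by simp)
          aestronglyMeasurable_const hi hcd.hq (fun k => by
            have i0 : Integrable (fun x => 2 ^ (q - 1) * |v (js k) x| ^ q +
              2 ^ (q - 1) * |w x| ^ q) := ((hi k).const_mul _).add (hcd.hq.const_mul _)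
            refine i0.mono' (((hsc (js k)).h1.mu.1.sub hcd.hm).norm.aemeasurable.pow_const
              q).aestronglyMeasurable (Eventually.of_forall fun x => ?_)
            rw [Real.norm_eq_abs, abs_of_nonneg (by positivity)]
            have := half_bound (show 1 ≤ q by linarith) (v (js k) x - w x) (v (js k) x)
            rwa [sub_sub_cancel] at this) hqs
        simpa only [one_mul] using this
      have hP : 0 < ∫ x, |w x| ^ q := by
        have h0 : 0 ≤ ∫ x, |w x| ^ q := integral_nonneg fun x => by positivity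
        rcases eq_or_lt_of_le h0 with h1 | h1
        · exfalso
          have h2 := (integral_eq_zero_iff_of_nonneg (fun x => by positivity) hcd.hq).1 h1.symm
          apply hw
          filter_upwards [h2] with x hx
          have hx' : |w x| ^ q = 0 := hx
          rw [Real.rpow_eq_zero (abs_nonneg _) (by linarith)] at hx'
          simpa using hx'
        · exact h1
      have hAl : Tendsto (fun k => ∫ x in Metric.ball (0 : E n) (δ / ε (js k)),
          |v (js k) x| ^ q) atTop (𝓝 (∫ x, |w x| ^ q)) := by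
        refine inner_conv (fun k => ?_) hqT (ball_lim hcd.hq)
          (s := fun R k => ∫ x in Metric.ball (0 : E n) (R + 1), |v (js k) x| ^ q)
          (fun R => ?_) (fun R => ?_)
        · exact setIntegral_le_integral (hi k) (Eventually.of_forall fun x => by positivity)
        · have hbm : MeasurableSet (Metric.ball (0 : E n) (R + 1)) :=
            Metric.isOpen_ball.measurableSet
          have := loc_q hn hq hq' (fun k => (hsc (js k)).h1) hcd (show (0:ℝ) < R + 1 by positivity)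
            (g := (Metric.ball (0 : E n) (R + 1)).indicator (fun _ => (1:ℝ))) (B := 1)
            (fun x => by
              by_cases hx : x ∈ Metric.ball (0 : E n) (R + 1)
              · rw [Set.indicator_of_mem hx]; simp
              · rw [Set.indicator_of_notMem hx]; simp)
            (measurable_const.indicator hbm).aestronglyMeasurable
            (fun x hx => (mem_ball_zero_iff.1 (Set.mem_of_indicator_ne_zero hx)).le)
          have e : ∀ u : E n → ℝ, ∫ x, (Metric.ball (0 : E n) (R + 1)).indicator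
              (fun _ => (1:ℝ)) x * |u x| ^ q =
              ∫ x in Metric.ball (0 : E n) (R + 1), |u x| ^ q := by
            intro u
            rw [← integral_indicator hbm]
            congr 1; funext x
            by_cases hx : x ∈ Metric.ball (0 : E n) (R + 1)
            · rw [Set.indicator_of_mem hx, Set.indicator_of_mem hx, one_mul]
            · rw [Set.indicator_of_notMem hx, Set.indicator_of_notMem hx, zero_mul]
          simp only [e] at this
          exact this
        · filter_upwards [hbig R] with k hk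
          exact setIntegral_mono_set (hi k).integrableOn
              (Eventually.of_forall fun x => by positivity)
              (LE.le.eventuallyLE (Metric.ball_subset_ball hk))
      have := hAl.div hqT hP.ne'
      rw [div_self hP.ne'] at this
      exact this
  constructor
  · apply tendsto_of_subseq_tendsto
    intro ns hns
    obtain ⟨ms, h1, -⟩ := hmain ns hns
    exact ⟨ms, h1⟩
  · apply tendsto_of_subseq_tendsto
    intro ns hns
    obtain ⟨ms, -, h1⟩ := hmain ns hns
    exact ⟨ms, h1⟩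

end Pool.Agent.R217.PC
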