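import Pool.Agent.R217.PC.Lat

set_option autoImplicit false
set_option linter.unusedSectionVars false

open MeasureTheory Filter Topology
open scoped ContDiff ENNReal NNReal RealInnerProductSpace

namespace Pool.Agent.R217.PC

open Pool.Agent.R217.BN (E cexp sobS)
open Pool.Agent.R217.HS

variable {n : ℕ}

/-- Scaled cutoffs. -/
noncomputable def ct (n : ℕ) (R : ℝ) (x : E n) : ℝ := chi n 0 (R⁻¹ • x)

lemma ct_tst {R : ℝ} (hR : 0 < R) : Tst (ct n R) := (chi_tst (n := n) 0).dil (inv_pos.2 hR)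

lemma ct_one {R : ℝ} (hR : 0 < R) {x : E n} (h : ‖x‖ ≤ R) : ct n R x = 1 := by
  unfold ct
  apply chi_one
  rw [norm_smul, norm_inv, Real.norm_eq_abs, abs_of_pos hR, inv_mul_le_iff₀ hR]
  simpa using h

lemma ct_nonneg (R : ℝ) (x : E n) : 0 ≤ ct n R x := chi_nonneg _ _

lemma ct_le (R : ℝ) (x : E n) : ct n R x ≤ 1 := chi_le _ _

lemma ct_abs (R : ℝ) (x : E n) : |ct n R x| ≤ 1 := by
  rw [abs_of_nonneg (ct_nonneg R x)]; exact ct_le R x

lemma ct_supp {R : ℝ} (hR : 0 < R) {x : E n} (h : ct n R x ≠ 0) : ‖x‖ ≤ 2 * R := by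
  have h1 : R⁻¹ • x ∈ Function.support (chi n 0 : E n → ℝ) := h
  rw [(chi n 0).support_eq] at h1
  have h2 : ‖R⁻¹ • x‖ < 2 := by
    have := mem_ball_zero_iff.1 h1
    have h3 : (chi n 0).rOut = 2 := by simp [chi]
    rwa [h3] at this
  rw [norm_smul, norm_inv, Real.norm_eq_abs, abs_of_pos hR, inv_mul_lt_iff₀ hR] at h2
  linarith

lemma ct_grad (R : ℝ) (x : E n) :
    gradient (ct n R) x = R⁻¹ • gradient (chi n 0 : E n → ℝ) (R⁻¹ • x) := by
  unfold ct
  exact gradient_dil (chi_tst (n := n) 0).diff R⁻¹ x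

lemma ct_grad_bdd (n : ℕ) : ∃ C : ℝ, 0 ≤ C ∧ ∀ R : ℝ, 1 ≤ R → ∀ x : E n,
    ‖gradient (ct n R) x‖ ≤ C := by
  obtain ⟨C, hC⟩ : ∃ C : ℝ, ∀ x : E n, ‖gradient (chi n 0 : E n → ℝ) x‖ ≤ C :=
    (BN.gradient_compact (chi_tst (n := n) 0).2).exists_bound_of_continuous (chi_tst (n := n) 0).cg
  refine ⟨C, (norm_nonneg _).trans (hC 0), fun R hR x => ?_⟩
  rw [ct_grad, norm_smul, norm_inv, Real.norm_eq_abs, abs_of_pos (by linarith)]
  have h1 : R⁻¹ ≤ 1 := inv_le_one_of_one_le₀ hR
  have h2 : 0 ≤ ‖gradient (chi n 0 : E n → ℝ) (R⁻¹ • x)‖ := norm_nonneg _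
  calc R⁻¹ * ‖gradient (chi n 0 : E n → ℝ) (R⁻¹ • x)‖ ≤
      1 * ‖gradient (chi n 0 : E n → ℝ) (R⁻¹ • x)‖ := by gcongr
    _ ≤ C := by rw [one_mul]; exact hC _

lemma cont_pow_int {F : Type*} [NormedAddCommGroup F] {Y : E n → F} (hY : Continuous Y)
    (hYs : HasCompactSupport Y) {s : ℝ} (hs : 0 < s) : Integrable (fun x => ‖Y x‖ ^ s) := by
  apply Continuous.integrable_of_hasCompactSupport
  · exact hY.norm.rpow_const (fun x => Or.inr hs.le)
  · apply hYs.comp_left (g := fun y : F => ‖y‖ ^ s)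
    rw [norm_zero, Real.zero_rpow hs.ne']

/-- The integrability of products with compactly supported fields. -/
lemma young_mem {F : Type*} [NormedAddCommGroup F] [NormedSpace ℝ F] {q : ℝ} (hq : 2 < q)
    {w : E n → ℝ} (hm : AEStronglyMeasurable w volume) (hw : Integrable (fun x => |w x| ^ q))
    {Y : E n → F} (hY : Continuous Y) (hYs : HasCompactSupport Y) :
    MemLp (fun x => w x • Y x) 2 volume := by
  have hs : 0 < 2 * q / (q - 2) := by apply div_pos <;> linarith
  have hms : AEStronglyMeasurable (fun x => w x • Y x) volume := hm.smul hY.aestronglyMeasurable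
  rw [memLp_two_iff_integrable_sq_norm hms]
  refine (hw.add (cont_pow_int hY hYs hs)).mono' (hms.norm.pow 2) (Eventually.of_forall fun x => ?_)
  rw [Real.norm_eq_abs, abs_of_nonneg (by positivity), norm_smul, Real.norm_eq_abs, mul_comm,
    mul_pow, sq_abs, ← mul_pow]
  exact young hq (w x) ‖Y x‖ (norm_nonneg _)

/-- The cutoff error tends to zero. -/
lemma cut_small {q : ℝ} (hq : 2 < q) (hq' : ((n:ℝ) - 2) * q < 2 * n)
    {w : E n → ℝ} (hm : AEStronglyMeasurable w volume) (hw : Integrable (fun x => |w x| ^ q)) :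
    Tendsto (fun R : ℕ => ∫ x, ‖w x • gradient (ct n (R + 1)) x‖ ^ 2) atTop (𝓝 0) := by
  obtain ⟨s, hs⟩ : ∃ s, s = 2 * q / (q - 2) := ⟨_, rfl⟩
  have hq2 : 0 < q - 2 := by linarith
  have hs0 : 0 < s := by rw [hs]; positivity
  have hsn : (n:ℝ) < s := by
    rw [hs, lt_div_iff₀ hq2]; linarith
  obtain ⟨I, hI⟩ : ∃ I, I = ∫ x : E n, ‖gradient (chi n 0 : E n → ℝ) x‖ ^ s := ⟨_, rfl⟩
  have hg : ∀ R : ℝ, 0 < R → ∫ x : E n, ‖gradient (ct n R) x‖ ^ s = R ^ ((n:ℝ) - s) * I := by
    intro R hR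
    have e1 : ∀ x : E n, ‖gradient (ct n R) x‖ ^ s =
        (R⁻¹) ^ s * ‖gradient (chi n 0 : E n → ℝ) (R⁻¹ • x)‖ ^ s := by
      intro x
      rw [ct_grad, norm_smul, norm_inv, Real.norm_eq_abs, abs_of_pos hR,
        Real.mul_rpow (by positivity) (norm_nonneg _)]
    simp_rw [e1]
    rw [integral_const_mul, int_dil (fun x => ‖gradient (chi n 0 : E n → ℝ) x‖ ^ s) (inv_pos.2 hR),
      ← hI, ← mul_assoc]
    congr 1
    rw [inv_pow, inv_inv, Real.inv_rpow hR.le, ← Real.rpow_neg hR.le, ← Real.rpow_natCast,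
      ← Real.rpow_add hR]
    congr 1; ring
  have hI0 : 0 ≤ I := by rw [hI]; exact integral_nonneg fun x => by positivity
  obtain ⟨J, hJ⟩ : ∃ J, J = ∫ x, |w x| ^ q := ⟨_, rfl⟩
  have hJ0 : 0 ≤ J := by rw [hJ]; exact integral_nonneg fun x => by positivity
  have hmain : ∀ (l : ℝ), 0 < l → ∀ R : ℝ, 0 < R → ∫ x, ‖w x • gradient (ct n R) x‖ ^ 2 ≤
      l ^ q * J + l⁻¹ ^ s * (R ^ ((n:ℝ) - s) * I) := by
    intro l hl R hR
    have hY : Continuous (gradient (ct n R)) := (ct_tst hR).cg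
    have hYs : HasCompactSupport (gradient (ct n R)) := BN.gradient_compact (ct_tst hR).2
    have i1 := integrable_sq (young_mem hq hm hw hY hYs)
    have i2 := cont_pow_int hY hYs hs0
    calc ∫ x, ‖w x • gradient (ct n R) x‖ ^ 2 ≤
        ∫ x, (l ^ q * |w x| ^ q + l⁻¹ ^ s * ‖gradient (ct n R) x‖ ^ s) := by
          apply integral_mono i1 ((hw.const_mul _).add (i2.const_mul _))
          intro x
          change ‖w x • gradient (ct n R) x‖ ^ 2 ≤
            l ^ q * |w x| ^ q + l⁻¹ ^ s * ‖gradient (ct n R) x‖ ^ s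
          have h := young hq (l * w x) (l⁻¹ * ‖gradient (ct n R) x‖) (by positivity)
          rw [← hs, abs_mul, abs_of_pos hl, Real.mul_rpow hl.le (abs_nonneg _),
            Real.mul_rpow (by positivity) (norm_nonneg _)] at h
          refine le_trans (le_of_eq ?_) h
          rw [norm_smul, Real.norm_eq_abs, mul_pow, sq_abs]
          field_simp
      _ = l ^ q * J + l⁻¹ ^ s * (R ^ ((n:ℝ) - s) * I) := by
          rw [integral_add (hw.const_mul _) (i2.const_mul _), integral_const_mul,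
            integral_const_mul, hJ, hg R hR]
  rw [Metric.tendsto_atTop]
  intro ε hε
  obtain ⟨l, hl, hl2⟩ : ∃ l : ℝ, 0 < l ∧ l ^ q * J < ε / 2 := by
    have h1 : Tendsto (fun l : ℝ => l ^ q * J) (𝓝[>] 0) (𝓝 0) := by
      have h2 : Tendsto (fun l : ℝ => l ^ q) (𝓝[>] 0) (𝓝 0) := by
        have := (Real.continuousAt_rpow_const 0 q (Or.inr (by linarith : 0 ≤ q))).tendsto
        rw [Real.zero_rpow (by linarith : q ≠ 0)] at this
        exact this.mono_left nhdsWithin_le_nhds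
      simpa using h2.mul_const J
    obtain ⟨l, h2, h3⟩ := ((h1.eventually (gt_mem_nhds (show (0:ℝ) < ε / 2 by positivity))).and
      self_mem_nhdsWithin).exists
    exact ⟨l, h3, h2⟩
  have h2 : Tendsto (fun R : ℕ => l⁻¹ ^ s * (((R:ℝ) + 1) ^ ((n:ℝ) - s) * I)) atTop (𝓝 0) := by
    have h3 := (tendsto_rpow_neg_atTop (show 0 < s - n by linarith)).comp
      (tendsto_atTop_add_const_right atTop (1:ℝ) (tendsto_natCast_atTop_atTop (R := ℝ)))
    have h4 := (h3.mul_const I).const_mul (l⁻¹ ^ s)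
    rw [zero_mul, mul_zero] at h4
    refine h4.congr fun R => ?_
    simp only [Function.comp_apply]
    rw [show -(s - (n:ℝ)) = n - s by ring]
  obtain ⟨K, hK⟩ := Metric.tendsto_atTop.1 h2 (ε / 2) (by positivity)
  refine ⟨K, fun k hk => ?_⟩
  have h5' := hK k hk
  rw [Real.dist_eq, sub_zero] at h5'
  have h5 := (abs_lt.1 h5').2
  rw [Real.dist_eq, sub_zero, abs_of_nonneg (integral_nonneg fun x => by positivity)]
  have h6 := hmain l hl (k + 1) (by positivity)
  linarith

/-- Limits of integrals with cutoffs. -/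
lemma cut_lim {f : E n → ℝ} (hf : Integrable f) {m : ℕ → E n → ℝ}
    (hmm : ∀ R, AEStronglyMeasurable (m R) volume)
    (hm : ∀ R x, |m R x| ≤ 1) (hm1 : ∀ (R : ℕ) x, ‖x‖ ≤ R + 1 → m R x = 1) :
    Tendsto (fun R => ∫ x, m R x * f x) atTop (𝓝 (∫ x, f x)) := by
  apply tendsto_integral_of_dominated_convergence (fun x => |f x|)
  · intro R
    exact (hmm R).mul hf.1
  · exact hf.abs
  · intro R
    refine Eventually.of_forall fun x => ?_
    rw [Real.norm_eq_abs, abs_mul]
    exact mul_le_of_le_one_left (abs_nonneg _) (hm R x)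
  · refine Eventually.of_forall fun x => ?_
    obtain ⟨K, hK⟩ := exists_nat_ge ‖x‖
    refine tendsto_const_nhds.congr' ?_
    filter_upwards [eventually_ge_atTop K] with R hR
    rw [hm1 R x, one_mul]
    have : (K:ℝ) ≤ R := by exact_mod_cast hR
    linarith

lemma ct_cont {R : ℝ} (hR : 0 < R) : Continuous (ct n R) := (ct_tst hR).1.continuous

lemma cut_H {H : E n → E n} (hH : MemLp H 2 volume) :
    LTo volume (fun (R : ℕ) x => ct n (R + 1) x • H x) H := by
  have hp : ∀ R : ℕ, (0:ℝ) < R + 1 := fun R => by positivity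
  have hmem : ∀ R : ℕ, MemLp (fun x => ct n (R + 1) x • H x) 2 volume := fun R => by
    refine hH.of_le_mul (c := 1) ((ct_cont (hp R)).aestronglyMeasurable.smul hH.1)
      (Eventually.of_forall fun x => ?_)
    rw [norm_smul, Real.norm_eq_abs]
    gcongr
    exact ct_abs _ x
  apply lTo_of_sq hmem hH
  have h := cut_lim (f := fun x => ‖H x‖ ^ 2) (integrable_sq hH)
    (m := fun R x => 1 - (ct n (R + 1) x - 1) ^ 2)
    (fun R => (continuous_const.sub (((ct_cont (hp R)).sub
      continuous_const).pow 2)).aestronglyMeasurable)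
    (fun R x => by
      have h1 := ct_nonneg (n := n) (R + 1) x
      have h2 := ct_le (n := n) (R + 1) x
      rw [abs_le]; constructor <;> nlinarith)
    (fun R x hx => by rw [ct_one (hp R) hx]; ring)
  have h2 := h.const_sub (∫ x, ‖H x‖ ^ 2)
  rw [sub_self] at h2
  refine h2.congr fun R => ?_
  have i1 := integrable_sq hH
  have i2 : Integrable (fun x => (1 - (ct n (R + 1) x - 1) ^ 2) * ‖H x‖ ^ 2) := by
    refine i1.bdd_mul (c := 1) (continuous_const.sub (((ct_cont (hp R)).sub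
      continuous_const).pow 2)).aestronglyMeasurable (Eventually.of_forall fun x => ?_)
    have h1 := ct_nonneg (n := n) (R + 1) x
    have h2 := ct_le (n := n) (R + 1) x
    rw [Real.norm_eq_abs, abs_le]; constructor <;> nlinarith
  rw [← integral_sub i1 i2]
  congr 1
  funext x
  have e : ct n (R + 1) x • H x - H x = (ct n (R + 1) x - 1) • H x := by
    rw [sub_smul, one_smul]
  rw [e, norm_smul, mul_pow, Real.norm_eq_abs, sq_abs]
  ring

lemma cut_mem {H : E n → E n} (hH : MemLp H 2 volume) {R : ℝ} (hR : 0 < R) :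
    MemLp (fun x => ct n R x • H x) 2 volume := by
  refine hH.of_le_mul (c := 1) ((ct_cont hR).aestronglyMeasurable.smul hH.1)
    (Eventually.of_forall fun x => ?_)
  rw [norm_smul, Real.norm_eq_abs]
  gcongr
  exact ct_abs _ x

lemma cut_mem' {q : ℝ} (hq : 2 < q)
    {w : E n → ℝ} (hm : AEStronglyMeasurable w volume) (hw : Integrable (fun x => |w x| ^ q))
    {R : ℝ} (hR : 0 < R) : MemLp (fun x => w x • gradient (ct n R) x) 2 volume :=
  young_mem hq hm hw (ct_tst hR).cg (BN.gradient_compact (ct_tst hR).2)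

lemma cut_w {q : ℝ} (hq : 2 < q) (hq' : ((n:ℝ) - 2) * q < 2 * n)
    {w : E n → ℝ} (hm : AEStronglyMeasurable w volume) (hw : Integrable (fun x => |w x| ^ q)) :
    LTo volume (fun (R : ℕ) x => w x • gradient (ct n (R + 1)) x) (fun _ => (0 : E n)) := by
  apply lTo_of_sq (fun R => cut_mem' hq hm hw (by positivity)) (by simp)
  simp only [sub_zero]
  exact cut_small hq hq' hm hw

lemma cut_G {q : ℝ} (hq : 2 < q) (hq' : ((n:ℝ) - 2) * q < 2 * n)
    {w : E n → ℝ} (hm : AEStronglyMeasurable w volume) (hw : Integrable (fun x => |w x| ^ q))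
    {H : E n → E n} (hH : MemLp H 2 volume) :
    LTo volume (fun (R : ℕ) x => ct n (R + 1) x • H x + w x • gradient (ct n (R + 1)) x) H := by
  have h := (cut_H hH).add (cut_w hq hq' hm hw) (fun R => cut_mem hH (by positivity)) hH
    (fun R => cut_mem' hq hm hw (by positivity)) (by simp)
  simpa only [add_zero] using h

end Pool.Agent.R217.PC
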