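import Pool.Agent.R217.PC.Conc

set_option autoImplicit false
set_option linter.unusedSectionVars false

open MeasureTheory Filter Topology
open scoped ContDiff ENNReal NNReal RealInnerProductSpace

namespace Pool.Agent.R217.PC

open Pool.Agent.R217.BN (E cexp sobS)
open Pool.Agent.R217.HS

variable {n : ℕ}

/-- The critical exponent, as an extended number. -/
noncomputable def pe (n : ℕ) : ℝ≥0∞ := ENNReal.ofReal (cexp n)

/-- `u ∈ D^{1,2}` with gradient `G`. -/
structure IsD (u : E n → ℝ) (G : E n → E n) : Prop where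
  mu : MemLp u (pe n) volume
  mG : MemLp G 2 volume
  app : ∃ φ : ℕ → E n → ℝ, (∀ k, Tst (φ k)) ∧
    Tendsto (fun k => eLpNorm (fun x => φ k x - u x) (pe n) volume) atTop (𝓝 0) ∧
    Tendsto (fun k => eLpNorm (fun x => gradient (φ k) x - G x) 2 volume) atTop (𝓝 0)

lemma pe_ne_top : pe n ≠ ⊤ := ENNReal.ofReal_ne_top

lemma pe_one (hn : 3 ≤ n) : 1 ≤ pe n := by
  unfold pe
  rw [ENNReal.one_le_ofReal]
  have := two_lt_cexp hn
  linarith

lemma pe_ne_zero (hn : 3 ≤ n) : pe n ≠ 0 := by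
  have := pe_one hn
  intro h
  rw [h] at this
  simp at this

lemma pe_toReal (hn : 3 ≤ n) : (pe n).toReal = cexp n := by
  unfold pe
  rw [ENNReal.toReal_ofReal]
  have := two_lt_cexp hn
  linarith

lemma memLp_pe (hn : 3 ≤ n) {u : E n → ℝ} (hm : AEStronglyMeasurable u volume)
    (h : Integrable (fun x => |u x| ^ cexp n)) : MemLp u (pe n) volume := by
  rw [← integrable_norm_rpow_iff hm (pe_ne_zero hn) pe_ne_top, pe_toReal hn]
  exact h

/-- The Sobolev constant. -/
noncomputable def KK (n : ℕ) : ℝ≥0∞ := ENNReal.ofReal (Real.sqrt (sobS n))⁻¹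

lemma KK_ne_top : KK n ≠ ⊤ := ENNReal.ofReal_ne_top

lemma sob_e (hn : 3 ≤ n) {u : E n → ℝ} {G : E n → E n} (h : IsH1 u G) :
    MemLp u (pe n) volume ∧ eLpNorm u (pe n) volume ≤ KK n * eLpNorm G 2 volume := by
  obtain ⟨h1, h2⟩ := h.sobolev' hn
  have hm := memLp_pe hn h.mu.1 h1
  refine ⟨hm, ?_⟩
  have hS := BN.sobS_pos hn
  have hc := two_lt_cexp hn
  obtain ⟨A, hA⟩ : ∃ A, A = ∫ x, ‖G x‖ ^ 2 := ⟨_, rfl⟩
  have hA0 : 0 ≤ A := by rw [hA]; exact integral_nonneg fun x => by positivity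
  rw [hm.eLpNorm_eq_integral_rpow_norm (pe_ne_zero hn) pe_ne_top, pe_toReal hn,
    eLpNorm_two_of_sq h.mG, ← hA]
  rw [← hA] at h2
  unfold KK
  rw [← ENNReal.ofReal_mul (by positivity)]
  apply ENNReal.ofReal_le_ofReal
  simp only [Real.norm_eq_abs]
  have h3 := Real.rpow_le_rpow (integral_nonneg fun x => by positivity) h2
    (show 0 ≤ (cexp n)⁻¹ by positivity)
  refine h3.trans (le_of_eq ?_)
  rw [← Real.rpow_mul (by positivity), show cexp n / 2 * (cexp n)⁻¹ = 1 / 2 by
    have : cexp n ≠ 0 := by linarith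
    field_simp, ← Real.sqrt_eq_rpow, Real.sqrt_div hA0]
  rw [div_eq_mul_inv, mul_comm]

lemma H1_isD (hn : 3 ≤ n) {u : E n → ℝ} {G : E n → E n} (h : IsH1 u G) : IsD u G := by
  obtain ⟨φ, hφ, h1, h2⟩ := h.app
  refine ⟨(sob_e hn h).1, h.mG, φ, hφ, ?_, h2⟩
  have h3 : Tendsto (fun k => KK n * eLpNorm (fun x => gradient (φ k) x - G x) 2 volume) atTop
      (𝓝 0) := by
    have := ENNReal.Tendsto.const_mul h2 (Or.inr (KK_ne_top (n := n)))
    simpa using this
  exact tendsto_of_tendsto_of_tendsto_of_le_of_le tendsto_const_nhds h3 (fun k => zero_le)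
    fun k => (sob_e hn ((hφ k).isH1.sub h)).2

lemma IsD.sob (hn : 3 ≤ n) {u : E n → ℝ} {G : E n → E n} (h : IsD u G) :
    eLpNorm u (pe n) volume ≤ KK n * eLpNorm G 2 volume := by
  obtain ⟨φ, hφ, h1, h2⟩ := h.app
  have h3 : Tendsto (fun k => eLpNorm (fun x => φ k x - u x) (pe n) volume +
      KK n * (eLpNorm (fun x => gradient (φ k) x - G x) 2 volume + eLpNorm G 2 volume)) atTop
      (𝓝 (0 + KK n * (0 + eLpNorm G 2 volume))) := by
    apply h1.add
    apply ENNReal.Tendsto.const_mul (h2.add tendsto_const_nhds) (Or.inr KK_ne_top)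
  rw [zero_add, zero_add] at h3
  refine ge_of_tendsto' h3 fun k => ?_
  have m1 := (sob_e hn (hφ k).isH1).1
  have e1 : eLpNorm u (pe n) volume ≤ eLpNorm (fun x => φ k x - u x) (pe n) volume +
      eLpNorm (φ k) (pe n) volume := by
    have e : u = fun x => φ k x - (φ k x - u x) := by funext x; ring
    have := eLpNorm_sub_le (f := φ k) (g := fun x => φ k x - u x) m1.1 (m1.sub h.mu).1
      (pe_one hn) (μ := volume)
    rw [add_comm]
    refine le_trans (le_of_eq ?_) this
    exact congrArg (fun f => eLpNorm f (pe n) volume) e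
  have e2 : eLpNorm (gradient (φ k)) 2 volume ≤
      eLpNorm (fun x => gradient (φ k) x - G x) 2 volume + eLpNorm G 2 volume := by
    have := eLpNorm_add_le (f := fun x => gradient (φ k) x - G x) (g := G) (μ := volume)
      (((hφ k).memLp_grad 2).sub h.mG).1 h.mG.1 (p := 2) (by norm_num)
    refine le_trans (le_of_eq ?_) this
    congr 1
    funext x
    simp
  refine e1.trans ?_
  gcongr
  exact (sob_e hn (hφ k).isH1).2.trans (by gcongr)

lemma IsD.sub (hn : 3 ≤ n) {u v : E n → ℝ} {G H : E n → E n} (h : IsD u G) (h' : IsD v H) :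
    IsD (fun x => u x - v x) (fun x => G x - H x) := by
  obtain ⟨φ, hφ, h1, h2⟩ := h.app
  obtain ⟨ψ, hψ, h3, h4⟩ := h'.app
  refine ⟨h.mu.sub h'.mu, h.mG.sub h'.mG, fun k x => φ k x - ψ k x,
    fun k => (hφ k).sub (hψ k), ?_, ?_⟩
  · have h5 := h1.add h3
    rw [add_zero] at h5
    refine tendsto_of_tendsto_of_tendsto_of_le_of_le tendsto_const_nhds h5 (fun k => zero_le)
      fun k => ?_
    have m1 := ((sob_e hn (hφ k).isH1).1.sub h.mu).1
    have m2 := ((sob_e hn (hψ k).isH1).1.sub h'.mu).1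
    refine le_trans (le_of_eq ?_) (eLpNorm_sub_le m1 m2 (pe_one hn))
    congr 1
    funext x
    simp only [Pi.sub_apply]; ring
  · have := LTo.sub (μ := volume) h2 h4 (fun k => (hφ k).memLp_grad 2) h.mG
      (fun k => (hψ k).memLp_grad 2) h'.mG
    unfold LTo at this
    refine this.congr fun k => ?_
    congr 1
    funext x
    rw [gradient_sub ((hφ k).diff x) ((hψ k).diff x)]

lemma IsD.unique (hn : 3 ≤ n) {u v : E n → ℝ} {G H : E n → E n} (h : IsD u G) (h' : IsD v H)
    (hGH : G =ᵐ[volume] H) : u =ᵐ[volume] v := by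
  have h1 := (h.sub hn h').sob hn
  have h2 : eLpNorm (fun x => G x - H x) 2 volume = 0 := by
    have hm : AEStronglyMeasurable (fun x => G x - H x) volume := (h.mG.sub h'.mG).1
    rw [eLpNorm_eq_zero_iff hm (by norm_num)]
    filter_upwards [hGH] with x hx
    simp [hx]
  have hm : AEStronglyMeasurable (fun x => u x - v x) volume := (h.mu.sub h'.mu).1
  rw [h2, mul_zero, nonpos_iff_eq_zero, eLpNorm_eq_zero_iff hm (pe_ne_zero hn)] at h1
  filter_upwards [h1] with x hx
  have hx' : u x - v x = 0 := hx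
  linarith

lemma isD_of_tendsto (hn : 3 ≤ n) {f : ℕ → E n → ℝ} {F : ℕ → E n → E n}
    (h : ∀ R, IsD (f R) (F R)) {w : E n → ℝ} {H : E n → E n} (hw : MemLp w (pe n) volume)
    (hH : MemLp H 2 volume)
    (h1 : Tendsto (fun R => eLpNorm (fun x => f R x - w x) (pe n) volume) atTop (𝓝 0))
    (h2 : Tendsto (fun R => eLpNorm (fun x => F R x - H x) 2 volume) atTop (𝓝 0)) : IsD w H := by
  have key : ∀ R : ℕ, ∃ φ : E n → ℝ, Tst φ ∧
      eLpNorm (fun x => φ x - f R x) (pe n) volume ≤ ((R:ℝ≥0∞) + 1)⁻¹ ∧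
      eLpNorm (fun x => gradient φ x - F R x) 2 volume ≤ ((R:ℝ≥0∞) + 1)⁻¹ := by
    intro R
    obtain ⟨φ, hφ, h3, h4⟩ := (h R).app
    have hpos : 0 < ((R:ℝ≥0∞) + 1)⁻¹ := by
      apply ENNReal.inv_pos.2
      exact ENNReal.add_ne_top.2 ⟨ENNReal.natCast_ne_top R, ENNReal.one_ne_top⟩
    obtain ⟨k, hk1, hk2⟩ := ((h3.eventually (gt_mem_nhds hpos)).and
      (h4.eventually (gt_mem_nhds hpos))).exists
    exact ⟨φ k, hφ k, hk1.le, hk2.le⟩
  choose φ hφ h3 h4 using key
  have hinv : Tendsto (fun R : ℕ => ((R:ℝ≥0∞) + 1)⁻¹) atTop (𝓝 0) := by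
    have := (ENNReal.tendsto_inv_nat_nhds_zero).comp (tendsto_add_atTop_nat 1)
    refine this.congr fun R => ?_
    simp
  refine ⟨hw, hH, φ, hφ, ?_, ?_⟩
  · have h5 := hinv.add h1
    rw [add_zero] at h5
    refine tendsto_of_tendsto_of_tendsto_of_le_of_le tendsto_const_nhds h5 (fun k => zero_le)
      fun k => ?_
    have m1 := ((sob_e hn (hφ k).isH1).1.sub (h k).mu).1
    have m2 := ((h k).mu.sub hw).1
    have h6 := eLpNorm_add_le m1 m2 (pe_one hn)
    refine le_trans (le_of_eq ?_) (h6.trans (add_le_add (h3 k) le_rfl))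
    congr 1
    funext x
    simp
  · have h5 := hinv.add h2
    rw [add_zero] at h5
    refine tendsto_of_tendsto_of_tendsto_of_le_of_le tendsto_const_nhds h5 (fun k => zero_le)
      fun k => ?_
    have m1 := (((hφ k).memLp_grad 2).sub (h k).mG).1
    have m2 := ((h k).mG.sub hH).1
    have h6 := eLpNorm_add_le m1 m2 (show (1:ℝ≥0∞) ≤ 2 by norm_num)
    refine le_trans (le_of_eq ?_) (h6.trans (add_le_add (h4 k) le_rfl))
    congr 1
    funext x
    simp

/-- The limits of the compactness theorem are in `D^{1,2}`. -/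
lemma cdata_isD (hn : 3 ≤ n) {q : ℝ} (hq : 2 < q) (hq' : ((n:ℝ) - 2) * q < 2 * n)
    {v : ℕ → E n → ℝ} {G : ℕ → E n → E n} (h : ∀ k, IsH1 (v k) (G k)) {M : ℝ}
    (hM : ∀ k, ∫ x, ‖G k x‖ ^ 2 ≤ M) {w : E n → ℝ}
    {H : E n → E n} (hc : CData n q v G w H) : IsD w H := by
  have hp : ∀ R : ℕ, (0:ℝ) < R + 1 := fun R => by positivity
  have hce := two_lt_cexp hn
  have hS := BN.sobS_pos hn
  have hwi := fatou_rpow (μ := (volume : Measure (E n))) (show 0 < cexp n by linarith)
    (fun k => ((h k).sobolev' hn).1) (fun k => (h k).mu.1) hc.hm (M := (M / sobS n) ^ (cexp n / 2))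
    (fun k => (((h k).sobolev' hn).2).trans (by
      apply Real.rpow_le_rpow
      · exact div_nonneg (integral_nonneg fun x => by positivity) hS.le
      · exact div_le_div_of_nonneg_right (hM k) hS.le
      · linarith)) hc.ae
  have hwm := memLp_pe hn hc.hm hwi.1
  refine isD_of_tendsto hn (f := fun (R : ℕ) x => ct n (R + 1) x * w x)
    (F := fun (R : ℕ) x => ct n (R + 1) x • H x + w x • gradient (ct n (R + 1)) x)
    (fun R => H1_isD hn (hc.h1 _ (ct_tst (hp R)))) hwm hc.hH ?_ (cut_G hq hq' hc.hm hc.hq hc.hH)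
  -- convergence of the cut off functions
  have hml : ∀ R : ℕ, MemLp (fun x => ct n (R + 1) x * w x - w x) (pe n) volume := fun R =>
    (H1_isD hn (hc.h1 _ (ct_tst (hp R)))).mu.sub hwm
  have e : ∀ R : ℕ, eLpNorm (fun x => ct n (R + 1) x * w x - w x) (pe n) volume =
      ENNReal.ofReal ((∫ x, |ct n (R + 1) x - 1| ^ cexp n * |w x| ^ cexp n) ^ (cexp n)⁻¹) := by
    intro R
    rw [(hml R).eLpNorm_eq_integral_rpow_norm (pe_ne_zero hn) pe_ne_top, pe_toReal hn]
    congr 3
    funext x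
    rw [Real.norm_eq_abs, ← Real.mul_rpow (abs_nonneg _) (abs_nonneg _), ← abs_mul]
    congr 2; ring
  simp_rw [e]
  have hl := cut_lim hwi.1 (m := fun (R : ℕ) x => 1 - |ct n (R + 1) x - 1| ^ cexp n)
    (fun R => (continuous_const.sub (((ct_cont (hp R)).sub continuous_const).abs.rpow_const
      (fun x => Or.inr (by linarith)))).aestronglyMeasurable)
    (fun R x => by
      have h1 := ct_nonneg (n := n) (R + 1) x
      have h2 := ct_le (n := n) (R + 1) x
      have h3 : |ct n (R + 1) x - 1| ≤ 1 := by rw [abs_le]; constructor <;> linarith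
      have h4 := Real.rpow_le_one (abs_nonneg _) h3 (show 0 ≤ cexp n by linarith)
      have h5 : 0 ≤ |ct n (R + 1) x - 1| ^ cexp n := by positivity
      rw [abs_le]; constructor <;> linarith)
    (fun R x hx => by
      rw [ct_one (hp R) hx, sub_self, abs_zero, Real.zero_rpow (by linarith : cexp n ≠ 0), sub_zero])
  have hl2 := hl.const_sub (∫ x, |w x| ^ cexp n)
  rw [sub_self] at hl2
  have hl3 : Tendsto (fun R : ℕ => ∫ x, |ct n (R + 1) x - 1| ^ cexp n * |w x| ^ cexp n) atTop
      (𝓝 0) := by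
    refine hl2.congr fun R => ?_
    have i2 : Integrable (fun x => (1 - |ct n (R + 1) x - 1| ^ cexp n) * |w x| ^ cexp n) := by
      refine hwi.1.bdd_mul (c := 1) (continuous_const.sub (((ct_cont (hp R)).sub
        continuous_const).abs.rpow_const
        (fun x => Or.inr (by linarith)))).aestronglyMeasurable (Eventually.of_forall fun x => ?_)
      have h1 := ct_nonneg (n := n) (R + 1) x
      have h2 := ct_le (n := n) (R + 1) x
      have h3 : |ct n (R + 1) x - 1| ≤ 1 := by rw [abs_le]; constructor <;> linarith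
      have h4 := Real.rpow_le_one (abs_nonneg _) h3 (show 0 ≤ cexp n by linarith)
      have h5 : 0 ≤ |ct n (R + 1) x - 1| ^ cexp n := by positivity
      rw [Real.norm_eq_abs, abs_le]; constructor <;> linarith
    rw [← integral_sub hwi.1 i2]
    congr 1; funext x; ring
  have hl4 := (ENNReal.continuous_ofReal.tendsto _).comp
    (hl3.rpow_const (p := (cexp n)⁻¹) (Or.inr (by positivity)))
  rw [Real.zero_rpow (by
    have : cexp n ≠ 0 := by linarith
    positivity), ENNReal.ofReal_zero] at hl4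
  exact hl4

end Pool.Agent.R217.PC
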