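import Pool.Agent.R217.HS.Lions
import Pool.Agent.Helper420.QI.Sob

set_option autoImplicit false
set_option linter.unusedSectionVars false

open MeasureTheory Filter Topology
open scoped ContDiff ENNReal NNReal RealInnerProductSpace

namespace Pool.Agent.R217.PC

open Pool.Agent.R217.BN (E cexp sobS)
open Pool.Agent.R217.HS

variable {n : ℕ}

/-- Local embedding for test functions supported in a ball. -/
lemma loc_emb (hn : 2 ≤ n) {q : ℝ} (hq : 1 ≤ q) (hq' : ((n:ℝ) - 2) * q < 2 * n) (R : ℝ) :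
    ∃ C : ℝ, 0 ≤ C ∧ ∀ φ : E n → ℝ, Tst φ → (∀ x, φ x ≠ 0 → ‖x‖ ≤ R) →
      ∫ x, |φ x| ^ q ≤ C * (∫ x, ‖gradient φ x‖ ^ 2) ^ (q / 2) := by
  obtain ⟨Q, rfl⟩ : ∃ Q : ℝ≥0, (Q:ℝ) = q := ⟨⟨q, by linarith⟩, rfl⟩
  obtain ⟨C, hC⟩ := Helper420.QI.Sob.sobolev (N := n) (Ω := Metric.closedBall 0 R) hn
    Metric.isBounded_closedBall (q := Q) (by exact_mod_cast hq) hq'
  refine ⟨(C:ℝ) ^ (Q:ℝ), by positivity, fun φ hφ hs => ?_⟩
  have hq0 : 0 < (Q:ℝ) := by linarith
  have h1 := hC φ (hφ.1.of_le (by simp)) (fun x hx => by simpa using hs x hx)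
  have hqn : (Q : ℝ≥0∞) ≠ 0 := by
    have : Q ≠ 0 := by
      intro h
      rw [h] at hq0
      simp at hq0
    exact_mod_cast this
  have e1 := (hφ.memLp (Q : ℝ≥0∞)).eLpNorm_eq_integral_rpow_norm hqn
    ENNReal.coe_ne_top
  have e2 : eLpNorm (fderiv ℝ φ) 2 volume =
      ENNReal.ofReal (Real.sqrt (∫ x, ‖gradient φ x‖ ^ 2)) := by
    rw [← eLpNorm_two_of_sq (hφ.memLp_grad 2)]
    exact eLpNorm_congr_norm_ae (Eventually.of_forall fun x => (BN.norm_gradient _ x).symm)
  rw [e1, e2] at h1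
  have hA : 0 ≤ ∫ x, |φ x| ^ (Q:ℝ) := integral_nonneg fun x => by positivity
  have hB : 0 ≤ ∫ x, ‖gradient φ x‖ ^ 2 := integral_nonneg fun x => by positivity
  have h2 : (∫ x, |φ x| ^ (Q:ℝ)) ^ ((Q:ℝ)⁻¹) ≤ C * Real.sqrt (∫ x, ‖gradient φ x‖ ^ 2) := by
    have h3 : ENNReal.ofReal ((∫ x, |φ x| ^ (Q:ℝ)) ^ ((Q:ℝ)⁻¹)) ≤
        ENNReal.ofReal (C * Real.sqrt (∫ x, ‖gradient φ x‖ ^ 2)) := by
      rw [ENNReal.ofReal_mul C.coe_nonneg, ENNReal.ofReal_coe_nnreal]
      exact h1
    exact (ENNReal.ofReal_le_ofReal_iff (by positivity)).1 h3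
  have h4 := Real.rpow_le_rpow (by positivity) h2 hq0.le
  rw [← Real.rpow_mul hA, inv_mul_cancel₀ hq0.ne', Real.rpow_one,
    Real.mul_rpow C.coe_nonneg (Real.sqrt_nonneg _), Real.sqrt_eq_rpow, ← Real.rpow_mul hB] at h4
  rwa [show 1 / 2 * (Q:ℝ) = (Q:ℝ) / 2 by ring] at h4

/-- Gradient bound for localised functions. -/
lemma cut_grad (n : ℕ) : ∃ K : ℝ, 0 ≤ K ∧ ∀ φ : E n → ℝ, Tst φ → ∀ y : E n,
    ∫ x, ‖gradient (fun x => chi n 0 (x + -y) * φ x) x‖ ^ 2 ≤
      K * ∫ x in Metric.ball y 3, (‖gradient φ x‖ ^ 2 + φ x ^ 2) := by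
  obtain ⟨C, hC⟩ : ∃ C : ℝ, ∀ x : E n, ‖gradient (chi n 0 : E n → ℝ) x‖ ≤ C :=
    (BN.gradient_compact (chi_tst (n := n) 0).2).exists_bound_of_continuous (chi_tst (n := n) 0).cg
  have hC0 : 0 ≤ C := (norm_nonneg _).trans (hC 0)
  obtain ⟨K, hK⟩ : ∃ K, K = 2 * (1 + C ^ 2) := ⟨_, rfl⟩
  have hK0 : 0 ≤ K := by rw [hK]; positivity
  refine ⟨K, hK0, fun φ hφ y => ?_⟩
  have hχ : Tst (fun x => chi n 0 (x + -y)) := (chi_tst 0).trans (-y)
  have hψ : Tst (fun x => chi n 0 (x + -y) * φ x) := hχ.mul hφ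
  have hgr : ∀ x, ‖gradient (fun x => chi n 0 (x + -y) * φ x) x‖ ^ 2 ≤
      K * (Metric.ball y 3).indicator (fun x => ‖gradient φ x‖ ^ 2 + φ x ^ 2) x := by
    intro x
    by_cases hx : x ∈ Metric.ball y 3
    · rw [Set.indicator_of_mem hx, gradient_mul (hχ.diff x) (hφ.diff x), gradient_trans]
      have a1 : ‖chi n 0 (x + -y) • gradient φ x‖ ≤ ‖gradient φ x‖ := by
        rw [norm_smul, Real.norm_eq_abs, abs_of_nonneg (chi_nonneg 0 _)]
        exact mul_le_of_le_one_left (norm_nonneg _) (chi_le 0 _)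
      have a2 : ‖φ x • gradient (chi n 0 : E n → ℝ) (x + -y)‖ ≤ C * |φ x| := by
        rw [norm_smul, Real.norm_eq_abs, mul_comm]
        exact mul_le_mul_of_nonneg_right (hC _) (abs_nonneg _)
      have a3 := norm_add_le (chi n 0 (x + -y) • gradient φ x)
        (φ x • gradient (chi n 0 : E n → ℝ) (x + -y))
      have a4 : ‖chi n 0 (x + -y) • gradient φ x +
          φ x • gradient (chi n 0 : E n → ℝ) (x + -y)‖ ^ 2 ≤ (‖gradient φ x‖ + C * |φ x|) ^ 2 := by
        apply pow_le_pow_left₀ (norm_nonneg _)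
        linarith
      refine a4.trans ?_
      rw [hK]
      have a5 := sq_abs (φ x)
      nlinarith [sq_nonneg (‖gradient φ x‖ - C * |φ x|),
        mul_nonneg (sq_nonneg C) (sq_nonneg ‖gradient φ x‖),
        sq_nonneg (φ x), mul_nonneg (sq_nonneg C) (sq_nonneg (φ x))]
    · rw [Set.indicator_of_notMem hx, mul_zero]
      have hev : (fun x => chi n 0 (x + -y) * φ x) =ᶠ[𝓝 x] fun _ => 0 := by
        have hx' : x ∈ (Metric.closedBall y 2)ᶜ := by
          simp only [Metric.mem_ball, not_lt, Set.mem_compl_iff, Metric.mem_closedBall, not_le] at hx ⊢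
          linarith
        filter_upwards [Metric.isClosed_closedBall.isOpen_compl.mem_nhds hx'] with z hz
        have : chi n 0 (z + -y) = 0 := by
          apply (chi n 0).zero_of_le_dist
          simp only [chi, Set.mem_compl_iff, Metric.mem_closedBall, not_le,
            dist_eq_norm, sub_zero] at hz ⊢
          rw [← sub_eq_add_neg]
          push_cast
          linarith
        rw [this, zero_mul]
      have hg : gradient (fun x => chi n 0 (x + -y) * φ x) x = 0 := by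
        unfold gradient
        rw [hev.fderiv_eq]
        simp
      rw [hg]
      simp
  have hiball : IntegrableOn (fun x => ‖gradient φ x‖ ^ 2 + φ x ^ 2) (Metric.ball y 3) :=
    (hφ.int_grad.add hφ.int_sq).integrableOn
  rw [← integral_indicator Metric.isOpen_ball.measurableSet, ← integral_const_mul]
  apply integral_mono hψ.int_grad
  · exact (hiball.integrable_indicator Metric.isOpen_ball.measurableSet).const_mul K
  · exact hgr

/-- Global embedding for test functions. -/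
lemma emb_test (hn : 2 ≤ n) {q : ℝ} (hq : 2 ≤ q) (hq' : ((n:ℝ) - 2) * q < 2 * n) :
    ∃ C : ℝ, 0 ≤ C ∧ ∀ φ : E n → ℝ, Tst φ →
      ∫ x, |φ x| ^ q ≤ C * ((∫ x, ‖gradient φ x‖ ^ 2) + ∫ x, φ x ^ 2) ^ (q / 2) := by
  have hq0 : 0 < q := by linarith
  obtain ⟨C, hC0, hC⟩ := loc_emb hn (show 1 ≤ q by linarith) hq' 2
  obtain ⟨K, hK0, hK⟩ := cut_grad n
  obtain ⟨I0, hI0⟩ : ∃ I0, I0 = ∫ x : E n, |chi n 0 x| ^ q := ⟨_, rfl⟩
  have hI0p : 0 < I0 := by
    rw [hI0]
    apply (chi_tst (n := n) 0).rpow_pos _ hq0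
    intro h
    have h1 := congrFun h 0
    rw [chi_one (by simp)] at h1
    simp at h1
  obtain ⟨V, hV⟩ : ∃ V, V = (volume (Metric.ball (0 : E n) 3)).toReal := ⟨_, rfl⟩
  have hV0 : 0 ≤ V := by rw [hV]; exact ENNReal.toReal_nonneg
  refine ⟨C * K ^ (q / 2) * V / I0, by positivity, fun φ hφ => ?_⟩
  obtain ⟨D, hD⟩ : ∃ D, D = (∫ x, ‖gradient φ x‖ ^ 2) + ∫ x, φ x ^ 2 := ⟨_, rfl⟩
  rw [← hD]
  have hDi : ∫ x, (‖gradient φ x‖ ^ 2 + φ x ^ 2) = D := by
    rw [hD, integral_add hφ.int_grad hφ.int_sq]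
  have iG : Integrable (fun x : E n => ‖gradient φ x‖ ^ 2 + φ x ^ 2) :=
    hφ.int_grad.add hφ.int_sq
  have hD0 : 0 ≤ D := by rw [← hDi]; exact integral_nonneg fun x => by positivity
  have hloc : ∀ y : E n, ∫⁻ x, ENNReal.ofReal (|chi n 0 (x - y)| ^ q) *
      ENNReal.ofReal (|φ x| ^ q) ≤ ENNReal.ofReal (C * K ^ (q / 2) * D ^ (q / 2 - 1)) *
        ∫⁻ x, (Metric.ball (0 : E n) 3).indicator (fun _ => (1:ℝ≥0∞)) (x - y) *
          ENNReal.ofReal (‖gradient φ x‖ ^ 2 + φ x ^ 2) := by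
    intro y
    have hχ : Tst (fun x => chi n 0 (x + -y)) := (chi_tst 0).trans (-y)
    have hψ : Tst (fun x => chi n 0 (x + -y) * φ x) := hχ.mul hφ
    have hzero : ∀ x, x ∉ Metric.closedBall y 2 → chi n 0 (x + -y) = 0 := by
      intro x hx
      apply (chi n 0).zero_of_le_dist
      simp only [chi, Metric.mem_closedBall, not_le, dist_eq_norm, sub_zero] at hx ⊢
      rw [← sub_eq_add_neg]
      push_cast
      linarith
    have hiball : IntegrableOn (fun x => ‖gradient φ x‖ ^ 2 + φ x ^ 2) (Metric.ball y 3) :=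
      iG.integrableOn
    obtain ⟨Dy, hDy⟩ : ∃ Dy, Dy = ∫ x in Metric.ball y 3, (‖gradient φ x‖ ^ 2 + φ x ^ 2) := ⟨_, rfl⟩
    have hDy0 : 0 ≤ Dy := by rw [hDy]; exact integral_nonneg fun x => by positivity
    have hDyD : Dy ≤ D := by
      rw [hDy, ← hDi]
      exact setIntegral_le_integral iG (Eventually.of_forall fun x => by positivity)
    have k3 : ∫ x, |chi n 0 (x + -y) * φ x| ^ q ≤ C * K ^ (q / 2) * D ^ (q / 2 - 1) * Dy := by
      -- translate to the origin
      have hT := (hψ.trans y)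
      have h1 := hC _ hT (fun x hx => by
        by_contra hcon
        push Not at hcon
        apply hx
        have : chi n 0 (x + y + -y) = 0 := by
          apply hzero
          simp only [Metric.mem_closedBall, dist_eq_norm, add_sub_cancel_right]
          linarith
        rw [this, zero_mul])
      have e1 : ∫ x, |(fun x => chi n 0 (x + -y) * φ x) (x + y)| ^ q =
          ∫ x, |chi n 0 (x + -y) * φ x| ^ q :=
        integral_add_right_eq_self (fun x => |chi n 0 (x + -y) * φ x| ^ q) y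
      have e2 : ∫ x, ‖gradient (fun x => (fun x => chi n 0 (x + -y) * φ x) (x + y)) x‖ ^ 2 =
          ∫ x, ‖gradient (fun x => chi n 0 (x + -y) * φ x) x‖ ^ 2 := by
        have : ∀ x, ‖gradient (fun x => (fun x => chi n 0 (x + -y) * φ x) (x + y)) x‖ ^ 2 =
            (fun z => ‖gradient (fun x => chi n 0 (x + -y) * φ x) z‖ ^ 2) (x + y) := by
          intro x
          rw [gradient_trans (fun x => chi n 0 (x + -y) * φ x) y x]
        simp_rw [this]
        exact integral_add_right_eq_self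
          (fun z => ‖gradient (fun x => chi n 0 (x + -y) * φ x) z‖ ^ 2) y
      rw [e1, e2] at h1
      refine h1.trans ?_
      have h2 := hK φ hφ y
      rw [← hDy] at h2
      have h3 : (∫ x, ‖gradient (fun x => chi n 0 (x + -y) * φ x) x‖ ^ 2) ^ (q / 2) ≤
          K ^ (q / 2) * Dy ^ (q / 2) := by
        rw [← Real.mul_rpow hK0 hDy0]
        exact Real.rpow_le_rpow (integral_nonneg fun x => by positivity) h2 (by positivity)
      have h4 : Dy ^ (q / 2) ≤ D ^ (q / 2 - 1) * Dy := by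
        rcases eq_or_lt_of_le hDy0 with h0 | h0
        · rw [← h0, Real.zero_rpow (by positivity), mul_zero]
        · have : Dy ^ (q / 2) = Dy ^ (q / 2 - 1) * Dy := by
            rw [← Real.rpow_add_one h0.ne']; congr 1; ring
          rw [this]
          have h5 : Dy ^ (q / 2 - 1) ≤ D ^ (q / 2 - 1) :=
            Real.rpow_le_rpow hDy0 hDyD (by linarith)
          gcongr
      calc C * (∫ x, ‖gradient (fun x => chi n 0 (x + -y) * φ x) x‖ ^ 2) ^ (q / 2)
          ≤ C * (K ^ (q / 2) * (D ^ (q / 2 - 1) * Dy)) := by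
            gcongr
            refine h3.trans ?_
            gcongr
        _ = _ := by ring
    have l1 : ∫⁻ x, ENNReal.ofReal (|chi n 0 (x - y)| ^ q) * ENNReal.ofReal (|φ x| ^ q) =
        ENNReal.ofReal (∫ x, |chi n 0 (x + -y) * φ x| ^ q) := by
      rw [ofReal_integral_eq_lintegral_ofReal (hψ.int_rpow hq0)
        (Eventually.of_forall fun x => by positivity)]
      apply lintegral_congr
      intro x
      rw [← ENNReal.ofReal_mul (by positivity), abs_mul, Real.mul_rpow (abs_nonneg _) (abs_nonneg _),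
        sub_eq_add_neg]
    have l2 : ∫⁻ x, (Metric.ball (0 : E n) 3).indicator (fun _ => (1:ℝ≥0∞)) (x - y) *
        ENNReal.ofReal (‖gradient φ x‖ ^ 2 + φ x ^ 2) = ENNReal.ofReal Dy := by
      rw [hDy, ofReal_integral_eq_lintegral_ofReal hiball
        (Eventually.of_forall fun x => by positivity),
        ← lintegral_indicator Metric.isOpen_ball.measurableSet]
      apply lintegral_congr
      intro x
      by_cases hx : x ∈ Metric.ball y 3
      · have : x - y ∈ Metric.ball (0 : E n) 3 := by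
          simpa [dist_eq_norm] using hx
        rw [Set.indicator_of_mem hx, Set.indicator_of_mem this, one_mul]
      · have : x - y ∉ Metric.ball (0 : E n) 3 := by
          simpa [dist_eq_norm] using hx
        rw [Set.indicator_of_notMem hx, Set.indicator_of_notMem this, zero_mul]
    rw [l1, l2, ← ENNReal.ofReal_mul (by positivity)]
    exact ENNReal.ofReal_le_ofReal k3
  have hmain := lintegral_mono (μ := (volume : Measure (E n))) hloc
  have mχ : Measurable fun x : E n => ENNReal.ofReal (|chi n 0 x| ^ q) :=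
    ((chi_tst (n := n) 0).1.continuous.abs.rpow_const fun x => Or.inr hq0.le).measurable.ennreal_ofReal
  have mφ : Measurable fun x : E n => ENNReal.ofReal (|φ x| ^ q) :=
    (hφ.1.continuous.abs.rpow_const fun x => Or.inr hq0.le).measurable.ennreal_ofReal
  have mI : Measurable fun x : E n => (Metric.ball (0 : E n) 3).indicator (fun _ => (1:ℝ≥0∞)) x :=
    measurable_const.indicator Metric.isOpen_ball.measurableSet
  have mG : Measurable fun x : E n => ENNReal.ofReal (‖gradient φ x‖ ^ 2 + φ x ^ 2) := by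
    have : Continuous fun x : E n => ‖gradient φ x‖ ^ 2 + φ x ^ 2 :=
      (hφ.cg.norm.pow 2).add (hφ.1.continuous.pow 2)
    exact this.measurable.ennreal_ofReal
  rw [lint_conv mχ mφ, lintegral_const_mul', lint_conv mI mG] at hmain
  swap
  · exact ENNReal.ofReal_ne_top
  have eV : ∫⁻ y : E n, (Metric.ball (0 : E n) 3).indicator (fun _ => (1:ℝ≥0∞)) y =
      ENNReal.ofReal V := by
    rw [hV, ENNReal.ofReal_toReal (measure_ball_lt_top (μ := (volume : Measure (E n)))).ne]
    exact lintegral_indicator_one Metric.isOpen_ball.measurableSet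
  have hc0 : 0 ≤ C * K ^ (q / 2) * D ^ (q / 2 - 1) := by positivity
  rw [← ofReal_integral_eq_lintegral_ofReal ((chi_tst (n := n) 0).int_rpow hq0)
      (Eventually.of_forall fun x => by positivity), ← hI0,
    ← ofReal_integral_eq_lintegral_ofReal (hφ.int_rpow hq0)
      (Eventually.of_forall fun x => by positivity),
    ← ofReal_integral_eq_lintegral_ofReal iG
      (Eventually.of_forall fun x => by positivity), eV, hDi,
    ← ENNReal.ofReal_mul hI0p.le, ← ENNReal.ofReal_mul hV0, ← ENNReal.ofReal_mul hc0] at hmain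
  have h1 := (ENNReal.ofReal_le_ofReal_iff (by positivity)).1 hmain
  have h2 : D ^ (q / 2 - 1) * D = D ^ (q / 2) := by
    rcases eq_or_lt_of_le hD0 with h0 | h0
    · rw [← h0, Real.zero_rpow (show q / 2 ≠ 0 by positivity), mul_zero]
    · rw [← Real.rpow_add_one h0.ne']; congr 1; ring
  rw [div_mul_eq_mul_div, le_div_iff₀ hI0p]
  calc (∫ x, |φ x| ^ q) * I0 = I0 * ∫ x, |φ x| ^ q := mul_comm _ _
    _ ≤ C * K ^ (q / 2) * D ^ (q / 2 - 1) * (V * D) := h1
    _ = C * K ^ (q / 2) * V * (D ^ (q / 2 - 1) * D) := by ring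
    _ = C * K ^ (q / 2) * V * D ^ (q / 2) := by rw [h2]

/-- Global embedding. -/
lemma emb (hn : 2 ≤ n) {q : ℝ} (hq : 2 ≤ q) (hq' : ((n:ℝ) - 2) * q < 2 * n) :
    ∃ C : ℝ, 0 ≤ C ∧ ∀ (u : E n → ℝ) (G : E n → E n), IsH1 u G →
      Integrable (fun x => |u x| ^ q) ∧
      ∫ x, |u x| ^ q ≤ C * ((∫ x, ‖G x‖ ^ 2) + ∫ x, u x ^ 2) ^ (q / 2) := by
  obtain ⟨C, hC0, hC⟩ := emb_test hn hq hq'
  refine ⟨C, hC0, fun u G h => ?_⟩
  refine h.transfer (show 0 < q by linarith) (Φ := fun a b => C * (a + b) ^ (q / 2)) ?_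
    fun φ hφ => hC φ hφ
  have : Continuous fun p : ℝ × ℝ => C * (p.1 + p.2) ^ (q / 2) := by
    apply Continuous.mul continuous_const
    apply Continuous.rpow_const
    · fun_prop
    · intro p; right; linarith
  exact this

end Pool.Agent.R217.PC
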