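import Pool.Agent.R217.PC.Emb

set_option autoImplicit false
set_option linter.unusedSectionVars false

open MeasureTheory Filter Topology
open scoped ContDiff ENNReal NNReal RealInnerProductSpace

namespace Pool.Agent.R217.PC

open Pool.Agent.R217.BN (E cexp sobS)
open Pool.Agent.R217.HS

variable {n : ℕ}

/-- Convergence of weighted integrals of powers. -/
lemma tendsto_int_rpow {α : Type*} [MeasurableSpace α] {μ : Measure α} {q : ℝ} (hq : 1 ≤ q)
    {f : ℕ → α → ℝ} {f0 g : α → ℝ} {B : ℝ} (hg : ∀ x, |g x| ≤ B) (hgm : AEStronglyMeasurable g μ)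
    (hf : ∀ k, Integrable (fun x => |f k x| ^ q) μ) (hf0 : Integrable (fun x => |f0 x| ^ q) μ)
    (hd : ∀ k, Integrable (fun x => |f k x - f0 x| ^ q) μ)
    (h : Tendsto (fun k => ∫ x, |f k x - f0 x| ^ q ∂μ) atTop (𝓝 0)) :
    Tendsto (fun k => ∫ x, g x * |f k x| ^ q ∂μ) atTop (𝓝 (∫ x, g x * |f0 x| ^ q ∂μ)) := by
  have hB : 0 ≤ max B 0 := le_max_right _ _
  have hg' : ∀ x, |g x| ≤ max B 0 := fun x => (hg x).trans (le_max_left _ _)
  obtain ⟨B', hB'⟩ : ∃ B', B' = max B 0 := ⟨_, rfl⟩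
  rw [← hB'] at hB hg'
  have hi : ∀ k, Integrable (fun x => g x * |f k x| ^ q) μ := fun k =>
    (hf k).bdd_mul hgm (c := B') (Eventually.of_forall hg')
  have hi0 : Integrable (fun x => g x * |f0 x| ^ q) μ :=
    hf0.bdd_mul hgm (c := B') (Eventually.of_forall hg')
  rw [Metric.tendsto_atTop]
  intro ε hε
  obtain ⟨J, hJ⟩ : ∃ J, J = ∫ x, |f0 x| ^ q ∂μ := ⟨_, rfl⟩
  have hJ0 : 0 ≤ J := by rw [hJ]; exact integral_nonneg fun x => by positivity
  obtain ⟨η, hη, hη2⟩ : ∃ η : ℝ, 0 < η ∧ B' * (η * J) < ε / 2 := by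
    refine ⟨ε / (2 * (B' * J + 1)), by positivity, ?_⟩
    have : B' * (ε / (2 * (B' * J + 1)) * J) = ε * (B' * J) / (2 * (B' * J + 1)) := by ring
    rw [this, div_lt_div_iff₀ (by positivity) (by positivity)]
    have h1 : 0 ≤ B' * J := by positivity
    nlinarith
  obtain ⟨C, hC, hBL⟩ := exists_BL_const hq hη
  have h1 := h.const_mul (B' * C)
  rw [mul_zero] at h1
  obtain ⟨K, hK⟩ := Metric.tendsto_atTop.1 h1 (ε / 2) (by positivity)
  refine ⟨K, fun k hk => ?_⟩
  have h2 := hK k hk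
  rw [Real.dist_eq, sub_zero] at h2
  have h3 := (abs_lt.1 h2).2
  rw [Real.dist_eq, ← integral_sub (hi k) hi0]
  calc |∫ x, (g x * |f k x| ^ q - g x * |f0 x| ^ q) ∂μ|
      ≤ ∫ x, |g x * |f k x| ^ q - g x * |f0 x| ^ q| ∂μ := abs_integral_le_integral_abs
    _ ≤ ∫ x, (B' * (η * |f0 x| ^ q) + B' * C * |f k x - f0 x| ^ q) ∂μ := by
        apply integral_mono ((hi k).sub hi0).abs
          (((hf0.const_mul η).const_mul B').add ((hd k).const_mul (B' * C)))
        intro x
        dsimp only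
        have h4 := hBL (f0 x) (f k x - f0 x)
        rw [add_sub_cancel] at h4
        change |g x * |f k x| ^ q - g x * |f0 x| ^ q| ≤
          B' * (η * |f0 x| ^ q) + B' * C * |f k x - f0 x| ^ q
        rw [← mul_sub, abs_mul]
        calc |g x| * |(|f k x| ^ q - |f0 x| ^ q)|
            ≤ B' * (η * |f0 x| ^ q + C * |f k x - f0 x| ^ q) :=
              mul_le_mul (hg' x) h4 (abs_nonneg _) hB
          _ = _ := by ring
    _ = B' * (η * J) + B' * C * ∫ x, |f k x - f0 x| ^ q ∂μ := by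
        rw [integral_add ((hf0.const_mul η).const_mul B') ((hd k).const_mul (B' * C)),
          integral_const_mul, integral_const_mul, integral_const_mul, hJ]
    _ < ε := by linarith

/-- Translated set integrals. -/
lemma setInt_shift_le {f : E n → ℝ} (hf : Integrable f) (h0 : ∀ x, 0 ≤ f x) (w : E n) {r : ℝ}
    (hr : ‖w‖ + 3 ≤ r) :
    ∫ x in Metric.ball 0 3, f (x + w) ≤ ∫ x in Metric.ball 0 r, f x := by
  rw [← integral_indicator Metric.isOpen_ball.measurableSet,
    ← integral_indicator Metric.isOpen_ball.measurableSet,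
    ← integral_add_right_eq_self (μ := (volume : Measure (E n)))
      (fun x => (Metric.ball (0 : E n) r).indicator f x) w]
  have hi : Integrable (fun x => f (x + w)) := hf.comp_add_right w
  apply integral_mono
  · exact hi.indicator Metric.isOpen_ball.measurableSet
  · exact (hf.indicator Metric.isOpen_ball.measurableSet).comp_add_right w
  · intro x
    dsimp only
    by_cases hx : x ∈ Metric.ball (0 : E n) 3
    · have hx2 : x + w ∈ Metric.ball (0 : E n) r := by
        simp only [Metric.mem_ball, dist_zero_right] at hx ⊢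
        have := norm_add_le x w
        linarith
      rw [Set.indicator_of_mem hx, Set.indicator_of_mem hx2]
    · rw [Set.indicator_of_notMem hx]
      exact Set.indicator_nonneg (fun y _ => h0 y) _

lemma shift_sq {φ : E n → ℝ} (hφ : Tst φ) (z : E n) :
    ∫ x in Metric.ball 0 3, (φ (x + z) - φ x) ^ 2 ≤
      ‖z‖ ^ 2 * ∫ x in Metric.ball 0 (‖z‖ + 3), ‖gradient φ x‖ ^ 2 := by
  have hC1 : ContDiff ℝ 1 φ := hφ.1.of_le (by simp)
  have hd : Continuous (fderiv ℝ φ) := hC1.continuous_fderiv (by simp)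
  have hw : Tst (fun x => φ (x + z) - φ x) := (hφ.trans z).sub hφ
  have key : ∫⁻ x in Metric.ball (0 : E n) 3, ‖φ (x + z) - φ x‖ₑ ^ 2 ≤
      ‖z‖ₑ ^ 2 * ∫⁻ x in Metric.ball (0 : E n) (‖z‖ + 3), ‖fderiv ℝ φ x‖ₑ ^ 2 := by
    calc ∫⁻ x in Metric.ball (0 : E n) 3, ‖φ (x + z) - φ x‖ₑ ^ 2
        ≤ ∫⁻ x in Metric.ball (0 : E n) 3,
            ‖z‖ₑ ^ 2 * ∫⁻ t in Set.Ioc (0:ℝ) 1, ‖fderiv ℝ φ (x + t • z)‖ₑ ^ 2 := by
          gcongr with x
          exact Helper420.QI.Sob.enorm_sub_translate_sq_le hC1 z x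
      _ = ‖z‖ₑ ^ 2 * ∫⁻ x in Metric.ball (0 : E n) 3,
            ∫⁻ t in Set.Ioc (0:ℝ) 1, ‖fderiv ℝ φ (x + t • z)‖ₑ ^ 2 := by
          rw [lintegral_const_mul]
          exact Measurable.lintegral_prod_right' (f := fun p : E n × ℝ =>
            ‖fderiv ℝ φ (p.1 + p.2 • z)‖ₑ ^ 2) (by fun_prop)
      _ = ‖z‖ₑ ^ 2 * ∫⁻ t in Set.Ioc (0:ℝ) 1, ∫⁻ x in Metric.ball (0 : E n) 3,
            ‖fderiv ℝ φ (x + t • z)‖ₑ ^ 2 := by
          rw [lintegral_lintegral_swap]
          exact Continuous.aemeasurable (by fun_prop)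
      _ ≤ ‖z‖ₑ ^ 2 * ∫⁻ _ in Set.Ioc (0:ℝ) 1, ∫⁻ x in Metric.ball (0 : E n) (‖z‖ + 3),
            ‖fderiv ℝ φ x‖ₑ ^ 2 := by
          gcongr ‖z‖ₑ ^ 2 * ?_
          apply setLIntegral_mono' measurableSet_Ioc
          intro t ht
          rw [← lintegral_indicator Metric.isOpen_ball.measurableSet,
            ← lintegral_indicator Metric.isOpen_ball.measurableSet,
            ← lintegral_add_right_eq_self (fun x => (Metric.ball (0 : E n) (‖z‖ + 3)).indicator
              (fun x => ‖fderiv ℝ φ x‖ₑ ^ 2) x) (t • z)]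
          apply lintegral_mono
          intro x
          dsimp only
          by_cases hx : x ∈ Metric.ball (0 : E n) 3
          · have hx2 : x + t • z ∈ Metric.ball (0 : E n) (‖z‖ + 3) := by
              simp only [Metric.mem_ball, dist_zero_right] at hx ⊢
              have h1 := norm_add_le x (t • z)
              have h2 : ‖t • z‖ ≤ ‖z‖ := by
                rw [norm_smul, Real.norm_eq_abs, abs_of_pos ht.1]
                exact mul_le_of_le_one_left (norm_nonneg _) ht.2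
              linarith
            rw [Set.indicator_of_mem hx, Set.indicator_of_mem hx2]
          · rw [Set.indicator_of_notMem hx]
            exact zero_le
      _ = ‖z‖ₑ ^ 2 * ∫⁻ x in Metric.ball (0 : E n) (‖z‖ + 3), ‖fderiv ℝ φ x‖ₑ ^ 2 := by
          simp
  have i1 : IntegrableOn (fun x => (φ (x + z) - φ x) ^ 2) (Metric.ball (0 : E n) 3) :=
    hw.int_sq.integrableOn
  have i2 : IntegrableOn (fun x => ‖gradient φ x‖ ^ 2) (Metric.ball (0 : E n) (‖z‖ + 3)) :=
    hφ.int_grad.integrableOn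
  have l1 : ∫⁻ x in Metric.ball (0 : E n) 3, ‖φ (x + z) - φ x‖ₑ ^ 2 =
      ENNReal.ofReal (∫ x in Metric.ball 0 3, (φ (x + z) - φ x) ^ 2) := by
    rw [ofReal_integral_eq_lintegral_ofReal i1 (Eventually.of_forall fun x => sq_nonneg _)]
    apply lintegral_congr
    intro x
    rw [← sq_abs, ENNReal.ofReal_pow (abs_nonneg _), Real.enorm_eq_ofReal_abs]
  have l2 : ∫⁻ x in Metric.ball (0 : E n) (‖z‖ + 3), ‖fderiv ℝ φ x‖ₑ ^ 2 =
      ENNReal.ofReal (∫ x in Metric.ball 0 (‖z‖ + 3), ‖gradient φ x‖ ^ 2) := by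
    rw [ofReal_integral_eq_lintegral_ofReal i2 (Eventually.of_forall fun x => sq_nonneg _)]
    apply lintegral_congr
    intro x
    rw [BN.norm_gradient, ENNReal.ofReal_pow (norm_nonneg _), ofReal_norm]
  have l3 : ‖z‖ₑ ^ 2 = ENNReal.ofReal (‖z‖ ^ 2) := by
    rw [ENNReal.ofReal_pow (norm_nonneg _), ofReal_norm]
  rw [l1, l2, l3, ← ENNReal.ofReal_mul (by positivity)] at key
  refine (ENNReal.ofReal_le_ofReal_iff ?_).1 key
  exact mul_nonneg (by positivity) (integral_nonneg fun x => by positivity)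

lemma li_shift (hn : 2 ≤ n) {q : ℝ} (hq : 1 ≤ q) (hq' : ((n:ℝ) - 2) * q < 2 * n) (z : E n) :
    ∃ C : ℝ, 0 ≤ C ∧ ∀ φ : E n → ℝ, Tst φ →
      ∫ x in Metric.ball 0 1, |φ (x + z) - φ x| ^ q ≤
        C * (∫ x in Metric.ball 0 (‖z‖ + 3), ‖gradient φ x‖ ^ 2) ^ (q / 2) := by
  have hq0 : 0 < q := by linarith
  obtain ⟨C, hC0, hC⟩ := loc_emb hn hq hq' 2
  obtain ⟨K, hK0, hK⟩ := cut_grad n
  refine ⟨C * (K * (4 + ‖z‖ ^ 2)) ^ (q / 2), by positivity, fun φ hφ => ?_⟩
  have hw : Tst (fun x => φ (x + z) - φ x) := (hφ.trans z).sub hφ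
  have hψ : Tst (fun x => chi n 0 (x + -0) * (φ (x + z) - φ x)) := ((chi_tst 0).trans (-0)).mul hw
  obtain ⟨g, hg⟩ : ∃ g, g = ∫ x in Metric.ball 0 (‖z‖ + 3), ‖gradient φ x‖ ^ 2 := ⟨_, rfl⟩
  have hg0 : 0 ≤ g := by rw [hg]; exact integral_nonneg fun x => by positivity
  rw [← hg]
  have h1 : ∫ x in Metric.ball 0 1, |φ (x + z) - φ x| ^ q ≤
      ∫ x, |chi n 0 (x + -0) * (φ (x + z) - φ x)| ^ q := by
    calc ∫ x in Metric.ball 0 1, |φ (x + z) - φ x| ^ q =
          ∫ x in Metric.ball 0 1, |chi n 0 (x + -0) * (φ (x + z) - φ x)| ^ q := by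
          apply setIntegral_congr_fun Metric.isOpen_ball.measurableSet
          intro x hx
          have hx' : ‖x‖ < 1 := by simpa using hx
          dsimp only
          rw [neg_zero, add_zero, chi_one (by push_cast; linarith), one_mul]
      _ ≤ _ := setIntegral_le_integral (hψ.int_rpow hq0) (Eventually.of_forall fun x => by positivity)
  have h2 := hC _ hψ (fun x hx => by
    by_contra hcon
    push Not at hcon
    apply hx
    have : chi n 0 (x + -0) = 0 := by
      rw [neg_zero, add_zero]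
      apply (chi n 0).zero_of_le_dist
      simp only [chi, dist_zero_right]
      push_cast
      linarith
    rw [this, zero_mul])
  have h3 := hK _ hw 0
  have h4 : ∫ x in Metric.ball (0 : E n) 3, (‖gradient (fun x => φ (x + z) - φ x) x‖ ^ 2 +
      (fun x => φ (x + z) - φ x) x ^ 2) ≤ (4 + ‖z‖ ^ 2) * g := by
    have i1 : IntegrableOn (fun x => ‖gradient (fun x => φ (x + z) - φ x) x‖ ^ 2)
        (Metric.ball (0 : E n) 3) := hw.int_grad.integrableOn
    have i2 : IntegrableOn (fun x => (φ (x + z) - φ x) ^ 2) (Metric.ball (0 : E n) 3) :=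
      hw.int_sq.integrableOn
    have e1 : ∫ x in Metric.ball (0 : E n) 3, (‖gradient (fun x => φ (x + z) - φ x) x‖ ^ 2 +
      (fun x => φ (x + z) - φ x) x ^ 2) =
        (∫ x in Metric.ball (0 : E n) 3, ‖gradient (fun x => φ (x + z) - φ x) x‖ ^ 2) +
        ∫ x in Metric.ball (0 : E n) 3, (φ (x + z) - φ x) ^ 2 := integral_add i1 i2
    rw [e1]
    have h5 := shift_sq hφ z
    rw [← hg] at h5
    have h6 : ∫ x in Metric.ball (0 : E n) 3, ‖gradient (fun x => φ (x + z) - φ x) x‖ ^ 2 ≤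
        2 * (∫ x in Metric.ball (0 : E n) 3, ‖gradient φ (x + z)‖ ^ 2) +
          2 * ∫ x in Metric.ball (0 : E n) 3, ‖gradient φ x‖ ^ 2 := by
      have i3 : IntegrableOn (fun x => ‖gradient φ (x + z)‖ ^ 2) (Metric.ball (0 : E n) 3) :=
        (hφ.int_grad.comp_add_right z).integrableOn
      have i4 : IntegrableOn (fun x => ‖gradient φ x‖ ^ 2) (Metric.ball (0 : E n) 3) :=
        hφ.int_grad.integrableOn
      rw [← integral_const_mul, ← integral_const_mul,
        ← integral_add (i3.const_mul 2) (i4.const_mul 2)]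
      apply integral_mono i1 ((i3.const_mul 2).add (i4.const_mul 2))
      intro x
      change ‖gradient (fun x => φ (x + z) - φ x) x‖ ^ 2 ≤
        2 * ‖gradient φ (x + z)‖ ^ 2 + 2 * ‖gradient φ x‖ ^ 2
      rw [gradient_sub ((hφ.trans z).diff x) (hφ.diff x), gradient_trans]
      have a1 := norm_sub_le (gradient φ (x + z)) (gradient φ x)
      have a2 := pow_le_pow_left₀ (norm_nonneg _) a1 2
      nlinarith [sq_nonneg (‖gradient φ (x + z)‖ - ‖gradient φ x‖)]
    have h7 : ∫ x in Metric.ball (0 : E n) 3, ‖gradient φ (x + z)‖ ^ 2 ≤ g := by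
      rw [hg]
      exact setInt_shift_le hφ.int_grad (fun x => by positivity) z le_rfl
    have h8 : ∫ x in Metric.ball (0 : E n) 3, ‖gradient φ x‖ ^ 2 ≤ g := by
      rw [hg]
      apply setIntegral_mono_set hφ.int_grad.integrableOn
        (Eventually.of_forall fun x => by positivity)
      apply HasSubset.Subset.eventuallyLE
      apply Metric.ball_subset_ball
      have := norm_nonneg z
      linarith
    linarith
  refine h1.trans (h2.trans ?_)
  rw [mul_assoc]
  gcongr
  rw [← Real.mul_rpow (by positivity) hg0]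
  apply Real.rpow_le_rpow (integral_nonneg fun x => by positivity) _ (by positivity)
  refine h3.trans ?_
  rw [mul_assoc]
  gcongr

end Pool.Agent.R217.PC
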