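import Pool.Agent.R217.PC.LI
import Pool.Agent.R217.HS.Mul

set_option autoImplicit false
set_option linter.unusedSectionVars false

open MeasureTheory Filter Topology
open scoped ContDiff ENNReal NNReal RealInnerProductSpace

namespace Pool.Agent.R217.PC

open Pool.Agent.R217.BN (E cexp sobS)
open Pool.Agent.R217.HS

variable {n : ℕ}

lemma half_bound {q : ℝ} (hq : 1 ≤ q) (a b : ℝ) :
    |a| ^ q ≤ 2 ^ (q - 1) * |b| ^ q + 2 ^ (q - 1) * |b - a| ^ q := by
  have := add_rpow_le hq (δ := 1/2) (by norm_num) (by norm_num) b (-(b - a))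
  rw [abs_neg, show b + -(b - a) = a by ring] at this
  have h2 : (1 - (1/2:ℝ)) ^ (1 - q) = 2 ^ (q - 1) := by
    rw [show (1:ℝ) - 1/2 = 2⁻¹ by norm_num, Real.inv_rpow (by norm_num), ← Real.rpow_neg (by norm_num)]
    congr 1; ring
  have h3 : ((1/2:ℝ)) ^ (1 - q) = 2 ^ (q - 1) := by rw [← h2]; norm_num
  rw [h2, h3] at this
  exact this

/-- The local inequality for test functions. -/
lemma LI_test (hn : 2 ≤ n) {q : ℝ} (hq : 1 ≤ q) (hq' : ((n:ℝ) - 2) * q < 2 * n) :
    ∃ L C : ℝ, 1 < L ∧ 0 ≤ C ∧ ∀ φ : E n → ℝ, Tst φ →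
      ∫ x in Metric.ball 0 1, |φ x| ^ q ≤
        1 / 2 * (∫ x in Metric.ball 0 L \ Metric.ball 0 1, |φ x| ^ q) +
          C * (∫ x in Metric.ball 0 L, ‖gradient φ x‖ ^ 2) ^ (q / 2) := by
  have hq0 : 0 < q := by linarith
  obtain ⟨K, hK⟩ := exists_nat_gt ((2:ℝ) ^ q)
  have hKpos : (0:ℝ) < K := lt_trans (by positivity) hK
  obtain ⟨z, hz, hzz⟩ : ∃ z : ℕ → E n, (∀ j, ‖z j‖ = 3 * ((j:ℝ) + 1)) ∧
      ∀ i j, i ≠ j → 3 ≤ dist (z i) (z j) := by
    let e : E n := EuclideanSpace.single ⟨0, by omega⟩ 1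
    have he : ‖e‖ = 1 := by simp [e]
    refine ⟨fun j => (3 * ((j:ℝ) + 1)) • e, fun j => ?_, fun i j hij => ?_⟩
    · rw [norm_smul, he, Real.norm_eq_abs, abs_of_nonneg (by positivity), mul_one]
    · rw [dist_eq_norm, ← sub_smul, norm_smul, he, Real.norm_eq_abs, mul_one, ← mul_sub, abs_mul]
      have h7 : (1:ℝ) ≤ |(i:ℝ) + 1 - ((j:ℝ) + 1)| := by
        have h8 : (i:ℤ) - j ≠ 0 := by
          intro h9
          apply hij
          omega
        have h9 : (1:ℤ) ≤ |(i:ℤ) - j| := Int.one_le_abs h8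
        have h10 : ((1:ℤ):ℝ) ≤ ((|(i:ℤ) - j| : ℤ) : ℝ) := by exact_mod_cast h9
        push_cast at h10
        rwa [show (i:ℝ) + 1 - ((j:ℝ) + 1) = (i:ℝ) - j by ring]
      rw [abs_of_pos (show (0:ℝ) < 3 by norm_num)]
      linarith
  choose C hC0 hC using fun j => li_shift hn hq hq' (z j)
  obtain ⟨L, hL⟩ : ∃ L : ℝ, L = 3 * ((K:ℝ) + 1) + 4 := ⟨_, rfl⟩
  refine ⟨L, (2:ℝ) ^ (q - 1) * (∑ j ∈ Finset.range K, C j) / K, by rw [hL]; linarith, ?_, ?_⟩
  · have : 0 ≤ ∑ j ∈ Finset.range K, C j := Finset.sum_nonneg fun j _ => hC0 j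
    positivity
  intro φ hφ
  obtain ⟨g, hg⟩ : ∃ g, g = ∫ x in Metric.ball 0 L, ‖gradient φ x‖ ^ 2 := ⟨_, rfl⟩
  obtain ⟨a, ha⟩ : ∃ a, a = ∫ x in Metric.ball 0 1, |φ x| ^ q := ⟨_, rfl⟩
  obtain ⟨b, hb⟩ : ∃ b, b = ∫ x in Metric.ball 0 L \ Metric.ball 0 1, |φ x| ^ q := ⟨_, rfl⟩
  rw [← hg, ← ha, ← hb]
  have hg0 : 0 ≤ g := by rw [hg]; exact integral_nonneg fun x => by positivity
  have hb0 : 0 ≤ b := by rw [hb]; exact integral_nonneg fun x => by positivity
  have hint := hφ.int_rpow hq0
  -- one translate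
  have h1 : ∀ j ∈ Finset.range K, a ≤ 2 ^ (q - 1) * (∫ x in Metric.ball (z j) 1, |φ x| ^ q) +
      2 ^ (q - 1) * (C j * g ^ (q / 2)) := by
    intro j hj
    have hjK : (j:ℝ) + 1 ≤ K := by
      have := Finset.mem_range.1 hj
      exact_mod_cast this
    have i1 : IntegrableOn (fun x => |φ (x + z j)| ^ q) (Metric.ball (0 : E n) 1) :=
      (hint.comp_add_right (z j)).integrableOn
    have i2 : IntegrableOn (fun x => |φ (x + z j) - φ x| ^ q) (Metric.ball (0 : E n) 1) :=
      (((hφ.trans (z j)).sub hφ).int_rpow hq0).integrableOn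
    have h2 : a ≤ 2 ^ (q - 1) * (∫ x in Metric.ball 0 1, |φ (x + z j)| ^ q) +
        2 ^ (q - 1) * (∫ x in Metric.ball 0 1, |φ (x + z j) - φ x| ^ q) := by
      rw [ha, ← integral_const_mul, ← integral_const_mul,
        ← integral_add (i1.const_mul _) (i2.const_mul _)]
      apply integral_mono hint.integrableOn ((i1.const_mul _).add (i2.const_mul _))
      intro x
      exact half_bound hq _ _
    have h3 : ∫ x in Metric.ball 0 1, |φ (x + z j)| ^ q = ∫ x in Metric.ball (z j) 1, |φ x| ^ q := by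
      rw [← integral_indicator Metric.isOpen_ball.measurableSet,
        ← integral_indicator Metric.isOpen_ball.measurableSet,
        ← integral_add_right_eq_self (μ := (volume : Measure (E n)))
          (fun x => (Metric.ball (z j) 1).indicator (fun x => |φ x| ^ q) x) (z j)]
      congr 1
      funext x
      by_cases hx : x ∈ Metric.ball (0 : E n) 1
      · have hx2 : x + z j ∈ Metric.ball (z j) 1 := by simpa [dist_eq_norm] using hx
        rw [Set.indicator_of_mem hx, Set.indicator_of_mem hx2]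
      · have hx2 : x + z j ∉ Metric.ball (z j) 1 := by simpa [dist_eq_norm] using hx
        rw [Set.indicator_of_notMem hx, Set.indicator_of_notMem hx2]
    have h4 : ∫ x in Metric.ball 0 1, |φ (x + z j) - φ x| ^ q ≤ C j * g ^ (q / 2) := by
      refine (hC j φ hφ).trans ?_
      apply mul_le_mul_of_nonneg_left _ (hC0 j)
      apply Real.rpow_le_rpow (integral_nonneg fun x => by positivity) _ (by positivity)
      rw [hg]
      have hsub : Metric.ball (0 : E n) (‖z j‖ + 3) ⊆ Metric.ball 0 L := by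
        apply Metric.ball_subset_ball
        rw [hz, hL]
        linarith
      exact setIntegral_mono_set hφ.int_grad.integrableOn
        (Eventually.of_forall fun x => by positivity) hsub.eventuallyLE
    rw [h3] at h2
    have h5 : (0:ℝ) ≤ 2 ^ (q - 1) := by positivity
    have := mul_le_mul_of_nonneg_left h4 h5
    linarith
  -- sum over the translates
  have h2 : K * a ≤ 2 ^ (q - 1) * b + 2 ^ (q - 1) * ((∑ j ∈ Finset.range K, C j) * g ^ (q / 2)) := by
    have h3 := Finset.sum_le_sum h1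
    rw [Finset.sum_const, Finset.card_range, nsmul_eq_mul, Finset.sum_add_distrib,
      ← Finset.mul_sum, ← Finset.mul_sum, ← Finset.sum_mul] at h3
    have h4 : ∑ j ∈ Finset.range K, ∫ x in Metric.ball (z j) 1, |φ x| ^ q ≤ b := by
      rw [← integral_biUnion_finset]
      · rw [hb]
        refine setIntegral_mono_set hint.integrableOn
          (Eventually.of_forall fun x => by positivity) (LE.le.eventuallyLE ?_)
        intro x hx
        obtain ⟨j, hj, hx2⟩ := Set.mem_iUnion₂.1 hx
        have hjK : (j:ℝ) + 1 ≤ K := by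
          have := Finset.mem_range.1 hj
          exact_mod_cast this
        have hj0 : (0:ℝ) ≤ j := by positivity
        simp only [Metric.mem_ball, dist_eq_norm] at hx2
        refine ⟨?_, ?_⟩
        · simp only [Metric.mem_ball, dist_zero_right]
          have h6 := norm_add_le (x - z j) (z j)
          rw [sub_add_cancel, hz] at h6
          rw [hL]; linarith
        · simp only [Metric.mem_ball, dist_zero_right, not_lt]
          have h6 := norm_sub_norm_le (z j) (z j - x)
          rw [sub_sub_cancel, hz, norm_sub_rev] at h6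
          linarith
      · intro j _
        exact Metric.isOpen_ball.measurableSet
      · intro i _ j _ hij
        apply Metric.ball_disjoint_ball
        have := hzz i j hij
        linarith
      · intro j _
        exact hint.integrableOn
    have h5 : (0:ℝ) ≤ 2 ^ (q - 1) := by positivity
    have := mul_le_mul_of_nonneg_left h4 h5
    linarith
  have h3 : (2:ℝ) ^ (q - 1) * b ≤ K * (1 / 2 * b) := by
    have h4 : (2:ℝ) ^ (q - 1) = 2 ^ q / 2 := by
      rw [Real.rpow_sub (by norm_num), Real.rpow_one]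
    rw [h4]
    nlinarith
  have h4 : K * a ≤ K * (1 / 2 * b + 2 ^ (q - 1) * (∑ j ∈ Finset.range K, C j) / K * g ^ (q / 2)) := by
    have h5 : K * (2 ^ (q - 1) * (∑ j ∈ Finset.range K, C j) / K * g ^ (q / 2)) =
        2 ^ (q - 1) * ((∑ j ∈ Finset.range K, C j) * g ^ (q / 2)) := by
      field_simp
    rw [mul_add, h5]
    linarith
  exact le_of_mul_le_mul_left h4 hKpos

/-- The local inequality in `H¹`. -/
lemma LI (hn : 2 ≤ n) {q : ℝ} (hq : 2 ≤ q) (hq' : ((n:ℝ) - 2) * q < 2 * n) :
    ∃ L C : ℝ, 1 < L ∧ 0 ≤ C ∧ ∀ (u : E n → ℝ) (G : E n → E n), IsH1 u G → ∀ y : E n,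
      ∫ x in Metric.ball y 1, |u x| ^ q ≤
        1 / 2 * (∫ x in Metric.ball y L \ Metric.ball y 1, |u x| ^ q) +
          C * (∫ x in Metric.ball y L, ‖G x‖ ^ 2) ^ (q / 2) := by
  have hq0 : 0 < q := by linarith
  obtain ⟨L, C, hL, hC0, hC⟩ := LI_test hn (show 1 ≤ q by linarith) hq'
  obtain ⟨Ce, hCe0, hCe⟩ := emb hn hq hq'
  refine ⟨L, C, hL, hC0, ?_⟩
  -- the case `y = 0`
  have key : ∀ (u : E n → ℝ) (G : E n → E n), IsH1 u G →
      ∫ x in Metric.ball 0 1, |u x| ^ q ≤
        1 / 2 * (∫ x in Metric.ball 0 L \ Metric.ball 0 1, |u x| ^ q) +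
          C * (∫ x in Metric.ball 0 L, ‖G x‖ ^ 2) ^ (q / 2) := by
    intro u G h
    obtain ⟨φ, hφ, h1, h2⟩ := h.app
    have hL1 : LTo volume φ u := h1
    have hL2 : LTo volume (fun k => gradient (φ k)) G := h2
    have hd : ∀ k, IsH1 (fun x => φ k x - u x) (fun x => gradient (φ k) x - G x) := fun k =>
      (hφ k).isH1.sub h
    have c3 := hL1.sub_sq (fun k => (hφ _).memLp 2) h.mu
    have c4 := hL2.sub_sq (fun k => (hφ _).memLp_grad 2) h.mG
    simp only [Real.norm_eq_abs, sq_abs] at c3
    have c5 : Tendsto (fun k => ∫ x, |φ k x - u x| ^ q) atTop (𝓝 0) := by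
      have lim : Tendsto (fun k => Ce * ((∫ x, ‖gradient (φ k) x - G x‖ ^ 2) +
          ∫ x, (φ k x - u x) ^ 2) ^ (q / 2)) atTop (𝓝 0) := by
        have := ((c4.add c3).rpow_const (p := q / 2) (Or.inr (by positivity))).const_mul Ce
        simpa [Real.zero_rpow (show q / 2 ≠ 0 by positivity)] using this
      exact tendsto_of_tendsto_of_tendsto_of_le_of_le tendsto_const_nhds lim
        (fun k => integral_nonneg fun x => by positivity) (fun k => (hCe _ _ (hd k)).2)
    have hset : ∀ S : Set (E n), MeasurableSet S →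
        Tendsto (fun k => ∫ x in S, |φ k x| ^ q) atTop (𝓝 (∫ x in S, |u x| ^ q)) := by
      intro S hS
      have := tendsto_int_rpow (μ := (volume : Measure (E n))) (q := q) (by linarith)
        (f := φ) (f0 := u) (g := S.indicator fun _ => (1:ℝ)) (B := 1)
        (fun x => by
          by_cases hx : x ∈ S
          · rw [Set.indicator_of_mem hx]; simp
          · rw [Set.indicator_of_notMem hx]; simp)
        ((measurable_const.indicator hS).aestronglyMeasurable)
        (fun k => (hφ k).int_rpow hq0) (hCe _ _ h).1 (fun k => (hCe _ _ (hd k)).1) c5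
      have e : ∀ f : E n → ℝ, ∫ x, S.indicator (fun _ => (1:ℝ)) x * |f x| ^ q =
          ∫ x in S, |f x| ^ q := by
        intro f
        rw [← integral_indicator hS]
        congr 1; funext x
        by_cases hx : x ∈ S
        · rw [Set.indicator_of_mem hx, Set.indicator_of_mem hx, one_mul]
        · rw [Set.indicator_of_notMem hx, Set.indicator_of_notMem hx, zero_mul]
      simp only [e] at this
      exact this
    have hgr : Tendsto (fun k => ∫ x in Metric.ball 0 L, ‖gradient (φ k) x‖ ^ 2) atTop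
        (𝓝 (∫ x in Metric.ball 0 L, ‖G x‖ ^ 2)) := by
      have hL3 : LTo (volume.restrict (Metric.ball (0 : E n) L)) (fun k => gradient (φ k)) G := by
        unfold LTo
        refine tendsto_of_tendsto_of_tendsto_of_le_of_le tendsto_const_nhds h2 (fun k => zero_le) ?_
        intro k
        exact eLpNorm_mono_measure _ Measure.restrict_le_self
      exact hL3.sq (fun k => ((hφ k).memLp_grad 2).restrict _) (h.mG.restrict _)
    have hl := hset (Metric.ball 0 1) Metric.isOpen_ball.measurableSet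
    have hr1 := (hset (Metric.ball 0 L \ Metric.ball 0 1)
      (Metric.isOpen_ball.measurableSet.diff Metric.isOpen_ball.measurableSet)).const_mul (1 / 2)
    have hr2 := (hgr.rpow_const (p := q / 2) (Or.inr (by positivity))).const_mul C
    exact le_of_tendsto_of_tendsto' hl (hr1.add hr2) fun k => hC (φ k) (hφ k)
  intro u G h y
  have h1 := key _ _ (h.trans y)
  have hsh : ∀ (f : E n → ℝ) (S T : Set (E n)), MeasurableSet S → MeasurableSet T →
      (∀ x, x ∈ S ↔ x + y ∈ T) → ∫ x in S, f (x + y) = ∫ x in T, f x := by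
    intro f S T hS hT hST
    rw [← integral_indicator hS, ← integral_indicator hT,
      ← integral_add_right_eq_self (μ := (volume : Measure (E n)))
        (fun x => T.indicator f x) y]
    congr 1
    funext x
    by_cases hx : x ∈ S
    · rw [Set.indicator_of_mem hx, Set.indicator_of_mem ((hST x).1 hx)]
    · rw [Set.indicator_of_notMem hx, Set.indicator_of_notMem (fun h => hx ((hST x).2 h))]
  rw [hsh (fun x => |u x| ^ q) (Metric.ball 0 1) (Metric.ball y 1)
      Metric.isOpen_ball.measurableSet Metric.isOpen_ball.measurableSet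
      (fun x => by simp [dist_eq_norm]),
    hsh (fun x => |u x| ^ q) (Metric.ball 0 L \ Metric.ball 0 1) (Metric.ball y L \ Metric.ball y 1)
      (Metric.isOpen_ball.measurableSet.diff Metric.isOpen_ball.measurableSet)
      (Metric.isOpen_ball.measurableSet.diff Metric.isOpen_ball.measurableSet)
      (fun x => by simp [dist_eq_norm]),
    hsh (fun x => ‖G x‖ ^ 2) (Metric.ball 0 L) (Metric.ball y L)
      Metric.isOpen_ball.measurableSet Metric.isOpen_ball.measurableSet
      (fun x => by simp [dist_eq_norm])] at h1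
  exact h1

/-- The gradient of the cutoff vanishes in the inner ball. -/
lemma chi_grad_zero {R : ℕ} {x : E n} (h : ‖x‖ < R + 1) : gradient (chi n R : E n → ℝ) x = 0 := by
  have hev : (chi n R : E n → ℝ) =ᶠ[𝓝 x] fun _ => 1 := by
    have : Metric.ball (0 : E n) (R + 1) ∈ 𝓝 x := Metric.isOpen_ball.mem_nhds (by simpa using h)
    filter_upwards [this] with z hz
    apply chi_one
    have : ‖z‖ < R + 1 := by simpa using hz
    exact this.le
  unfold gradient
  rw [hev.fderiv_eq]
  simp

/-- The local inequality for functions that are locally in `H¹`. -/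
lemma LI_loc (hn : 2 ≤ n) {q : ℝ} (hq : 2 ≤ q) (hq' : ((n:ℝ) - 2) * q < 2 * n) {L C : ℝ}
    (hL : 1 < L)
    (hLI : ∀ (u : E n → ℝ) (G : E n → E n), IsH1 u G → ∀ y : E n,
      ∫ x in Metric.ball y 1, |u x| ^ q ≤
        1 / 2 * (∫ x in Metric.ball y L \ Metric.ball y 1, |u x| ^ q) +
          C * (∫ x in Metric.ball y L, ‖G x‖ ^ 2) ^ (q / 2))
    {w : E n → ℝ} {H : E n → E n}
    (h : ∀ χ : E n → ℝ, Tst χ → IsH1 (fun x => χ x * w x) (fun x => χ x • H x + w x • gradient χ x)) :
    ∫ x in Metric.ball 0 1, |w x| ^ q ≤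
        1 / 2 * (∫ x in Metric.ball 0 L \ Metric.ball 0 1, |w x| ^ q) +
          C * (∫ x in Metric.ball 0 L, ‖H x‖ ^ 2) ^ (q / 2) := by
  obtain ⟨R, hR⟩ := exists_nat_ge L
  have h1 := hLI _ _ (h _ (chi_tst R)) 0
  have e1 : ∀ S : Set (E n), S ⊆ Metric.ball 0 L → MeasurableSet S →
      ∫ x in S, |chi n R x * w x| ^ q = ∫ x in S, |w x| ^ q := by
    intro S hS hSm
    apply setIntegral_congr_fun hSm
    intro x hx
    have hx' : ‖x‖ < L := by simpa using hS hx
    dsimp only
    rw [chi_one (by linarith), one_mul]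
  have e2 : ∫ x in Metric.ball 0 L, ‖chi n R x • H x + w x • gradient (chi n R : E n → ℝ) x‖ ^ 2 =
      ∫ x in Metric.ball 0 L, ‖H x‖ ^ 2 := by
    apply setIntegral_congr_fun Metric.isOpen_ball.measurableSet
    intro x hx
    have hx' : ‖x‖ < L := by simpa using hx
    dsimp only
    rw [chi_one (by linarith), one_smul, chi_grad_zero (by linarith), smul_zero, add_zero]
  rw [e1 _ (Metric.ball_subset_ball hL.le) Metric.isOpen_ball.measurableSet,
    e1 _ Set.diff_subset (Metric.isOpen_ball.measurableSet.diff Metric.isOpen_ball.measurableSet),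
    e2] at h1
  exact h1

end Pool.Agent.R217.PC
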