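import Pool.Agent.R217.PC.Comp

set_option autoImplicit false
set_option linter.unusedSectionVars false

open MeasureTheory Filter Topology
open scoped ContDiff ENNReal NNReal RealInnerProductSpace

namespace Pool.Agent.R217.PC

open Pool.Agent.R217.BN (E cexp sobS)
open Pool.Agent.R217.HS

variable {n : ℕ}

/-- The point of the lattice with the given integer coordinates. -/
noncomputable def lat (z : Fin n → ℤ) : E n := WithLp.toLp 2 (fun i => (z i : ℝ))

lemma lat_sub (z z' : Fin n → ℤ) : lat z - lat z' = lat (z - z') := by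
  ext i; simp [lat]

lemma lat_add (z z' : Fin n → ℤ) : lat z + lat z' = lat (z + z') := by
  ext i; simp [lat]

lemma lat_zero : lat (0 : Fin n → ℤ) = 0 := by
  ext i; simp [lat]

lemma lat_norm {z : Fin n → ℤ} (h : z ≠ 0) : 1 ≤ ‖lat z‖ := by
  obtain ⟨i, hi⟩ := Function.ne_iff.1 h
  have h1 : ‖(lat z) i‖ ≤ ‖lat z‖ := PiLp.norm_apply_le _ i
  have h2 : (1:ℝ) ≤ ‖(lat z) i‖ := by
    have h3 : (1:ℤ) ≤ |z i| := Int.one_le_abs (by simpa using hi)
    have h4 : ‖(lat z) i‖ = |((z i : ℤ) : ℝ)| := by simp [lat]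
    rw [h4]
    exact_mod_cast h3
  linarith

/-- The union of the balls of radius `r` around the points of the scaled lattice. -/
def UU (n : ℕ) (ε r : ℝ) : Set (E n) := ⋃ z : Fin n → ℤ, Metric.ball (ε⁻¹ • lat z) r

lemma UU_meas (ε r : ℝ) : MeasurableSet (UU n ε r) :=
  MeasurableSet.iUnion fun _ => Metric.isOpen_ball.measurableSet

open Classical in
/-- The scaled weight. -/
noncomputable def Qt (n : ℕ) (ε : ℝ) (x : E n) : ℝ := if x ∈ UU n ε 1 then 1 else -1

lemma Qt_abs (ε : ℝ) (x : E n) : |Qt n ε x| ≤ 1 := by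
  unfold Qt; split_ifs <;> simp

lemma Qt_meas (ε : ℝ) : Measurable (Qt n ε) := by
  unfold Qt
  exact Measurable.ite (UU_meas ε 1) measurable_const measurable_const

lemma Qt_int {ε : ℝ} {f : E n → ℝ} (hf : Integrable f) :
    Integrable (fun x => Qt n ε x * f x) :=
  hf.bdd_mul (Qt_meas ε).aestronglyMeasurable (c := 1) (Eventually.of_forall fun x => Qt_abs ε x)

lemma Qt_integral {ε : ℝ} {f : E n → ℝ} (hf : Integrable f) :
    ∫ x, Qt n ε x * f x = (∫ x in UU n ε 1, f x) - ∫ x in (UU n ε 1)ᶜ, f x := by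
  rw [← integral_add_compl (UU_meas ε 1) (Qt_int hf)]
  have e1 : ∫ x in UU n ε 1, Qt n ε x * f x = ∫ x in UU n ε 1, f x := by
    apply setIntegral_congr_fun (UU_meas ε 1)
    intro x hx
    simp only [Qt, if_pos hx, one_mul]
  have e2 : ∫ x in (UU n ε 1)ᶜ, Qt n ε x * f x = -∫ x in (UU n ε 1)ᶜ, f x := by
    rw [← integral_neg]
    apply setIntegral_congr_fun (UU_meas ε 1).compl
    intro x hx
    have hx' : x ∉ UU n ε 1 := hx
    simp only [Qt, if_neg hx', neg_mul, one_mul]
  rw [e1, e2]; ring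

lemma sc_dist {ε : ℝ} (hε : 0 < ε) {L : ℝ} (hL : 2 * L * ε ≤ 1) {z z' : Fin n → ℤ} (h : z ≠ z') :
    2 * L ≤ dist (ε⁻¹ • lat z) (ε⁻¹ • lat z') := by
  rw [dist_smul₀, dist_eq_norm, lat_sub, norm_inv, Real.norm_eq_abs, abs_of_pos hε,
    inv_mul_eq_div, le_div_iff₀ hε]
  exact hL.trans (lat_norm (sub_ne_zero.2 h))

section Sum

variable {ι : Type} [Countable ι]

/-- The inequality on a family of disjoint balls. -/
lemma sum_LI {q : ℝ} (hq : 2 < q) {L C : ℝ} (hL : 1 < L) (hC : 0 ≤ C)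
    {y : ι → E n} (hy : ∀ i j, i ≠ j → 2 * L ≤ dist (y i) (y j))
    {f g : E n → ℝ} (hf : Integrable f) (hg : Integrable g)
    (hg0 : ∀ x, 0 ≤ g x)
    (hLI : ∀ i, ∫ x in Metric.ball (y i) 1, f x ≤
        1 / 2 * (∫ x in Metric.ball (y i) L \ Metric.ball (y i) 1, f x) +
          C * (∫ x in Metric.ball (y i) L, g x) ^ (q / 2)) :
    ∫ x in ⋃ i, Metric.ball (y i) 1, f x ≤
      1 / 2 * (∫ x in ⋃ i, (Metric.ball (y i) L \ Metric.ball (y i) 1), f x) +
        C * (∫ x in ⋃ i, Metric.ball (y i) L, g x) ^ (q / 2) := by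
  have dL : Pairwise fun i j => Disjoint (Metric.ball (y i) L) (Metric.ball (y j) L) := by
    intro i j hij
    exact Metric.ball_disjoint_ball (by have := hy i j hij; linarith)
  have d1 : Pairwise fun i j => Disjoint (Metric.ball (y i) 1) (Metric.ball (y j) 1) :=
    fun i j hij => (dL hij).mono (Metric.ball_subset_ball hL.le) (Metric.ball_subset_ball hL.le)
  have d2 : Pairwise fun i j => Disjoint (Metric.ball (y i) L \ Metric.ball (y i) 1)
      (Metric.ball (y j) L \ Metric.ball (y j) 1) :=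
    fun i j hij => (dL hij).mono Set.diff_subset Set.diff_subset
  have s1 := hasSum_integral_iUnion (μ := (volume : Measure (E n))) (f := f)
    (fun i => Metric.isOpen_ball.measurableSet) d1 hf.integrableOn
  have s2 := hasSum_integral_iUnion (μ := (volume : Measure (E n))) (f := f)
    (fun i => Metric.isOpen_ball.measurableSet.diff Metric.isOpen_ball.measurableSet)
    d2 hf.integrableOn
  have s3 := hasSum_integral_iUnion (μ := (volume : Measure (E n))) (f := g)
    (fun i => Metric.isOpen_ball.measurableSet) dL hg.integrableOn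
  obtain ⟨Γ, hΓ⟩ : ∃ Γ, Γ = ∫ x in ⋃ i, Metric.ball (y i) L, g x := ⟨_, rfl⟩
  rw [← hΓ] at s3 ⊢
  have g0 : ∀ i, 0 ≤ ∫ x in Metric.ball (y i) L, g x := fun i => integral_nonneg fun x => hg0 x
  have gle : ∀ i, ∫ x in Metric.ball (y i) L, g x ≤ Γ := fun i => by
    have := le_hasSum s3 i (fun j _ => g0 j)
    exact this
  have hΓ0 : 0 ≤ Γ := by rw [hΓ]; exact integral_nonneg fun x => hg0 x
  have hq2 : 0 < q / 2 - 1 := by linarith
  have key : ∀ i, (∫ x in Metric.ball (y i) L, g x) ^ (q / 2) ≤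
      Γ ^ (q / 2 - 1) * ∫ x in Metric.ball (y i) L, g x := by
    intro i
    have e : (∫ x in Metric.ball (y i) L, g x) ^ (q / 2) =
        (∫ x in Metric.ball (y i) L, g x) ^ (q / 2 - 1) * ∫ x in Metric.ball (y i) L, g x := by
      rcases eq_or_lt_of_le (g0 i) with h | h
      · rw [← h, Real.zero_rpow (by linarith : q / 2 ≠ 0), mul_zero]
      · nth_rewrite 3 [← Real.rpow_one (∫ x in Metric.ball (y i) L, g x)]
        rw [← Real.rpow_add h]; congr 1; ring
    rw [e]
    exact mul_le_mul_of_nonneg_right (Real.rpow_le_rpow (g0 i) (gle i) hq2.le) (g0 i)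
  have s4 := (s2.mul_left (1 / 2)).add (s3.mul_left (C * Γ ^ (q / 2 - 1)))
  have h := hasSum_le (fun i => ?_) s1 s4
  · refine h.trans (le_of_eq ?_)
    have e : Γ ^ (q / 2) = Γ ^ (q / 2 - 1) * Γ := by
      rcases eq_or_lt_of_le hΓ0 with h | h
      · rw [← h, Real.zero_rpow (by linarith : q / 2 ≠ 0), mul_zero]
      · nth_rewrite 3 [← Real.rpow_one Γ]
        rw [← Real.rpow_add h]; congr 1; ring
    rw [e]; ring
  · refine (hLI i).trans ?_
    have := mul_le_mul_of_nonneg_left (key i) hC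
    linarith

/-- Concentration in one ball. -/
lemma conc_LI {q : ℝ} (hq : 2 < q) {L C : ℝ} (hL : 1 < L) (hC : 0 ≤ C)
    {y : ι → E n} (hy : ∀ i j, i ≠ j → 2 * L ≤ dist (y i) (y j))
    {f g : E n → ℝ} (hf : Integrable f) (hg : Integrable g) (hf0 : ∀ x, 0 ≤ f x)
    (hg0 : ∀ x, 0 ≤ g x)
    (hLI : ∀ i, ∫ x in Metric.ball (y i) 1, f x ≤
        1 / 2 * (∫ x in Metric.ball (y i) L \ Metric.ball (y i) 1, f x) +
          C * (∫ x in Metric.ball (y i) L, g x) ^ (q / 2))
    (hlt : (∫ x in ⋃ i, (Metric.ball (y i) L \ Metric.ball (y i) 1), f x) +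
      (∫ x in ⋃ i, Metric.ball (y i) L, g x) < ∫ x in ⋃ i, Metric.ball (y i) 1, f x) :
    ∃ i, (1 / (2 * (C + 1))) ^ (2 / (q - 2)) ≤ ∫ x in Metric.ball (y i) 1, f x := by
  have dL : Pairwise fun i j => Disjoint (Metric.ball (y i) L) (Metric.ball (y j) L) := by
    intro i j hij
    exact Metric.ball_disjoint_ball (by have := hy i j hij; linarith)
  have d1 : Pairwise fun i j => Disjoint (Metric.ball (y i) 1) (Metric.ball (y j) 1) :=
    fun i j hij => (dL hij).mono (Metric.ball_subset_ball hL.le) (Metric.ball_subset_ball hL.le)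
  have d2 : Pairwise fun i j => Disjoint (Metric.ball (y i) L \ Metric.ball (y i) 1)
      (Metric.ball (y j) L \ Metric.ball (y j) 1) :=
    fun i j hij => (dL hij).mono Set.diff_subset Set.diff_subset
  have s1 := hasSum_integral_iUnion (μ := (volume : Measure (E n))) (f := f)
    (fun i => Metric.isOpen_ball.measurableSet) d1 hf.integrableOn
  have s2 := hasSum_integral_iUnion (μ := (volume : Measure (E n))) (f := f)
    (fun i => Metric.isOpen_ball.measurableSet.diff Metric.isOpen_ball.measurableSet)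
    d2 hf.integrableOn
  have s3 := hasSum_integral_iUnion (μ := (volume : Measure (E n))) (f := g)
    (fun i => Metric.isOpen_ball.measurableSet) dL hg.integrableOn
  by_contra hcon
  push Not at hcon
  refine absurd hlt (not_lt.2 (hasSum_le (fun i => ?_) s1 (s2.add s3)))
  by_contra hi
  push Not at hi
  obtain ⟨a, ha⟩ : ∃ a, a = ∫ x in Metric.ball (y i) 1, f x := ⟨_, rfl⟩
  obtain ⟨b, hb⟩ : ∃ b, b = ∫ x in Metric.ball (y i) L \ Metric.ball (y i) 1, f x := ⟨_, rfl⟩
  obtain ⟨c, hc⟩ : ∃ c, c = ∫ x in Metric.ball (y i) L, g x := ⟨_, rfl⟩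
  have hb0 : 0 ≤ b := by rw [hb]; exact integral_nonneg fun x => hf0 x
  have hc0 : 0 ≤ c := by rw [hc]; exact integral_nonneg fun x => hg0 x
  have hli := hLI i
  have hco := hcon i
  rw [← ha] at hli hco hi
  rw [← hb, ← hc] at hli hi
  have ha0 : 0 < a := by linarith
  have h1 : c ^ (q / 2) ≤ a ^ (q / 2) := Real.rpow_le_rpow hc0 (by linarith) (by linarith)
  have h2 : a ^ (q / 2) = a ^ ((q - 2) / 2) * a := by
    nth_rewrite 3 [← Real.rpow_one a]
    rw [← Real.rpow_add ha0]; congr 1; ring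
  have h3 : C * c ^ (q / 2) ≤ (C + 1) * a ^ ((q - 2) / 2) * a := by
    have h31 : C * c ^ (q / 2) ≤ C * a ^ (q / 2) := mul_le_mul_of_nonneg_left h1 hC
    have h32 : 0 ≤ a ^ (q / 2) := by positivity
    rw [mul_assoc, ← h2]; nlinarith
  have h4 : 1 / 2 ≤ (C + 1) * a ^ ((q - 2) / 2) := by
    by_contra h
    push Not at h
    have : (C + 1) * a ^ ((q - 2) / 2) * a < 1 / 2 * a := by gcongr
    linarith
  have h5 : 1 / (2 * (C + 1)) ≤ a ^ ((q - 2) / 2) := by
    rw [div_le_iff₀ (by positivity)]; linarith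
  have h6 := Real.rpow_le_rpow (by positivity) h5 (show 0 ≤ 2 / (q - 2) by
    apply div_nonneg <;> linarith)
  rw [← Real.rpow_mul ha0.le, show (q - 2) / 2 * (2 / (q - 2)) = 1 by
    have : q - 2 ≠ 0 := by linarith
    field_simp, Real.rpow_one] at h6
  linarith

end Sum

end Pool.Agent.R217.PC
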