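import Pool.Agent.R217.PC.Sc

set_option autoImplicit false
set_option linter.unusedSectionVars false

open MeasureTheory Filter Topology
open scoped ContDiff ENNReal NNReal RealInnerProductSpace

namespace Pool.Agent.R217.PC

open Pool.Agent.R217.BN (E cexp sobS)
open Pool.Agent.R217.HS

variable {n : ℕ}

open Classical in
/-- The limiting weight. -/
noncomputable def Qo (n : ℕ) (x : E n) : ℝ := if ‖x‖ < 1 then 1 else -1

lemma Qo_abs (x : E n) : |Qo n x| ≤ 1 := by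
  unfold Qo; split_ifs <;> simp

lemma Qo_meas : Measurable (Qo n) := by
  unfold Qo
  exact Measurable.ite (measurableSet_lt measurable_norm measurable_const) measurable_const
    measurable_const

lemma Qo_int {f : E n → ℝ} (hf : Integrable f) : Integrable (fun x => Qo n x * f x) :=
  hf.bdd_mul Qo_meas.aestronglyMeasurable (c := 1) (Eventually.of_forall fun x => Qo_abs x)

lemma lat_far {ε : ℝ} (hε : 0 < ε) {z : Fin n → ℤ} (hz : z ≠ 0) {r ρ : ℝ}
    (h : (ρ + r) * ε ≤ 1) {x : E n} (hx : x ∈ Metric.ball (ε⁻¹ • lat z) r) : ρ < ‖x‖ := by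
  have h1 : ε⁻¹ ≤ ‖ε⁻¹ • (lat z : E n)‖ := by
    rw [norm_smul, norm_inv, Real.norm_eq_abs, abs_of_pos hε]
    exact le_mul_of_one_le_right (inv_nonneg.2 hε.le) (lat_norm hz)
  have h2 : ‖ε⁻¹ • (lat z : E n)‖ ≤ ‖x‖ + dist x (ε⁻¹ • lat z) := by
    rw [dist_eq_norm, norm_sub_rev]
    exact norm_le_norm_add_norm_sub' _ _
  have h3 : ρ + r ≤ ε⁻¹ := by rwa [← one_div, le_div_iff₀ hε]
  rw [Metric.mem_ball] at hx
  linarith

lemma Qt_eq {ε : ℝ} (hε : 0 < ε) {ρ : ℝ} (h : (ρ + 1) * ε ≤ 1) {x : E n} (hx : ‖x‖ ≤ ρ) :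
    Qt n ε x = Qo n x := by
  unfold Qt Qo
  by_cases h1 : ‖x‖ < 1
  · rw [if_pos h1, if_pos (zero_sub ε (mem_ball_zero_iff.2 h1))]
  · rw [if_neg h1, if_neg]
    intro h2
    obtain ⟨z, hz⟩ := Set.mem_iUnion.1 h2
    by_cases hz0 : z = 0
    · rw [hz0, lat_zero, smul_zero] at hz
      exact h1 (mem_ball_zero_iff.1 hz)
    · have := lat_far hε hz0 h hz
      linarith

/-- Weak times strong convergence. -/
lemma weak_strong {G : ℕ → E n → E n} {H : E n → E n} {Y : ℕ → E n → E n} {Y0 : E n → E n}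
    (hG : ∀ k, MemLp (G k) 2 volume) (hH : MemLp H 2 volume) {M : ℝ}
    (hM : ∀ k, ∫ x, ‖G k x‖ ^ 2 ≤ M)
    (hw : ∀ W : E n → E n, MemLp W 2 volume →
      Tendsto (fun k => ∫ x, ⟪G k x, W x⟫) atTop (𝓝 (∫ x, ⟪H x, W x⟫)))
    (hY : LTo volume Y Y0) (hYm : ∀ k, MemLp (Y k) 2 volume) (hY0 : MemLp Y0 2 volume) :
    Tendsto (fun k => ∫ x, ⟪G k x, Y k x⟫) atTop (𝓝 (∫ x, ⟪H x, Y0 x⟫)) := by
  have h1 := hY.toLp hYm hY0
  have h2 : Tendsto (fun k => ‖(hYm k).toLp (Y k) - hY0.toLp Y0‖) atTop (𝓝 0) := by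
    have := (h1.sub_const (hY0.toLp Y0)).norm
    simpa using this
  have h3 : Tendsto (fun k => ⟪(hG k).toLp (G k), (hYm k).toLp (Y k) - hY0.toLp Y0⟫) atTop
      (𝓝 0) := by
    have h4 : Tendsto (fun k => Real.sqrt M * ‖(hYm k).toLp (Y k) - hY0.toLp Y0‖) atTop
        (𝓝 0) := by simpa using h2.const_mul (Real.sqrt M)
    refine squeeze_zero_norm (fun k => ?_) h4
    refine (norm_inner_le_norm _ _).trans ?_
    gcongr
    apply Real.le_sqrt_of_sq_le
    rw [norm_sq_toLp]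
    exact hM k
  have h5 := (hw Y0 hY0).add h3
  rw [add_zero] at h5
  refine h5.congr fun k => ?_
  rw [inner_sub_right, inner_toLp, inner_toLp]
  ring

lemma loc_q (hn : 2 ≤ n) {q : ℝ} (hq : 2 < q) (hq' : ((n:ℝ) - 2) * q < 2 * n)
    {v : ℕ → E n → ℝ} {G : ℕ → E n → E n} (h : ∀ k, IsH1 (v k) (G k)) {w : E n → ℝ}
    {H : E n → E n} (hc : CData n q v G w H) {ρ : ℝ} (hρ : 0 < ρ) {g : E n → ℝ} {B : ℝ}
    (hg : ∀ x, |g x| ≤ B) (hgm : AEStronglyMeasurable g volume) (hgs : ∀ x, g x ≠ 0 → ‖x‖ ≤ ρ) :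
    Tendsto (fun k => ∫ x, g x * |v k x| ^ q) atTop (𝓝 (∫ x, g x * |w x| ^ q)) := by
  obtain ⟨Ce, -, hCe⟩ := emb hn hq.le hq'
  have hT := ct_tst (n := n) hρ
  have h1 := tendsto_int_rpow (μ := (volume : Measure (E n))) (show 1 ≤ q by linarith)
    (f := fun k x => ct n ρ x * v k x) (f0 := fun x => ct n ρ x * w x) hg hgm
    (fun k => (hCe _ _ ((h k).mulT hT)).1) (hCe _ _ (hc.h1 _ hT)).1
    (fun k => (hCe _ _ (((h k).mulT hT).sub (hc.h1 _ hT))).1) (hc.lq _ hT)
  have e : ∀ (u : E n → ℝ) x, g x * |ct n ρ x * u x| ^ q = g x * |u x| ^ q := by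
    intro u x
    by_cases hx : g x = 0
    · rw [hx, zero_mul, zero_mul]
    · rw [ct_one hρ (hgs x hx), one_mul]
  simp only [e] at h1
  exact h1

/-- The limit inequality with a cutoff. -/
lemma lim_ineq (hn : 2 ≤ n) {q : ℝ} (hq : 2 < q) (hq' : ((n:ℝ) - 2) * q < 2 * n)
    {ε : ℕ → ℝ} (hε0 : ∀ k, 0 < ε k) (hε : Tendsto ε atTop (𝓝 0))
    {v : ℕ → E n → ℝ} {G : ℕ → E n → E n} (h : ∀ k, Sc n q (ε k) (v k) (G k)) {M : ℝ}
    (hM : ∀ k, ∫ x, ‖G k x‖ ^ 2 ≤ M) {w : E n → ℝ}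
    {H : E n → E n} (hc : CData n q v G w H) {R : ℝ} (hR : 0 < R) :
    (∫ x, ct n R x * ‖H x‖ ^ 2) + (∫ x, ⟪H x, w x • gradient (ct n R) x⟫) ≤
      ∫ x, ct n R x * (Qo n x * |w x| ^ q) := by
  obtain ⟨Ce, -, hCe⟩ := emb hn hq.le hq'
  have hT := ct_tst (n := n) hR
  have hH := hc.hH
  have hcH : MemLp (fun x => ct n R x • H x) 2 volume := cut_mem hH hR
  have hvm : ∀ k, MemLp (fun x => v k x • gradient (ct n R) x) 2 volume := fun k =>
    young_mem hq (h k).h1.mu.1 (hCe _ _ (h k).h1).1 hT.cg (BN.gradient_compact hT.2)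
  have hwm : MemLp (fun x => w x • gradient (ct n R) x) 2 volume := cut_mem' hq hc.hm hc.hq hR
  have t1 := hc.wG _ hcH
  have t2 := weak_strong (fun k => (h k).h1.mG) hH hM hc.wG (hc.l2' _ hT) hvm hwm
  have t3 := loc_q hn hq hq' (fun k => (h k).h1) hc (show 0 < 2 * R by positivity)
    (g := fun x => ct n R x * Qo n x) (B := 1)
    (fun x => by
      rw [abs_mul]
      have := Qo_abs x
      have h2 := ct_abs (n := n) R x
      exact mul_le_one₀ h2 (abs_nonneg _) this)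
    ((ct_cont hR).aestronglyMeasurable.mul Qo_meas.aestronglyMeasurable)
    (fun x hx => ct_supp hR (left_ne_zero_of_mul hx))
  simp only [mul_assoc] at t3
  have e1 : ∫ x, ⟪H x, ct n R x • H x⟫ = ∫ x, ct n R x * ‖H x‖ ^ 2 := by
    congr 1; funext x
    rw [real_inner_smul_right, real_inner_self_eq_norm_sq]
  rw [e1] at t1
  have t4 := ((t1.const_mul 2).sub_const (∫ x, ct n R x * ‖H x‖ ^ 2)).add t2
  have hev : ∀ᶠ k in atTop, (2 * R + 1) * ε k ≤ 1 := by
    have := hε.const_mul (2 * R + 1)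
    rw [mul_zero] at this
    exact (this.eventually (gt_mem_nhds one_pos)).mono fun k hk => hk.le
  have hle := le_of_tendsto_of_tendsto t4 t3 (by
    filter_upwards [hev] with k hk
    have he := (h k).eqn _ _ ((h k).h1.mulT hT)
    have e2 : ∀ x, Qt n (ε k) x * (|v k x| ^ (q - 2) * v k x * (ct n R x * v k x)) =
        ct n R x * (Qo n x * |v k x| ^ q) := by
      intro x
      by_cases hx : ct n R x = 0
      · rw [hx]; ring
      · rw [Qt_eq (hε0 k) hk (ct_supp hR hx), ← pow_id hq (v k x)]; ring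
    simp only [e2] at he
    have i1 := integrable_inner' (h k).h1.mG (cut_mem (h k).h1.mG hR)
    have i2 := integrable_inner' (h k).h1.mG (hvm k)
    have e3 : ∫ x, ⟪G k x, ct n R x • G k x + v k x • gradient (ct n R) x⟫ =
        (∫ x, ⟪G k x, ct n R x • G k x⟫) + ∫ x, ⟪G k x, v k x • gradient (ct n R) x⟫ := by
      rw [← integral_add i1 i2]
      congr 1; funext x
      rw [inner_add_right]
    rw [e3] at he
    have e4 : 0 ≤ ε k ^ 2 * ∫ x, v k x * (ct n R x * v k x) := by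
      apply mul_nonneg (by positivity)
      apply integral_nonneg
      intro x
      have := mul_nonneg (ct_nonneg (n := n) R x) (sq_nonneg (v k x))
      change 0 ≤ v k x * (ct n R x * v k x)
      linarith
    have i3 := integrable_inner' (h k).h1.mG hcH
    have i4 : Integrable (fun x => ct n R x * ‖H x‖ ^ 2) :=
      (integrable_sq hH).bdd_mul (c := 1) (ct_cont hR).aestronglyMeasurable
        (Eventually.of_forall fun x => ct_abs R x)
    have e5 : 2 * (∫ x, ⟪G k x, ct n R x • H x⟫) - (∫ x, ct n R x * ‖H x‖ ^ 2) ≤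
        ∫ x, ⟪G k x, ct n R x • G k x⟫ := by
      rw [← integral_const_mul, ← integral_sub (i3.const_mul 2) i4]
      apply integral_mono ((i3.const_mul 2).sub i4) i1
      intro x
      change 2 * ⟪G k x, ct n R x • H x⟫ - ct n R x * ‖H x‖ ^ 2 ≤ ⟪G k x, ct n R x • G k x⟫
      rw [real_inner_smul_right, real_inner_smul_right, real_inner_self_eq_norm_sq]
      have h5 := mul_nonneg (ct_nonneg (n := n) R x) (sq_nonneg ‖G k x - H x‖)
      rw [norm_sub_sq_real] at h5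
      linarith
    linarith)
  linarith

/-- The limit inequality. -/
lemma D_le_P (hn : 2 ≤ n) {q : ℝ} (hq : 2 < q) (hq' : ((n:ℝ) - 2) * q < 2 * n)
    {ε : ℕ → ℝ} (hε0 : ∀ k, 0 < ε k) (hε : Tendsto ε atTop (𝓝 0))
    {v : ℕ → E n → ℝ} {G : ℕ → E n → E n} (h : ∀ k, Sc n q (ε k) (v k) (G k)) {M : ℝ}
    (hM : ∀ k, ∫ x, ‖G k x‖ ^ 2 ≤ M) {w : E n → ℝ}
    {H : E n → E n} (hc : CData n q v G w H) :
    ∫ x, ‖H x‖ ^ 2 ≤ ∫ x, Qo n x * |w x| ^ q := by
  have hp : ∀ R : ℕ, (0:ℝ) < R + 1 := fun R => by positivity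
  have t1 := cut_lim (integrable_sq hc.hH) (m := fun (R : ℕ) => ct n (R + 1))
    (fun R => (ct_cont (hp R)).aestronglyMeasurable) (fun R x => ct_abs _ x)
    (fun R x hx => ct_one (hp R) hx)
  have t2 := LTo.inner (μ := (volume : Measure (E n))) (f := fun _ => H) (g := H)
    (by unfold LTo; simp) (cut_w hq hq' hc.hm hc.hq) (fun _ => hc.hH) hc.hH
    (fun R => cut_mem' hq hc.hm hc.hq (hp R)) (by simp)
  simp only [inner_zero_right, integral_zero] at t2
  have t3 := cut_lim (Qo_int hc.hq) (m := fun (R : ℕ) => ct n (R + 1))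
    (fun R => (ct_cont (hp R)).aestronglyMeasurable) (fun R x => ct_abs _ x)
    (fun R x hx => ct_one (hp R) hx)
  have t4 := t1.add t2
  rw [add_zero] at t4
  exact le_of_tendsto_of_tendsto' t4 t3 fun R => lim_ineq hn hq hq' hε0 hε h hM hc (hp R)

lemma Qo_integral {f : E n → ℝ} (hf : Integrable f) :
    ∫ x, Qo n x * f x = (∫ x in Metric.ball (0 : E n) 1, f x) -
      ∫ x in (Metric.ball (0 : E n) 1)ᶜ, f x := by
  have hb : MeasurableSet (Metric.ball (0 : E n) 1) := Metric.isOpen_ball.measurableSet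
  rw [← integral_add_compl hb (Qo_int hf)]
  have e1 : ∫ x in Metric.ball (0 : E n) 1, Qo n x * f x =
      ∫ x in Metric.ball (0 : E n) 1, f x := by
    apply setIntegral_congr_fun hb
    intro x hx
    simp only [Qo, if_pos (mem_ball_zero_iff.1 hx), one_mul]
  have e2 : ∫ x in (Metric.ball (0 : E n) 1)ᶜ, Qo n x * f x =
      -∫ x in (Metric.ball (0 : E n) 1)ᶜ, f x := by
    rw [← integral_neg]
    apply setIntegral_congr_fun hb.compl
    intro x hx
    have hx' : ¬ ‖x‖ < 1 := fun h => hx (mem_ball_zero_iff.2 h)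
    simp only [Qo, if_neg hx', neg_mul, one_mul]
  rw [e1, e2]; ring

/-- The limit is not constant. -/
lemma D_pos (hn : 2 ≤ n) {q : ℝ} (hq : 2 < q) (hq' : ((n:ℝ) - 2) * q < 2 * n)
    {v : ℕ → E n → ℝ} {G : ℕ → E n → E n} {w : E n → ℝ}
    {H : E n → E n} (hc : CData n q v G w H) (hw : ¬ w =ᵐ[volume] 0)
    (hDP : ∫ x, ‖H x‖ ^ 2 ≤ ∫ x, Qo n x * |w x| ^ q) : 0 < ∫ x, ‖H x‖ ^ 2 := by
  obtain ⟨L, C, hL, hC, hLI⟩ := LI hn hq.le hq'
  have hD0 : 0 ≤ ∫ x, ‖H x‖ ^ 2 := integral_nonneg fun x => by positivity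
  rcases eq_or_lt_of_le hD0 with h | h
  swap
  · exact h
  exfalso
  have h1 := LI_loc hn hq.le hq' hL hLI hc.h1
  have h2 : ∫ x in Metric.ball (0 : E n) L, ‖H x‖ ^ 2 = 0 := by
    apply le_antisymm _ (integral_nonneg fun x => by positivity)
    have := setIntegral_le_integral (s := Metric.ball (0 : E n) L) (integrable_sq hc.hH)
      (Eventually.of_forall fun x => by positivity)
    rw [← h] at this
    exact this
  rw [h2, Real.zero_rpow (by linarith : q / 2 ≠ 0), mul_zero, add_zero] at h1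
  have h3 : ∫ x in Metric.ball (0 : E n) L \ Metric.ball 0 1, |w x| ^ q ≤
      ∫ x in (Metric.ball (0 : E n) 1)ᶜ, |w x| ^ q :=
    setIntegral_mono_set hc.hq.integrableOn (Eventually.of_forall fun x => by positivity)
      (LE.le.eventuallyLE fun x hx => hx.2)
  rw [← h, Qo_integral hc.hq] at hDP
  have h4 : 0 ≤ ∫ x in (Metric.ball (0 : E n) 1)ᶜ, |w x| ^ q :=
    integral_nonneg fun x => by positivity
  have h5 := integral_add_compl (Metric.isOpen_ball.measurableSet (s := Metric.ball (0 : E n) 1))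
    hc.hq
  have h6 : ∫ x, |w x| ^ q ≤ 0 := by linarith
  have h7 : ∫ x, |w x| ^ q = 0 := le_antisymm h6 (integral_nonneg fun x => by positivity)
  rw [integral_eq_zero_iff_of_nonneg (fun x => by positivity) hc.hq] at h7
  apply hw
  filter_upwards [h7] with x hx
  have hx' : |w x| ^ q = 0 := hx
  rw [Real.rpow_eq_zero (abs_nonneg _) (by linarith)] at hx'
  simpa using hx'

end Pool.Agent.R217.PC
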