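import Pool.Agent.R217.PC.Main

set_option autoImplicit false
set_option linter.unusedSectionVars false

open MeasureTheory Filter Topology
open scoped ContDiff ENNReal NNReal RealInnerProductSpace

namespace Pool.Agent.R217.PC

open Pool.Agent.R217.BN (E cexp sobS)
open Pool.Agent.R217.HS

variable {n : ℕ}

lemma ev_small {ε : ℕ → ℝ} (hε : Tendsto ε atTop (𝓝 0)) (c : ℝ) :
    ∀ᶠ k in atTop, c * ε k ≤ 1 := by
  have := hε.const_mul c
  rw [mul_zero] at this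
  exact (this.eventually (gt_mem_nhds one_pos)).mono fun k hk => hk.le

/-- The energy upper bound from the cut off limit. -/
lemma energy_upper (hn : 2 ≤ n) {q : ℝ} (hq : 2 < q) (hq' : ((n:ℝ) - 2) * q < 2 * n)
    {ε : ℕ → ℝ} (hε0 : ∀ k, 0 < ε k) (hε : Tendsto ε atTop (𝓝 0))
    {v : ℕ → E n → ℝ} {G : ℕ → E n → E n} (h : ∀ k, Sc n q (ε k) (v k) (G k)) {w : E n → ℝ}
    {H : E n → E n} (hc : CData n q v G w H) (hP : 0 < ∫ x, Qo n x * |w x| ^ q)
    {δ : ℝ} (hδ : 0 < δ) :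
    ∀ᶠ k in atTop, (∫ x, ‖G k x‖ ^ 2) + ε k ^ 2 * ∫ x, v k x ^ 2 <
      (∫ x, ‖H x‖ ^ 2) ^ (q / (q - 2)) / (∫ x, Qo n x * |w x| ^ q) ^ (2 / (q - 2)) + δ := by
  have hp : ∀ R : ℕ, (0:ℝ) < R + 1 := fun R => by positivity
  have hq2 : 0 < q - 2 := by linarith
  have a1 : 0 < q / (q - 2) := div_pos (by linarith) hq2
  have a2 : 0 < 2 / (q - 2) := div_pos (by norm_num) hq2
  obtain ⟨D, hD⟩ : ∃ D, D = ∫ x, ‖H x‖ ^ 2 := ⟨_, rfl⟩
  obtain ⟨P, hPe⟩ : ∃ P, P = ∫ x, Qo n x * |w x| ^ q := ⟨_, rfl⟩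
  rw [← hPe] at hP
  rw [← hD, ← hPe]
  -- the cut off functions
  have t1 : Tendsto (fun R : ℕ => ∫ x, Qo n x * |ct n (R + 1) x * w x| ^ q) atTop (𝓝 P) := by
    have := cut_lim (Qo_int hc.hq) (m := fun (R : ℕ) x => |ct n (R + 1) x| ^ q)
      (fun R => ((ct_cont (hp R)).abs.rpow_const
        (fun x => Or.inr (by linarith))).aestronglyMeasurable)
      (fun R x => by
        rw [abs_of_nonneg (Real.rpow_nonneg (abs_nonneg _) _)]
        exact Real.rpow_le_one (abs_nonneg _) (ct_abs _ x) (by linarith))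
      (fun R x hx => by rw [ct_one (hp R) hx, abs_one, Real.one_rpow])
    rw [← hPe] at this
    refine this.congr fun R => ?_
    congr 1; funext x
    rw [abs_mul, Real.mul_rpow (abs_nonneg _) (abs_nonneg _)]; ring
  have t2 : Tendsto (fun R : ℕ => ∫ x, ‖ct n (R + 1) x • H x + w x • gradient (ct n (R + 1)) x‖ ^ 2)
      atTop (𝓝 D) := by
    rw [hD]
    exact (cut_G hq hq' hc.hm hc.hq hc.hH).sq (fun R => (hc.h1 _ (ct_tst (hp R))).mG) hc.hH
  have t3 := (t2.rpow_const (p := q / (q - 2)) (Or.inr a1.le)).div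
    (t1.rpow_const (p := 2 / (q - 2)) (Or.inr a2.le)) (by positivity)
  obtain ⟨R, hR1, hR2⟩ := ((t3.eventually (gt_mem_nhds (show
    D ^ (q / (q - 2)) / P ^ (2 / (q - 2)) < D ^ (q / (q - 2)) / P ^ (2 / (q - 2)) + δ by
      linarith))).and (t1.eventually (lt_mem_nhds hP))).exists
  simp only [Pi.div_apply] at hR1
  obtain ⟨PR, hPR⟩ : ∃ PR, PR = ∫ x, Qo n x * |ct n (R + 1) x * w x| ^ q := ⟨_, rfl⟩
  obtain ⟨DR, hDR⟩ : ∃ DR, DR =
    ∫ x, ‖ct n (R + 1) x • H x + w x • gradient (ct n (R + 1)) x‖ ^ 2 := ⟨_, rfl⟩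
  rw [← hPR] at hR1 hR2
  rw [← hDR] at hR1
  have hH1 := hc.h1 _ (ct_tst (n := n) (hp R))
  have t4 : Tendsto (fun k => (DR + ε k ^ 2 * ∫ x, (ct n (R + 1) x * w x) ^ 2) ^ (q / (q - 2)) /
      PR ^ (2 / (q - 2))) atTop (𝓝 (DR ^ (q / (q - 2)) / PR ^ (2 / (q - 2)))) := by
    have h5 := ((hε.pow 2).mul_const (∫ x, (ct n (R + 1) x * w x) ^ 2)).const_add DR
    rw [zero_pow two_ne_zero, zero_mul, add_zero] at h5
    exact (h5.rpow_const (p := q / (q - 2)) (Or.inr a1.le)).div_const _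
  filter_upwards [t4.eventually (gt_mem_nhds hR1), ev_small hε (2 * ((R:ℝ) + 1) + 1)] with k hk1 hk2
  refine lt_of_le_of_lt ?_ hk1
  have e : ∫ x, Qt n (ε k) x * |ct n (R + 1) x * w x| ^ q = PR := by
    rw [hPR]; congr 1; funext x
    by_cases hx : ct n (R + 1) x = 0
    · rw [hx, zero_mul, abs_zero, Real.zero_rpow (by linarith : q ≠ 0), mul_zero, mul_zero]
    · rw [Qt_eq (hε0 k) hk2 (ct_supp (hp R) hx)]
  have h6 := (h k).min _ _ hH1 (by rw [e]; exact hR2)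
  rw [e, ← hDR] at h6
  rw [le_div_iff₀ (by positivity)]
  exact h6

/-- Convergence of the energies. -/
theorem energy_conv (hn : 2 ≤ n) {q : ℝ} (hq : 2 < q) (hq' : ((n:ℝ) - 2) * q < 2 * n)
    {ε : ℕ → ℝ} (hε0 : ∀ k, 0 < ε k) (hε : Tendsto ε atTop (𝓝 0))
    {v : ℕ → E n → ℝ} {G : ℕ → E n → E n} (h : ∀ k, Sc n q (ε k) (v k) (G k)) {M : ℝ}
    (hM : ∀ k, ∫ x, ‖G k x‖ ^ 2 ≤ M) {w : E n → ℝ}
    {H : E n → E n} (hc : CData n q v G w H) (hw : ¬ w =ᵐ[volume] 0) :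
    0 < (∫ x, ‖H x‖ ^ 2) ∧ (∫ x, ‖H x‖ ^ 2) = (∫ x, Qo n x * |w x| ^ q) ∧
    Tendsto (fun k => ∫ x, ‖G k x‖ ^ 2) atTop (𝓝 (∫ x, ‖H x‖ ^ 2)) ∧
    Tendsto (fun k => ε k ^ 2 * ∫ x, v k x ^ 2) atTop (𝓝 0) ∧
    Tendsto (fun k => ∫ x, ‖G k x - H x‖ ^ 2) atTop (𝓝 0) := by
  have hDP := D_le_P hn hq hq' hε0 hε h hM hc
  have hD := D_pos hn hq hq' hc hw hDP
  have hP := hD.trans_le hDP
  have hq2 : 0 < q - 2 := by linarith
  have a2 : 0 < 2 / (q - 2) := div_pos (by norm_num) hq2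
  have hup := fun (δ : ℝ) (hδ : 0 < δ) => energy_upper hn hq hq' hε0 hε h hc hP hδ
  obtain ⟨D, hDe⟩ : ∃ D, D = ∫ x, ‖H x‖ ^ 2 := ⟨_, rfl⟩
  obtain ⟨P, hPe⟩ : ∃ P, P = ∫ x, Qo n x * |w x| ^ q := ⟨_, rfl⟩
  rw [← hDe] at hDP hD hup ⊢
  rw [← hPe] at hDP hP hup ⊢
  -- lower bound
  have hw1 := hc.wG H hc.hH
  have e1 : ∫ x, ⟪H x, H x⟫ = D := by
    rw [hDe]; congr 1; funext x; exact real_inner_self_eq_norm_sq _
  rw [e1] at hw1
  have hsub : ∀ k, ∫ x, ‖G k x - H x‖ ^ 2 =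
      (∫ x, ‖G k x‖ ^ 2) - 2 * (∫ x, ⟪G k x, H x⟫) + D := by
    intro k
    have i1 := (h k).h1.int_grad
    have i2 := integrable_inner' (h k).h1.mG hc.hH
    have i3 : Integrable (fun x => ‖G k x‖ ^ 2 - 2 * ⟪G k x, H x⟫) := i1.sub (i2.const_mul 2)
    rw [hDe, ← integral_const_mul, ← integral_sub i1 (i2.const_mul 2),
      ← integral_add i3 (integrable_sq hc.hH)]
    congr 1; funext x
    rw [norm_sub_sq_real]
  have hlow : ∀ δ : ℝ, 0 < δ → ∀ᶠ k in atTop, D - δ < ∫ x, ‖G k x‖ ^ 2 := by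
    intro δ hδ
    have h3 := (hw1.const_mul 2).sub_const D
    have h4 : D - δ < 2 * D - D := by linarith
    filter_upwards [h3.eventually (lt_mem_nhds h4)] with k hk
    have h5 : 0 ≤ ∫ x, ‖G k x - H x‖ ^ 2 := integral_nonneg fun x => by positivity
    rw [hsub k] at h5
    linarith
  have hN : ∀ k, 0 ≤ ε k ^ 2 * ∫ x, v k x ^ 2 := fun k =>
    mul_nonneg (by positivity) (integral_nonneg fun x => by positivity)
  obtain ⟨F, hF⟩ : ∃ F, F = D ^ (q / (q - 2)) / P ^ (2 / (q - 2)) := ⟨_, rfl⟩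
  rw [← hF] at hup
  have hDF : D ≤ F := by
    apply le_of_forall_pos_lt_add
    intro δ hδ
    obtain ⟨k, hk1, hk2⟩ := ((hup (δ / 2) (by positivity)).and
      (hlow (δ / 2) (by positivity))).exists
    have := hN k
    linarith
  have hexp : D ^ (q / (q - 2)) = D * D ^ (2 / (q - 2)) := by
    have : q / (q - 2) = 1 + 2 / (q - 2) := by field_simp; ring
    rw [this, Real.rpow_add hD, Real.rpow_one]
  have hPD : P ≤ D := by
    by_contra hcon
    push Not at hcon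
    have h1 : D ^ (2 / (q - 2)) < P ^ (2 / (q - 2)) := Real.rpow_lt_rpow hD.le hcon a2
    have h2 : F < D := by
      rw [hF, hexp, div_lt_iff₀ (by positivity)]
      gcongr
    linarith
  have hPD' : D = P := le_antisymm hDP hPD
  have hFD : F = D := by
    rw [hF, hexp, ← hPD']
    have : D ^ (2 / (q - 2)) ≠ 0 := by positivity
    field_simp
  rw [hFD] at hup
  have hG : Tendsto (fun k => ∫ x, ‖G k x‖ ^ 2) atTop (𝓝 D) := by
    rw [Metric.tendsto_atTop']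
    intro δ hδ
    have h1 := (hup δ hδ).and (hlow δ hδ)
    obtain ⟨K, hK⟩ := eventually_atTop.1 h1
    refine ⟨K, fun k hk => ?_⟩
    obtain ⟨h2, h3⟩ := hK k hk.le
    have := hN k
    rw [Real.dist_eq, abs_lt]
    constructor <;> linarith
  refine ⟨hD, hPD', hG, ?_, ?_⟩
  · rw [Metric.tendsto_atTop']
    intro δ hδ
    have h1 := (hup (δ / 2) (by positivity)).and (hlow (δ / 2) (by positivity))
    obtain ⟨K, hK⟩ := eventually_atTop.1 h1
    refine ⟨K, fun k hk => ?_⟩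
    obtain ⟨h2, h3⟩ := hK k hk.le
    have := hN k
    rw [Real.dist_eq, abs_lt]
    constructor <;> linarith
  · have h1 := (hG.sub (hw1.const_mul 2)).add_const D
    have h2 : D - 2 * D + D = 0 := by ring
    rw [h2] at h1
    exact h1.congr fun k => (hsub k).symm

/-- The far part is controlled. -/
lemma split_far {q : ℝ} (hq : 2 < q) {L C : ℝ} (hL : 1 < L) (hC : 0 ≤ C)
    {f g : E n → ℝ} (hf : Integrable f) (hg : Integrable g) (hf0 : ∀ x, 0 ≤ f x)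
    (hg0 : ∀ x, 0 ≤ g x)
    (hLI : ∀ y : E n, ∫ x in Metric.ball y 1, f x ≤
        1 / 2 * (∫ x in Metric.ball y L \ Metric.ball y 1, f x) +
          C * (∫ x in Metric.ball y L, g x) ^ (q / 2))
    {ε : ℝ} (hε : 0 < ε) (hεL : 2 * L * ε ≤ 1) {ρ : ℝ} (hρ : 1 ≤ ρ) (hρε : (ρ + L) * ε ≤ 1) :
    ∫ x in (Metric.ball (0 : E n) ρ)ᶜ, f x ≤
      4 * (C * (∫ x in (Metric.ball (0 : E n) ρ)ᶜ, g x) ^ (q / 2)) +
      3 * ((∫ x in Metric.ball (0 : E n) ρ, Qo n x * f x) - ∫ x, Qt n ε x * f x) := by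
  have hb : MeasurableSet (Metric.ball (0 : E n) ρ) := Metric.isOpen_ball.measurableSet
  have hρ1 : (ρ + 1) * ε ≤ 1 := by nlinarith
  -- the far family
  have hs := sum_LI (y := fun z : {z : Fin n → ℤ // z ≠ 0} => ε⁻¹ • (lat z.1 : E n)) hq hL hC
    (fun i j hij => sc_dist hε hεL fun h => hij (Subtype.ext h)) hf hg hg0
    (fun i => hLI _)
  have s1 : (Metric.ball (0 : E n) ρ)ᶜ ∩ UU n ε 1 =
      ⋃ z : {z : Fin n → ℤ // z ≠ 0}, Metric.ball (ε⁻¹ • (lat z.1 : E n)) 1 := by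
    ext x
    constructor
    · rintro ⟨h1, h2⟩
      obtain ⟨z, hz⟩ := Set.mem_iUnion.1 h2
      by_cases hz0 : z = 0
      · rw [hz0, lat_zero, smul_zero] at hz
        exact absurd (Metric.ball_subset_ball hρ hz) h1
      · exact Set.mem_iUnion.2 ⟨⟨z, hz0⟩, hz⟩
    · intro h
      obtain ⟨z, hz⟩ := Set.mem_iUnion.1 h
      refine ⟨fun h1 => ?_, Set.mem_iUnion.2 ⟨z.1, hz⟩⟩
      have := lat_far hε z.2 hρ1 hz
      rw [mem_ball_zero_iff] at h1
      linarith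
  have s2 : (⋃ z : {z : Fin n → ℤ // z ≠ 0}, (Metric.ball (ε⁻¹ • (lat z.1 : E n)) L \
      Metric.ball (ε⁻¹ • (lat z.1 : E n)) 1)) ⊆ (Metric.ball (0 : E n) ρ)ᶜ \ UU n ε 1 := by
    intro x h
    obtain ⟨z, hz⟩ := Set.mem_iUnion.1 h
    refine ⟨fun h1 => ?_, ?_⟩
    · have := lat_far hε z.2 hρε hz.1
      rw [mem_ball_zero_iff] at h1
      linarith
    · exact ann_sub hε hL hεL (Set.mem_iUnion.2 ⟨z.1, hz⟩)
  have s3 : (⋃ z : {z : Fin n → ℤ // z ≠ 0}, Metric.ball (ε⁻¹ • (lat z.1 : E n)) L) ⊆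
      (Metric.ball (0 : E n) ρ)ᶜ := by
    intro x h
    obtain ⟨z, hz⟩ := Set.mem_iUnion.1 h
    intro h1
    have := lat_far hε z.2 hρε hz
    rw [mem_ball_zero_iff] at h1
    linarith
  rw [← s1] at hs
  have i2 := setIntegral_mono_set (μ := (volume : Measure (E n))) hf.integrableOn
    (Eventually.of_forall hf0) (LE.le.eventuallyLE s2)
  have i3 := setIntegral_mono_set (μ := (volume : Measure (E n))) hg.integrableOn
    (Eventually.of_forall hg0) (LE.le.eventuallyLE s3)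
  have i30 : 0 ≤ ∫ x in ⋃ z : {z : Fin n → ℤ // z ≠ 0}, Metric.ball (ε⁻¹ • (lat z.1 : E n)) L,
      g x := integral_nonneg hg0
  have i4 := mul_le_mul_of_nonneg_left (Real.rpow_le_rpow i30 i3 (show 0 ≤ q / 2 by linarith)) hC
  -- splitting
  have j1 := integral_inter_add_sdiff (μ := (volume : Measure (E n)))
    (s := (Metric.ball (0 : E n) ρ)ᶜ) (UU_meas (n := n) ε 1) hf.integrableOn
  have j2 := integral_inter_add_sdiff (μ := (volume : Measure (E n)))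
    (s := (Metric.ball (0 : E n) ρ)ᶜ) (UU_meas (n := n) ε 1) (Qt_int (ε := ε) hf).integrableOn
  have j3 := integral_add_compl hb (Qt_int (ε := ε) hf)
  have e1 : ∫ x in Metric.ball (0 : E n) ρ, Qt n ε x * f x =
      ∫ x in Metric.ball (0 : E n) ρ, Qo n x * f x := by
    apply setIntegral_congr_fun hb
    intro x hx
    simp only [Qt_eq hε hρ1 (mem_ball_zero_iff.1 hx).le]
  have e2 : ∫ x in (Metric.ball (0 : E n) ρ)ᶜ ∩ UU n ε 1, Qt n ε x * f x =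
      ∫ x in (Metric.ball (0 : E n) ρ)ᶜ ∩ UU n ε 1, f x := by
    apply setIntegral_congr_fun (hb.compl.inter (UU_meas ε 1))
    intro x hx
    simp only [Qt, if_pos hx.2, one_mul]
  have e3 : ∫ x in (Metric.ball (0 : E n) ρ)ᶜ \ UU n ε 1, Qt n ε x * f x =
      -∫ x in (Metric.ball (0 : E n) ρ)ᶜ \ UU n ε 1, f x := by
    rw [← integral_neg]
    apply setIntegral_congr_fun (hb.compl.diff (UU_meas ε 1))
    intro x hx
    simp only [Qt, if_neg hx.2, neg_mul, one_mul]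
  rw [e2, e3] at j2
  rw [e1] at j3
  linarith

end Pool.Agent.R217.PC
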