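import Pool.Agent.R217.PC.Main2

set_option autoImplicit false
set_option linter.unusedSectionVars false

open MeasureTheory Filter Topology
open scoped ContDiff ENNReal NNReal RealInnerProductSpace

namespace Pool.Agent.R217.PC

open Pool.Agent.R217.BN (E cexp sobS)
open Pool.Agent.R217.HS

variable {n : ℕ}

lemma ball_lim {f : E n → ℝ} (hf : Integrable f) :
    Tendsto (fun R : ℕ => ∫ x in Metric.ball (0 : E n) (R + 1), f x) atTop (𝓝 (∫ x, f x)) := by
  have h := tendsto_setIntegral_of_monotone (μ := (volume : Measure (E n))) (f := f)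
    (s := fun R : ℕ => Metric.ball (0 : E n) (R + 1))
    (fun i => Metric.isOpen_ball.measurableSet)
    (fun i j hij => Metric.ball_subset_ball (by
      have : (i:ℝ) ≤ j := by exact_mod_cast hij
      linarith)) hf.integrableOn
  have e : ⋃ R : ℕ, Metric.ball (0 : E n) (R + 1) = Set.univ := by
    rw [Set.eq_univ_iff_forall]
    intro x
    obtain ⟨K, hK⟩ := exists_nat_ge ‖x‖
    exact Set.mem_iUnion.2 ⟨K, mem_ball_zero_iff.2 (by linarith)⟩
  rw [e, setIntegral_univ] at h
  exact h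

lemma ball_lim' {f : E n → ℝ} (hf : Integrable f) :
    Tendsto (fun R : ℕ => ∫ x in (Metric.ball (0 : E n) (R + 1))ᶜ, f x) atTop (𝓝 0) := by
  have h := (ball_lim hf).const_sub (∫ x, f x)
  rw [sub_self] at h
  refine h.congr fun R => ?_
  rw [← integral_add_compl (Metric.isOpen_ball.measurableSet (s := Metric.ball (0 : E n) (R + 1))) hf]
  ring

lemma set_lim {s : Set (E n)} {G : ℕ → E n → E n} {H : E n → E n}
    (hG : ∀ k, MemLp (G k) 2 volume) (hH : MemLp H 2 volume)
    (h : Tendsto (fun k => ∫ x, ‖G k x - H x‖ ^ 2) atTop (𝓝 0)) :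
    Tendsto (fun k => ∫ x in s, ‖G k x‖ ^ 2) atTop (𝓝 (∫ x in s, ‖H x‖ ^ 2)) := by
  have h1 : LTo (volume.restrict s) G H := by
    apply lTo_of_sq (fun k => (hG k).restrict s) (hH.restrict s)
    refine squeeze_zero (fun k => integral_nonneg fun x => by positivity) (fun k => ?_) h
    exact setIntegral_le_integral (integrable_sq ((hG k).sub hH))
      (Eventually.of_forall fun x => by positivity)
  exact h1.sq (fun k => (hG k).restrict s) (hH.restrict s)

/-- Strong convergence in `L^q`. -/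
theorem strong_q (hn : 2 ≤ n) {q : ℝ} (hq : 2 < q) (hq' : ((n:ℝ) - 2) * q < 2 * n)
    {ε : ℕ → ℝ} (hε0 : ∀ k, 0 < ε k) (hε : Tendsto ε atTop (𝓝 0))
    {v : ℕ → E n → ℝ} {G : ℕ → E n → E n} (h : ∀ k, Sc n q (ε k) (v k) (G k)) {M : ℝ}
    (hM : ∀ k, ∫ x, ‖G k x‖ ^ 2 ≤ M) {w : E n → ℝ}
    {H : E n → E n} (hc : CData n q v G w H) (hw : ¬ w =ᵐ[volume] 0) :
    Tendsto (fun k => ∫ x, |v k x - w x| ^ q) atTop (𝓝 0) := by
  obtain ⟨-, hDP, hGc, hNc, hGs⟩ := energy_conv hn hq hq' hε0 hε h hM hc hw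
  obtain ⟨L, C, hL, hC, hLI⟩ := LI hn hq.le hq'
  obtain ⟨Ce, -, hCe⟩ := emb hn hq.le hq'
  have hp : ∀ R : ℕ, (0:ℝ) < R + 1 := fun R => by positivity
  have hi : ∀ k, Integrable (fun x => |v k x| ^ q) := fun k => (hCe _ _ (h k).h1).1
  obtain ⟨D, hDe⟩ : ∃ D, D = ∫ x, ‖H x‖ ^ 2 := ⟨_, rfl⟩
  rw [← hDe] at hDP hGc
  have hN : ∀ k, ∫ x, Qt n (ε k) x * |v k x| ^ q =
      (∫ x, ‖G k x‖ ^ 2) + ε k ^ 2 * ∫ x, v k x ^ 2 := by
    intro k
    rw [Qt_integral (hi k), (h k).neh hn hq hq']
  have hNlim : Tendsto (fun k => ∫ x, Qt n (ε k) x * |v k x| ^ q) atTop (𝓝 D) := by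
    have := hGc.add hNc
    rw [add_zero] at this
    exact this.congr fun k => (hN k).symm
  -- the bound
  obtain ⟨b, hb⟩ : ∃ b : ℕ → ℕ → ℝ, b = fun (R k : ℕ) =>
    (∫ x, |ct n (R + 1) x * v k x - ct n (R + 1) x * w x| ^ q) +
    2 ^ (q - 1) * (4 * (C * (∫ x in (Metric.ball (0 : E n) (R + 1))ᶜ, ‖G k x‖ ^ 2) ^ (q / 2)) +
      3 * ((∫ x in Metric.ball (0 : E n) (R + 1), Qo n x * |v k x| ^ q) -
        ∫ x, Qt n (ε k) x * |v k x| ^ q)) +
    2 ^ (q - 1) * ∫ x in (Metric.ball (0 : E n) (R + 1))ᶜ, |w x| ^ q := ⟨_, rfl⟩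
  obtain ⟨l, hl⟩ : ∃ l : ℕ → ℝ, l = fun (R : ℕ) => 0 +
    2 ^ (q - 1) * (4 * (C * (∫ x in (Metric.ball (0 : E n) (R + 1))ᶜ, ‖H x‖ ^ 2) ^ (q / 2)) +
      3 * ((∫ x in Metric.ball (0 : E n) (R + 1), Qo n x * |w x| ^ q) - D)) +
    2 ^ (q - 1) * ∫ x in (Metric.ball (0 : E n) (R + 1))ᶜ, |w x| ^ q := ⟨_, rfl⟩
  have hbl : ∀ R, Tendsto (b R) atTop (𝓝 (l R)) := by
    intro R
    rw [hb, hl]
    have t1 := hc.lq _ (ct_tst (n := n) (hp R))
    have t2 := set_lim (s := (Metric.ball (0 : E n) (R + 1))ᶜ) (fun k => (h k).h1.mG) hc.hH hGs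
    have hbm : MeasurableSet (Metric.ball (0 : E n) (R + 1)) := Metric.isOpen_ball.measurableSet
    have t3 : Tendsto (fun k => ∫ x in Metric.ball (0 : E n) (R + 1), Qo n x * |v k x| ^ q) atTop
        (𝓝 (∫ x in Metric.ball (0 : E n) (R + 1), Qo n x * |w x| ^ q)) := by
      have := loc_q hn hq hq' (fun k => (h k).h1) hc (hp R)
        (g := (Metric.ball (0 : E n) (R + 1)).indicator (Qo n)) (B := 1)
        (fun x => by
          by_cases hx : x ∈ Metric.ball (0 : E n) (R + 1)
          · rw [Set.indicator_of_mem hx]; exact Qo_abs x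
          · rw [Set.indicator_of_notMem hx]; simp)
        (Qo_meas.indicator hbm).aestronglyMeasurable
        (fun x hx => by
          have := Set.mem_of_indicator_ne_zero hx
          exact (mem_ball_zero_iff.1 this).le)
      have e : ∀ u : E n → ℝ, ∫ x, (Metric.ball (0 : E n) (R + 1)).indicator (Qo n) x * |u x| ^ q =
          ∫ x in Metric.ball (0 : E n) (R + 1), Qo n x * |u x| ^ q := by
        intro u
        rw [← integral_indicator hbm]
        congr 1; funext x
        by_cases hx : x ∈ Metric.ball (0 : E n) (R + 1)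
        · rw [Set.indicator_of_mem hx, Set.indicator_of_mem hx]
        · rw [Set.indicator_of_notMem hx, Set.indicator_of_notMem hx, zero_mul]
      simp only [e] at this
      exact this
    exact ((t1.add ((((((t2.rpow_const (p := q / 2) (Or.inr (by linarith))).const_mul
      C).const_mul 4).add ((t3.sub hNlim).const_mul 3)).const_mul _))).add_const _)
  have hl0 : Tendsto l atTop (𝓝 0) := by
    rw [hl]
    have t1 := ball_lim' (integrable_sq hc.hH)
    have t2 := ball_lim (Qo_int hc.hq)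
    have t3 := ball_lim' hc.hq
    rw [← hDP] at t2
    have t4 := ((((((t1.rpow_const (p := q / 2) (Or.inr (by linarith))).const_mul
      C).const_mul 4).add ((t2.sub_const D).const_mul 3)).const_mul (2 ^ (q - 1))).const_add
        0).add (t3.const_mul (2 ^ (q - 1)))
    rw [Real.zero_rpow (by linarith : q / 2 ≠ 0)] at t4
    simpa using t4
  have hle : ∀ R, ∀ᶠ k in atTop, ∫ x, |v k x - w x| ^ q ≤ b R k := by
    intro R
    filter_upwards [ev_small hε (2 * L), ev_small hε (((R:ℝ) + 1) + L)] with k hk1 hk2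
    have hbm : MeasurableSet (Metric.ball (0 : E n) (R + 1)) := Metric.isOpen_ball.measurableSet
    have hfar := split_far hq hL hC (hi k) (h k).h1.int_grad (fun x => by positivity)
      (fun x => by positivity) (fun y => hLI _ _ (h k).h1 y) (hε0 k) hk1
      (ρ := (R:ℝ) + 1) (by have := Nat.cast_nonneg (α := ℝ) R; linarith) hk2
    have hpt : ∀ x, |v k x - w x| ^ q ≤ 2 ^ (q - 1) * |v k x| ^ q + 2 ^ (q - 1) * |w x| ^ q := by
      intro x
      have := half_bound (show 1 ≤ q by linarith) (v k x - w x) (v k x)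
      rwa [sub_sub_cancel] at this
    have i0 : Integrable (fun x => 2 ^ (q - 1) * |v k x| ^ q + 2 ^ (q - 1) * |w x| ^ q) :=
      ((hi k).const_mul _).add (hc.hq.const_mul _)
    have hid : Integrable (fun x => |v k x - w x| ^ q) := by
      refine i0.mono'
        (((h k).h1.mu.1.sub hc.hm).norm.aemeasurable.pow_const q).aestronglyMeasurable
        (Eventually.of_forall fun x => ?_)
      rw [Real.norm_eq_abs, abs_of_nonneg (by positivity)]
      exact hpt x
    have hT := ct_tst (n := n) (hp R)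
    have hid2 := (hCe _ _ (((h k).h1.mulT hT).sub (hc.h1 _ hT))).1
    rw [← integral_add_compl hbm hid, hb]
    have f1 : ∫ x in Metric.ball (0 : E n) (R + 1), |v k x - w x| ^ q ≤
        ∫ x, |ct n (R + 1) x * v k x - ct n (R + 1) x * w x| ^ q := by
      refine le_trans (le_of_eq ?_) (setIntegral_le_integral hid2
        (s := Metric.ball (0 : E n) (R + 1)) (Eventually.of_forall fun x => by positivity))
      apply setIntegral_congr_fun hbm
      intro x hx
      simp only [ct_one (hp R) (mem_ball_zero_iff.1 hx).le, one_mul]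
    have f2 : ∫ x in (Metric.ball (0 : E n) (R + 1))ᶜ, |v k x - w x| ^ q ≤
        2 ^ (q - 1) * (∫ x in (Metric.ball (0 : E n) (R + 1))ᶜ, |v k x| ^ q) +
        2 ^ (q - 1) * ∫ x in (Metric.ball (0 : E n) (R + 1))ᶜ, |w x| ^ q := by
      rw [← integral_const_mul, ← integral_const_mul, ← integral_add
        (((hi k).const_mul _).integrableOn) ((hc.hq.const_mul _).integrableOn)]
      exact setIntegral_mono hid.integrableOn i0.integrableOn hpt
    have f3 := mul_le_mul_of_nonneg_left hfar (show (0:ℝ) ≤ 2 ^ (q - 1) by positivity)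
    dsimp only
    linarith
  rw [Metric.tendsto_atTop']
  intro δ hδ
  obtain ⟨R, hR⟩ := (hl0.eventually (gt_mem_nhds hδ)).exists
  obtain ⟨K, hK⟩ := eventually_atTop.1 ((hle R).and ((hbl R).eventually (gt_mem_nhds hR)))
  refine ⟨K, fun k hk => ?_⟩
  obtain ⟨h1, h2⟩ := hK k hk.le
  rw [Real.dist_eq, sub_zero, abs_of_nonneg (integral_nonneg fun x => by positivity)]
  linarith

end Pool.Agent.R217.PC
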