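import Pool.Agent.R217.PC.DD

set_option autoImplicit false
set_option linter.unusedSectionVars false

open MeasureTheory Filter Topology
open scoped ContDiff ENNReal NNReal RealInnerProductSpace

namespace Pool.Agent.R217.PC

open Pool.Agent.R217.BN (E cexp sobS)
open Pool.Agent.R217.HS

variable {n : ℕ}

/-- Weak convergence in `D^{1,2}` of functions with gradients `G k` to a function with gradient
`V`. -/
def WeakD (G : ℕ → E n → E n) (V : E n → E n) : Prop :=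
  ∀ (ψ : E n → ℝ) (Ψ : E n → E n), IsD ψ Ψ →
    Tendsto (fun k => ∫ x, ⟪G k x, Ψ x⟫) atTop (𝓝 (∫ x, ⟪V x, Ψ x⟫))

/-- Nontrivial weak limits exist after translation. -/
theorem prof1 (hn : 3 ≤ n) {q : ℝ} (hq : 2 < q) (hq' : ((n:ℝ) - 2) * q < 2 * n)
    {ε : ℕ → ℝ} (hε0 : ∀ k, 0 < ε k) (hε1 : ∀ k, ε k ≤ 1) (hε : Tendsto ε atTop (𝓝 0))
    {u : ℕ → E n → ℝ} {G : ℕ → E n → E n} (h : ∀ k, LES n q (ε k) (u k) (G k))
    (hpos : ∀ k, ∀ᵐ x ∂(volume : Measure (E n)), 0 < u k x) :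
    ∃ (z : ℕ → Fin n → ℤ) (m : ℕ → ℕ) (v : E n → ℝ) (V : E n → E n), StrictMono m ∧ IsD v V ∧
      (∀ᵐ x ∂(volume : Measure (E n)), 0 ≤ v x) ∧ ¬ v =ᵐ[volume] 0 ∧
      WeakD (fun j => Gs q (ε (m j)) (G (m j)) (z (m j))) V := by
  have hn2 : 2 ≤ n := by omega
  obtain ⟨z, c, hc, hcon⟩ := exists_z hn2 hq hq' hε0 hε h
  obtain ⟨M, hM⟩ := Sc_bound2 hn2 hq hq'
  have hsc : ∀ k, Sc n q (ε k) (vs q (ε k) (u k) (z k)) (Gs q (ε k) (G k) (z k)) :=
    fun k => (h k).sc hq (hε0 k) (z k)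
  obtain ⟨w, H, m, hm, hcd⟩ := comp hn2 hq hq' (fun k => (hsc k).h1) (M := M)
    (fun k => (hM _ (hε0 _) (hε1 _) _ _ (hsc k)).1)
    (fun k => (hM _ (hε0 _) (hε1 _) _ _ (hsc k)).2)
  refine ⟨z, m, w, H, hm, ?_, ?_, ?_, ?_⟩
  · exact cdata_isD hn hq hq' (fun k => (hsc (m k)).h1)
      (fun k => (hM _ (hε0 _) (hε1 _) _ _ (hsc (m k))).1) hcd
  · have hp : ∀ᵐ x ∂(volume : Measure (E n)), ∀ k, 0 ≤ vs q (ε (m k)) (u (m k)) (z (m k)) x := by
      rw [ae_all_iff]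
      intro k
      have hq1 : Measure.QuasiMeasurePreserving (fun x : E n => ε (m k) • x + lat (z (m k)))
          volume volume :=
        (measurePreserving_add_right volume (lat (z (m k)))).quasiMeasurePreserving.comp
          (qmp_smul (hε0 _))
      filter_upwards [hq1.ae (hpos (m k))] with x hx
      unfold vs
      have := hε0 (m k)
      positivity
    filter_upwards [hp, hcd.ae] with x h1 h2
    exact ge_of_tendsto' h2 h1
  · exact w_ne hn2 hq hq' (fun k => (hsc (m k)).h1) hcd hc (hm.tendsto_atTop.eventually hcon)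
  · intro ψ Ψ hψ
    exact hcd.wG Ψ hψ.mG

/-- Nontrivial weak limits are strong limits. -/
theorem prof2 (hn : 3 ≤ n) {q : ℝ} (hq : 2 < q) (hq' : ((n:ℝ) - 2) * q < 2 * n)
    {ε : ℕ → ℝ} (hε0 : ∀ k, 0 < ε k) (hε1 : ∀ k, ε k ≤ 1) (hε : Tendsto ε atTop (𝓝 0))
    {u : ℕ → E n → ℝ} {G : ℕ → E n → E n} (h : ∀ k, LES n q (ε k) (u k) (G k))
    (z : ℕ → Fin n → ℤ) {v : E n → ℝ} {V : E n → E n} (hv : IsD v V) (hv0 : ¬ v =ᵐ[volume] 0)
    (hw : WeakD (fun j => Gs q (ε j) (G j) (z j)) V) :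
    Tendsto (fun j => ∫ x, ‖Gs q (ε j) (G j) (z j) x - V x‖ ^ 2) atTop (𝓝 0) ∧
    Integrable (fun x => |v x| ^ q) ∧
    Tendsto (fun j => ∫ x, |vs q (ε j) (u j) (z j) x - v x| ^ q) atTop (𝓝 0) := by
  have hn2 : 2 ≤ n := by omega
  obtain ⟨M, hM⟩ := Sc_bound2 hn2 hq hq'
  have hsc : ∀ k, Sc n q (ε k) (vs q (ε k) (u k) (z k)) (Gs q (ε k) (G k) (z k)) :=
    fun k => (h k).sc hq (hε0 k) (z k)
  have hmain : ∀ ns : ℕ → ℕ, Tendsto ns atTop atTop → ∃ ms : ℕ → ℕ,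
      Tendsto (fun j => ∫ x, ‖Gs q (ε (ns (ms j))) (G (ns (ms j))) (z (ns (ms j))) x - V x‖ ^ 2)
        atTop (𝓝 0) ∧ Integrable (fun x => |v x| ^ q) ∧
      Tendsto (fun j => ∫ x, |vs q (ε (ns (ms j))) (u (ns (ms j))) (z (ns (ms j))) x - v x| ^ q)
        atTop (𝓝 0) := by
    intro ns hns
    obtain ⟨w, H, ms, hms, hcd⟩ := comp hn2 hq hq' (fun k => (hsc (ns k)).h1) (M := M)
      (fun k => (hM _ (hε0 _) (hε1 _) _ _ (hsc (ns k))).1)
      (fun k => (hM _ (hε0 _) (hε1 _) _ _ (hsc (ns k))).2)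
    refine ⟨ms, ?_⟩
    obtain ⟨js, hjs⟩ : ∃ js : ℕ → ℕ, js = fun k => ns (ms k) := ⟨_, rfl⟩
    have hj : Tendsto js atTop atTop := by rw [hjs]; exact hns.comp hms.tendsto_atTop
    have ej : ∀ k, ns (ms k) = js k := fun k => by rw [hjs]
    simp_rw [ej] at hcd ⊢
    have hεj : Tendsto (fun k => ε (js k)) atTop (𝓝 0) := hε.comp hj
    have hMj : ∀ k, ∫ x, ‖Gs q (ε (js k)) (G (js k)) (z (js k)) x‖ ^ 2 ≤ M := fun k =>
      (hM _ (hε0 _) (hε1 _) _ _ (hsc (js k))).1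
    have hwD : IsD w H := cdata_isD hn hq hq' (fun k => (hsc (js k)).h1) hMj hcd
    -- identification of the limit
    have hdiff := hv.sub hn hwD
    have l1 := (hw _ _ hdiff).comp hj
    have l2 := hcd.wG _ hdiff.mG
    have l3 := tendsto_nhds_unique l1 l2
    have hVH : V =ᵐ[volume] H := by
      have i1 := integrable_inner' hv.mG hdiff.mG
      have i2 := integrable_inner' hwD.mG hdiff.mG
      have l4 : ∫ x, ‖V x - H x‖ ^ 2 = 0 := by
        have e : ∀ x, ‖V x - H x‖ ^ 2 = ⟪V x, V x - H x⟫ - ⟪H x, V x - H x⟫ := by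
          intro x
          rw [← inner_sub_left, real_inner_self_eq_norm_sq]
        simp_rw [e]
        rw [integral_sub i1 i2, l3, sub_self]
      rw [integral_eq_zero_iff_of_nonneg (fun x => by positivity) (integrable_sq hdiff.mG)] at l4
      filter_upwards [l4] with x hx
      have hx' : ‖V x - H x‖ ^ 2 = 0 := hx
      have hx2 : V x - H x = 0 := by simpa using hx'
      exact sub_eq_zero.1 hx2
    have hvw : v =ᵐ[volume] w := hv.unique hn hwD hVH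
    have hw0 : ¬ w =ᵐ[volume] 0 := fun h0 => hv0 (hvw.trans h0)
    obtain ⟨-, -, -, -, hGs⟩ := energy_conv hn2 hq hq' (fun k => hε0 (js k)) hεj
      (fun k => hsc (js k)) hMj hcd hw0
    have hqs := strong_q hn2 hq hq' (fun k => hε0 (js k)) hεj (fun k => hsc (js k)) hMj hcd hw0
    refine ⟨?_, ?_, ?_⟩
    · refine hGs.congr fun k => ?_
      apply integral_congr_ae
      filter_upwards [hVH] with x hx
      rw [hx]
    · refine hcd.hq.congr ?_
      filter_upwards [hvw] with x hx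
      rw [hx]
    · refine hqs.congr fun k => ?_
      apply integral_congr_ae
      filter_upwards [hvw] with x hx
      rw [hx]
  refine ⟨?_, ?_, ?_⟩
  · apply tendsto_of_subseq_tendsto
    intro ns hns
    obtain ⟨ms, h1, -, -⟩ := hmain ns hns
    exact ⟨ms, h1⟩
  · obtain ⟨ms, -, h1, -⟩ := hmain (fun k => k) tendsto_id
    exact h1
  · apply tendsto_of_subseq_tendsto
    intro ns hns
    obtain ⟨ms, -, -, h1⟩ := hmain ns hns
    exact ⟨ms, h1⟩

end Pool.Agent.R217.PC
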