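import Pool.Agent.R217.PC.Cut

set_option autoImplicit false
set_option linter.unusedSectionVars false

open MeasureTheory Filter Topology
open scoped ContDiff ENNReal NNReal RealInnerProductSpace

namespace Pool.Agent.R217.PC

open Pool.Agent.R217.BN (E cexp sobS)
open Pool.Agent.R217.HS

variable {n : ℕ}

/-- A least energy solution in the scaled variables. -/
structure Sc (n : ℕ) (q ε : ℝ) (v : E n → ℝ) (G : E n → E n) : Prop where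
  h1 : IsH1 v G
  pos : 0 < ∫ x, v x ^ 2
  eqn : ∀ (φ : E n → ℝ) (Φ : E n → E n), IsH1 φ Φ →
    (∫ x, ⟪G x, Φ x⟫) + ε ^ 2 * ∫ x, v x * φ x = ∫ x, Qt n ε x * (|v x| ^ (q - 2) * v x * φ x)
  min : ∀ (f : E n → ℝ) (F : E n → E n), IsH1 f F → 0 < ∫ x, Qt n ε x * |f x| ^ q →
    ((∫ x, ‖G x‖ ^ 2) + ε ^ 2 * ∫ x, v x ^ 2) * (∫ x, Qt n ε x * |f x| ^ q) ^ (2 / (q - 2)) ≤
      ((∫ x, ‖F x‖ ^ 2) + ε ^ 2 * ∫ x, f x ^ 2) ^ (q / (q - 2))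

lemma pow_id {q : ℝ} (hq : 2 < q) (t : ℝ) : |t| ^ (q - 2) * t * t = |t| ^ q := by
  rcases eq_or_ne t 0 with h | h
  · rw [h, abs_zero, mul_zero, Real.zero_rpow (by linarith : q ≠ 0)]
  · have ht : 0 < |t| := abs_pos.2 h
    have e : |t| ^ q = |t| ^ (q - 2) * |t| ^ 2 := by
      rw [← Real.rpow_two, ← Real.rpow_add ht]; congr 1; ring
    rw [e, sq_abs]; ring

lemma Sc.neh (hn : 2 ≤ n) {q : ℝ} (hq : 2 < q) (hq' : ((n:ℝ) - 2) * q < 2 * n) {ε : ℝ}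
    {v : E n → ℝ} {G : E n → E n} (h : Sc n q ε v G) :
    (∫ x, ‖G x‖ ^ 2) + ε ^ 2 * ∫ x, v x ^ 2 =
      (∫ x in UU n ε 1, |v x| ^ q) - ∫ x in (UU n ε 1)ᶜ, |v x| ^ q := by
  obtain ⟨Ce, -, hCe⟩ := emb hn hq.le hq'
  rw [← Qt_integral (hCe _ _ h.h1).1]
  have h1 := h.eqn v G h.h1
  have e1 : ∀ x, ⟪G x, G x⟫ = ‖G x‖ ^ 2 := fun x => real_inner_self_eq_norm_sq _
  have e2 : ∀ x, v x * v x = v x ^ 2 := fun x => by ring
  simp_rw [e1, e2, pow_id hq] at h1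
  exact h1

lemma ann_sub {ε : ℝ} (hε : 0 < ε) {L : ℝ} (hL1 : 1 < L) (hL : 2 * L * ε ≤ 1) :
    ⋃ z : Fin n → ℤ, (Metric.ball (ε⁻¹ • lat z) L \ Metric.ball (ε⁻¹ • lat z) 1) ⊆
      (UU n ε 1)ᶜ := by
  intro x hx hx'
  obtain ⟨z, h1, h2⟩ := Set.mem_iUnion.1 hx
  obtain ⟨z', h3⟩ := Set.mem_iUnion.1 hx'
  by_cases hz : z = z'
  · rw [hz] at h2; exact h2 h3
  · have h4 := sc_dist hε hL hz
    have h5 := dist_triangle_left (ε⁻¹ • lat z) (ε⁻¹ • lat z') x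
    rw [Metric.mem_ball] at h1 h3
    linarith

/-- The test function for the upper bound. -/
lemma zero_sub (ε : ℝ) {r : ℝ} : Metric.ball (0 : E n) r ⊆ UU n ε r := by
  intro x hx
  refine Set.mem_iUnion.2 ⟨0, ?_⟩
  rwa [lat_zero, smul_zero]

theorem Sc_bound1 (n : ℕ) {q : ℝ} (hq : 2 < q) :
    ∃ M : ℝ, 0 ≤ M ∧ ∀ ε : ℝ, 0 < ε → ε ≤ 1 → ∀ (v : E n → ℝ) (G : E n → E n), Sc n q ε v G →
      (∫ x, ‖G x‖ ^ 2) + ε ^ 2 * ∫ x, v x ^ 2 ≤ M := by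
  have hT : Tst (ct n (1 / 4)) := ct_tst (by norm_num)
  have h0 : ct n (1 / 4) ≠ 0 := by
    intro h
    have h1 := ct_one (n := n) (show (0:ℝ) < 1 / 4 by norm_num) (x := 0) (by simp)
    rw [h] at h1
    simp at h1
  obtain ⟨P, hP⟩ : ∃ P, P = ∫ x, |ct n (1 / 4) x| ^ q := ⟨_, rfl⟩
  have hP0 : 0 < P := by rw [hP]; exact hT.rpow_pos h0 (by linarith)
  obtain ⟨D, hD⟩ : ∃ D, D = (∫ x, ‖gradient (ct n (1 / 4)) x‖ ^ 2) + ∫ x, ct n (1 / 4) x ^ 2 :=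
    ⟨_, rfl⟩
  have hD0 : 0 ≤ D := by
    rw [hD]
    exact add_nonneg (integral_nonneg fun x => by positivity)
      (integral_nonneg fun x => by positivity)
  refine ⟨D ^ (q / (q - 2)) / P ^ (2 / (q - 2)), by positivity, ?_⟩
  intro ε hε hε1 v G h
  have e : ∫ x, Qt n ε x * |ct n (1 / 4) x| ^ q = P := by
    rw [hP]; congr 1; funext x
    by_cases hx : ct n (1 / 4) x = 0
    · rw [hx, abs_zero, Real.zero_rpow (by linarith : q ≠ 0), mul_zero]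
    · have h1 := ct_supp (show (0:ℝ) < 1 / 4 by norm_num) hx
      have h2 : x ∈ UU n ε 1 := zero_sub ε (mem_ball_zero_iff.2 (by linarith))
      simp only [Qt, if_pos h2, one_mul]
  have h1 := h.min _ _ hT.isH1 (by rw [e]; exact hP0)
  rw [e] at h1
  rw [le_div_iff₀ (by positivity)]
  refine h1.trans (Real.rpow_le_rpow ?_ ?_ (div_nonneg (by linarith) (by linarith)))
  · exact add_nonneg (integral_nonneg fun x => by positivity)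
      (mul_nonneg (by positivity) (integral_nonneg fun x => by positivity))
  · rw [hD]
    have h2 : 0 ≤ ∫ x, ct n (1 / 4) x ^ 2 := integral_nonneg fun x => by positivity
    have h3 : ε ^ 2 ≤ 1 := pow_le_one₀ hε.le hε1
    nlinarith

lemma Sc_facts (hn : 2 ≤ n) {q : ℝ} (hq : 2 < q) (hq' : ((n:ℝ) - 2) * q < 2 * n) {L C : ℝ}
    (hL : 1 < L) (hC : 0 ≤ C)
    (hLI : ∀ (u : E n → ℝ) (G : E n → E n), IsH1 u G → ∀ y : E n,
      ∫ x in Metric.ball y 1, |u x| ^ q ≤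
        1 / 2 * (∫ x in Metric.ball y L \ Metric.ball y 1, |u x| ^ q) +
          C * (∫ x in Metric.ball y L, ‖G x‖ ^ 2) ^ (q / 2))
    {ε : ℝ} (hε : 0 < ε) (hεL : 2 * L * ε ≤ 1) {v : E n → ℝ} {G : E n → E n} (h : Sc n q ε v G) :
    (∫ x in UU n ε 1, |v x| ^ q ≤ 2 * (C * (∫ x, ‖G x‖ ^ 2) ^ (q / 2))) ∧
    (∫ x in (UU n ε 1)ᶜ, |v x| ^ q ≤ 2 * (C * (∫ x, ‖G x‖ ^ 2) ^ (q / 2))) ∧
    ∃ z : Fin n → ℤ, (1 / (2 * (C + 1))) ^ (2 / (q - 2)) ≤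
      ∫ x in Metric.ball (ε⁻¹ • lat z) 1, |v x| ^ q := by
  obtain ⟨Ce, -, hCe⟩ := emb hn hq.le hq'
  have hi := (hCe _ _ h.h1).1
  have hg := h.h1.int_grad
  have hneh := h.neh hn hq hq'
  have hann : ∫ x in ⋃ z : Fin n → ℤ, (Metric.ball (ε⁻¹ • lat z) L \
      Metric.ball (ε⁻¹ • lat z) 1), |v x| ^ q ≤ ∫ x in (UU n ε 1)ᶜ, |v x| ^ q :=
    setIntegral_mono_set hi.integrableOn (Eventually.of_forall fun x => by positivity)
      (LE.le.eventuallyLE (ann_sub hε hL hεL))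
  have hgs : ∫ x in ⋃ z : Fin n → ℤ, Metric.ball (ε⁻¹ • lat z) L, ‖G x‖ ^ 2 ≤
      ∫ x, ‖G x‖ ^ 2 :=
    setIntegral_le_integral hg (Eventually.of_forall fun x => by positivity)
  have hgs0 : 0 ≤ ∫ x in ⋃ z : Fin n → ℤ, Metric.ball (ε⁻¹ • lat z) L, ‖G x‖ ^ 2 :=
    integral_nonneg fun x => by positivity
  have hs := sum_LI (y := fun z : Fin n → ℤ => ε⁻¹ • lat z) hq hL hC
    (fun i j hij => sc_dist hε hεL hij) hi hg (fun x => by positivity)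
    (fun i => hLI v G h.h1 _)
  have hU : UU n ε 1 = ⋃ z : Fin n → ℤ, Metric.ball (ε⁻¹ • lat z) 1 := rfl
  rw [← hU] at hs
  have hp : (∫ x in ⋃ z : Fin n → ℤ, Metric.ball (ε⁻¹ • lat z) L, ‖G x‖ ^ 2) ^ (q / 2) ≤
      (∫ x, ‖G x‖ ^ 2) ^ (q / 2) := Real.rpow_le_rpow hgs0 hgs (by linarith)
  have hp2 := mul_le_mul_of_nonneg_left hp hC
  have hp3 : 0 ≤ C * (∫ x, ‖G x‖ ^ 2) ^ (q / 2) := by
    apply mul_nonneg hC
    apply Real.rpow_nonneg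
    exact integral_nonneg fun x => by positivity
  have hN0 : 0 < ε ^ 2 * ∫ x, v x ^ 2 := mul_pos (by positivity) h.pos
  have hG0 : 0 ≤ ∫ x, ‖G x‖ ^ 2 := integral_nonneg fun x => by positivity
  refine ⟨by linarith, by linarith, ?_⟩
  apply conc_LI (y := fun z : Fin n → ℤ => ε⁻¹ • lat z) hq hL hC
    (fun i j hij => sc_dist hε hεL hij) hi hg (fun x => by positivity) (fun x => by positivity)
    (fun i => hLI v G h.h1 _)
  rw [← hU]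
  linarith

theorem Sc_bound2 (hn : 2 ≤ n) {q : ℝ} (hq : 2 < q) (hq' : ((n:ℝ) - 2) * q < 2 * n) :
    ∃ M : ℝ, ∀ ε : ℝ, 0 < ε → ε ≤ 1 → ∀ (v : E n → ℝ) (G : E n → E n), Sc n q ε v G →
      (∫ x, ‖G x‖ ^ 2) ≤ M ∧ ∫ x, |v x| ^ q ≤ M := by
  obtain ⟨L, C, hL, hC, hLI⟩ := LI hn hq.le hq'
  obtain ⟨M, hM0, hM⟩ := Sc_bound1 n hq
  obtain ⟨Ce, hCe0, hCe⟩ := emb hn hq.le hq'
  refine ⟨max M (max (4 * (C * M ^ (q / 2))) (Ce * (M + 4 * L ^ 2 * M) ^ (q / 2))), ?_⟩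
  intro ε hε hε1 v G h
  have h1 := hM ε hε hε1 v G h
  have h2 : 0 ≤ ∫ x, v x ^ 2 := integral_nonneg fun x => by positivity
  have h3 : 0 ≤ ε ^ 2 * ∫ x, v x ^ 2 := mul_nonneg (by positivity) h2
  have h4 : 0 ≤ ∫ x, ‖G x‖ ^ 2 := integral_nonneg fun x => by positivity
  have h5 : ∫ x, ‖G x‖ ^ 2 ≤ M := by linarith
  refine ⟨h5.trans (le_max_left _ _), ?_⟩
  rcases le_or_gt (2 * L * ε) 1 with h6 | h6
  · obtain ⟨f1, f2, -⟩ := Sc_facts hn hq hq' hL hC hLI hε h6 h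
    have f3 := integral_add_compl (UU_meas (n := n) ε 1) (hCe _ _ h.h1).1
    have f4 : (∫ x, ‖G x‖ ^ 2) ^ (q / 2) ≤ M ^ (q / 2) := Real.rpow_le_rpow h4 h5 (by linarith)
    have f5 := mul_le_mul_of_nonneg_left f4 hC
    refine le_trans ?_ (le_max_of_le_right (le_max_left _ _))
    linarith
  · refine (hCe _ _ h.h1).2.trans ?_
    refine le_trans ?_ (le_max_of_le_right (le_max_right _ _))
    apply mul_le_mul_of_nonneg_left _ hCe0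
    apply Real.rpow_le_rpow (by linarith) _ (by linarith)
    have g1 : ε ^ 2 * ∫ x, v x ^ 2 ≤ M := by linarith
    have g2 : 1 < (2 * L * ε) ^ 2 := by nlinarith
    have g3 : (∫ x, v x ^ 2) ≤ (2 * L * ε) ^ 2 * ∫ x, v x ^ 2 := by nlinarith
    have g4 : (2 * L * ε) ^ 2 * ∫ x, v x ^ 2 = 4 * L ^ 2 * (ε ^ 2 * ∫ x, v x ^ 2) := by ring
    have g5 : 4 * L ^ 2 * (ε ^ 2 * ∫ x, v x ^ 2) ≤ 4 * L ^ 2 * M := by gcongr
    linarith

/-- Concentration at a lattice point. -/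
theorem Sc_conc (hn : 2 ≤ n) {q : ℝ} (hq : 2 < q) (hq' : ((n:ℝ) - 2) * q < 2 * n) :
    ∃ ε0 c : ℝ, 0 < ε0 ∧ 0 < c ∧ ∀ ε : ℝ, 0 < ε → ε ≤ ε0 → ∀ (v : E n → ℝ) (G : E n → E n),
      Sc n q ε v G → ∃ z : Fin n → ℤ, c ≤ ∫ x in Metric.ball (ε⁻¹ • lat z) 1, |v x| ^ q := by
  obtain ⟨L, C, hL, hC, hLI⟩ := LI hn hq.le hq'
  refine ⟨1 / (2 * L), (1 / (2 * (C + 1))) ^ (2 / (q - 2)), by positivity, by positivity, ?_⟩
  intro ε hε hε1 v G h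
  have h6 : 2 * L * ε ≤ 1 := by
    rw [le_div_iff₀ (by positivity)] at hε1; linarith
  exact (Sc_facts hn hq hq' hL hC hLI hε h6 h).2.2

end Pool.Agent.R217.PC
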