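import Pool.Agent.R217.PC.Main3
import Pool.Agent.R217.HS.Mul

set_option autoImplicit false
set_option linter.unusedSectionVars false

open MeasureTheory Filter Topology
open scoped ContDiff ENNReal NNReal RealInnerProductSpace

namespace Pool.Agent.R217.PC

open Pool.Agent.R217.BN (E cexp sobS)
open Pool.Agent.R217.HS

variable {n : ℕ}

/-- The periodic core: the union of the balls of radius `ε` around the integer points. -/
def Theta (n : ℕ) (ε : ℝ) : Set (E n) := ⋃ z : Fin n → ℤ, Metric.ball (lat z) ε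

open Classical in
/-- The weight, equal to `1` on the core and to `-1` elsewhere. -/
noncomputable def Qe (n : ℕ) (ε : ℝ) (x : E n) : ℝ := if x ∈ Theta n ε then 1 else -1

/-- The energy of a function with given gradient. -/
noncomputable def Je (n : ℕ) (q ε : ℝ) (u : E n → ℝ) (G : E n → E n) : ℝ :=
  1 / 2 * (∫ x, (‖G x‖ ^ 2 + u x ^ 2)) - 1 / q * ∫ x, Qe n ε x * |u x| ^ q

/-- The Nehari manifold. -/
structure Nehari (n : ℕ) (q ε : ℝ) (u : E n → ℝ) (G : E n → E n) : Prop where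
  h1 : IsH1 u G
  ne : ¬ u =ᵐ[volume] 0
  eq : ∫ x, (‖G x‖ ^ 2 + u x ^ 2) = ∫ x, Qe n ε x * |u x| ^ q

/-- Least energy solutions. -/
structure LES (n : ℕ) (q ε : ℝ) (u : E n → ℝ) (G : E n → E n) : Prop where
  neh : Nehari n q ε u G
  sol : ∀ (φ : E n → ℝ) (Φ : E n → E n), IsH1 φ Φ →
    ∫ x, (⟪G x, Φ x⟫ + u x * φ x) = ∫ x, Qe n ε x * (|u x| ^ (q - 2) * u x * φ x)
  least : ∀ (f : E n → ℝ) (F : E n → E n), Nehari n q ε f F → Je n q ε u G ≤ Je n q ε f F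

lemma int_sq_pos {u : E n → ℝ} (hu : Integrable (fun x => u x ^ 2)) (h : ¬ u =ᵐ[volume] 0) :
    0 < ∫ x, u x ^ 2 := by
  have h0 : 0 ≤ ∫ x, u x ^ 2 := integral_nonneg fun x => by positivity
  rcases eq_or_lt_of_le h0 with h1 | h1
  · exfalso
    apply h
    have h2 := (integral_eq_zero_iff_of_nonneg (fun x => by positivity) hu).1 h1.symm
    filter_upwards [h2] with x hx
    have hx' : u x ^ 2 = 0 := hx
    simpa using hx'
  · exact h1

lemma Je_neh {q ε : ℝ} {u : E n → ℝ} {G : E n → E n} (h : Nehari n q ε u G) :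
    Je n q ε u G = (1 / 2 - 1 / q) * ∫ x, (‖G x‖ ^ 2 + u x ^ 2) := by
  unfold Je
  rw [← h.eq]; ring

/-- Minimality in the projected form. -/
lemma LES.min0 {q ε : ℝ} (hq : 2 < q) {u : E n → ℝ} {G : E n → E n}
    (h : LES n q ε u G) {f : E n → ℝ} {F : E n → E n} (hf : IsH1 f F)
    (hP : 0 < ∫ x, Qe n ε x * |f x| ^ q) :
    (∫ x, (‖G x‖ ^ 2 + u x ^ 2)) * (∫ x, Qe n ε x * |f x| ^ q) ^ (2 / (q - 2)) ≤
      (∫ x, (‖F x‖ ^ 2 + f x ^ 2)) ^ (q / (q - 2)) := by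
  have hq2 : 0 < q - 2 := by linarith
  obtain ⟨P, hPe⟩ : ∃ P, P = ∫ x, Qe n ε x * |f x| ^ q := ⟨_, rfl⟩
  obtain ⟨N, hN⟩ : ∃ N, N = ∫ x, (‖F x‖ ^ 2 + f x ^ 2) := ⟨_, rfl⟩
  rw [← hPe] at hP
  rw [← hPe, ← hN]
  have hfne : ¬ f =ᵐ[volume] 0 := by
    intro h0
    have : P = 0 := by
      rw [hPe, ← integral_zero (E n) ℝ]
      apply integral_congr_ae
      filter_upwards [h0] with x hx
      rw [hx, Pi.zero_apply, abs_zero, Real.zero_rpow (by linarith : q ≠ 0), mul_zero]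
    linarith
  have hN0 : 0 < N := by
    rw [hN, integral_add hf.int_grad hf.int_sq]
    have h1 := int_sq_pos hf.int_sq hfne
    have h2 : 0 ≤ ∫ x, ‖F x‖ ^ 2 := integral_nonneg fun x => by positivity
    linarith
  obtain ⟨t, ht⟩ : ∃ t, t = (N / P) ^ (1 / (q - 2)) := ⟨_, rfl⟩
  have ht0 : 0 < t := by rw [ht]; positivity
  have htq : t ^ (q - 2) = N / P := by
    rw [ht, ← Real.rpow_mul (by positivity), one_div, inv_mul_cancel₀ hq2.ne', Real.rpow_one]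
  have ht2 : t ^ 2 = (N / P) ^ (2 / (q - 2)) := by
    rw [ht, ← Real.rpow_natCast, ← Real.rpow_mul (by positivity)]
    congr 1
    push_cast; ring
  have htqq : t ^ q * P = t ^ 2 * N := by
    have : t ^ q = t ^ 2 * t ^ (q - 2) := by
      rw [← Real.rpow_two, ← Real.rpow_add ht0]; congr 1; ring
    rw [this, htq]; field_simp
  have hneh : Nehari n q ε (fun x => t * f x) (fun x => t • F x) := by
    refine ⟨hf.smul t, ?_, ?_⟩
    · intro h0
      apply hfne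
      filter_upwards [h0] with x hx
      have hx' : t * f x = 0 := hx
      rcases mul_eq_zero.1 hx' with h3 | h3
      · exact absurd h3 ht0.ne'
      · exact h3
    · have e1 : ∀ x, ‖t • F x‖ ^ 2 + (t * f x) ^ 2 = t ^ 2 * (‖F x‖ ^ 2 + f x ^ 2) := by
        intro x
        rw [norm_smul, mul_pow, mul_pow, Real.norm_eq_abs, sq_abs]; ring
      have e2 : ∀ x, Qe n ε x * |t * f x| ^ q = t ^ q * (Qe n ε x * |f x| ^ q) := by
        intro x
        rw [abs_mul, abs_of_pos ht0, Real.mul_rpow ht0.le (abs_nonneg _)]; ring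
      simp_rw [e1, e2]
      rw [integral_const_mul, integral_const_mul, ← hPe, ← hN, htqq]
  have h1 := h.least _ _ hneh
  rw [Je_neh h.neh, Je_neh hneh] at h1
  have e1 : ∀ x, ‖t • F x‖ ^ 2 + (t * f x) ^ 2 = t ^ 2 * (‖F x‖ ^ 2 + f x ^ 2) := by
    intro x
    rw [norm_smul, mul_pow, mul_pow, Real.norm_eq_abs, sq_abs]; ring
  simp_rw [e1] at h1
  rw [integral_const_mul, ← hN] at h1
  have hk : 0 < 1 / 2 - 1 / q := by
    rw [sub_pos, one_div, one_div]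
    exact inv_strictAnti₀ (by norm_num) hq
  have h2 := le_of_mul_le_mul_left h1 hk
  have hexp : N ^ (q / (q - 2)) = N * N ^ (2 / (q - 2)) := by
    have : q / (q - 2) = 1 + 2 / (q - 2) := by field_simp; ring
    rw [this, Real.rpow_add hN0, Real.rpow_one]
  rw [hexp]
  calc (∫ x, (‖G x‖ ^ 2 + u x ^ 2)) * P ^ (2 / (q - 2)) ≤ t ^ 2 * N * P ^ (2 / (q - 2)) := by
        gcongr
    _ = N * N ^ (2 / (q - 2)) := by
        rw [ht2, Real.div_rpow hN0.le hP.le]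
        have : P ^ (2 / (q - 2)) ≠ 0 := by positivity
        field_simp

lemma Qt_scale {ε : ℝ} (hε : 0 < ε) (z : Fin n → ℤ) (x : E n) :
    Qt n ε x = Qe n ε (ε • x + lat z) := by
  have hiff : x ∈ UU n ε 1 ↔ ε • x + lat z ∈ Theta n ε := by
    have key : ∀ z' : Fin n → ℤ, x ∈ Metric.ball (ε⁻¹ • (lat z' : E n)) 1 ↔
        ε • x + lat z ∈ Metric.ball (lat (z' + z) : E n) ε := by
      intro z'
      rw [Metric.mem_ball, Metric.mem_ball, dist_eq_norm, dist_eq_norm, ← lat_add]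
      have e : ε • x + lat z - (lat z' + lat z) = ε • (x - ε⁻¹ • lat z') := by
        rw [smul_sub, smul_inv_smul₀ hε.ne']; abel
      rw [e, norm_smul, Real.norm_eq_abs, abs_of_pos hε]
      constructor
      · intro h
        calc ε * ‖x - ε⁻¹ • lat z'‖ < ε * 1 := by gcongr
          _ = ε := mul_one _
      · intro h
        by_contra hcon
        push Not at hcon
        have : ε * 1 ≤ ε * ‖x - ε⁻¹ • lat z'‖ := by gcongr
        linarith
    constructor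
    · intro h
      obtain ⟨z', hz'⟩ := Set.mem_iUnion.1 h
      exact Set.mem_iUnion.2 ⟨z' + z, (key z').1 hz'⟩
    · intro h
      obtain ⟨z', hz'⟩ := Set.mem_iUnion.1 h
      refine Set.mem_iUnion.2 ⟨z' - z, (key (z' - z)).2 ?_⟩
      rwa [sub_add_cancel]
  unfold Qt Qe
  by_cases h : x ∈ UU n ε 1
  · rw [if_pos h, if_pos (hiff.1 h)]
  · rw [if_neg h, if_neg fun h' => h (hiff.2 h')]

lemma int_aff (g : E n → ℝ) {ε : ℝ} (hε : 0 < ε) (y : E n) :
    ∫ x, g (ε • x + y) = (ε ^ n)⁻¹ * ∫ x, g x := by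
  rw [int_dil (fun x => g (x + y)) hε, integral_add_right_eq_self]

/-- Functions in the scaled variables. -/
lemma isH1_unscale {ε : ℝ} (hε : 0 < ε) (y : E n) {f : E n → ℝ} {F : E n → E n} (h : IsH1 f F) :
    ∃ (f0 : E n → ℝ) (F0 : E n → E n), IsH1 f0 F0 ∧ (∀ x, f x = f0 (ε • x + y)) ∧
      ∀ x, F x = ε • F0 (ε • x + y) := by
  refine ⟨_, _, (h.dil (inv_pos.2 hε)).trans (-y), fun x => ?_, fun x => ?_⟩
  · rw [add_neg_cancel_right, inv_smul_smul₀ hε.ne']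
  · rw [add_neg_cancel_right, inv_smul_smul₀ hε.ne', smul_inv_smul₀ hε.ne']

/-- The scaled solution. -/
theorem LES.sc {q ε : ℝ} (hq : 2 < q) (hε : 0 < ε)
    {u : E n → ℝ} {G : E n → E n}
    (h : LES n q ε u G) (z : Fin n → ℤ) :
    Sc n q ε (fun x => ε ^ (2 / (q - 2)) * u (ε • x + lat z))
      (fun x => ε ^ (2 / (q - 2)) • ε • G (ε • x + lat z)) := by
  have hq2 : 0 < q - 2 := by linarith
  obtain ⟨a, ha⟩ : ∃ a, a = 2 / (q - 2) := ⟨_, rfl⟩
  rw [← ha]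
  obtain ⟨c, hc⟩ : ∃ c, c = ε ^ a := ⟨_, rfl⟩
  have hc0 : 0 < c := by rw [hc]; positivity
  have hcq : c ^ (q - 2) = ε ^ 2 := by
    rw [hc, ← Real.rpow_mul hε.le, ← Real.rpow_natCast]
    congr 1
    rw [ha]; push_cast; field_simp
  rw [← hc]
  have hu := h.neh.h1
  have hsq := int_sq_pos hu.int_sq h.neh.ne
  have e1 : ∀ x, ‖c • ε • G (ε • x + lat z)‖ ^ 2 = c ^ 2 * ε ^ 2 * ‖G (ε • x + lat z)‖ ^ 2 := by
    intro x
    rw [norm_smul, norm_smul, mul_pow, mul_pow, Real.norm_eq_abs, Real.norm_eq_abs, sq_abs, sq_abs]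
    ring
  have I1 : ∫ x, ‖c • ε • G (ε • x + lat z)‖ ^ 2 =
      c ^ 2 * ε ^ 2 * ((ε ^ n)⁻¹ * ∫ x, ‖G x‖ ^ 2) := by
    simp_rw [e1]
    rw [integral_const_mul, int_aff (fun x => ‖G x‖ ^ 2) hε]
  have I2 : ∫ x, (c * u (ε • x + lat z)) ^ 2 = c ^ 2 * ((ε ^ n)⁻¹ * ∫ x, u x ^ 2) := by
    simp_rw [mul_pow]
    rw [integral_const_mul, int_aff (fun x => u x ^ 2) hε]
  refine ⟨?_, ?_, ?_, ?_⟩
  · exact ((hu.trans (lat z)).dil hε).smul c
  · rw [I2]; positivity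
  · intro φ Φ hφ
    obtain ⟨f0, F0, h0, hf0, hF0⟩ := isH1_unscale hε (lat z) hφ
    have hs := h.sol f0 F0 h0
    rw [integral_add (integrable_inner' hu.mG h0.mG) (by
      have := integrable_inner' hu.mu h0.mu
      refine this.congr (Eventually.of_forall fun x => ?_)
      simp only [RCLike.inner_apply, conj_trivial]; ring)] at hs
    have J1 : ∫ x, ⟪c • ε • G (ε • x + lat z), Φ x⟫ =
        c * ε ^ 2 * ((ε ^ n)⁻¹ * ∫ x, ⟪G x, F0 x⟫) := by
      rw [← int_aff (fun x => ⟪G x, F0 x⟫) hε (lat z), ← integral_const_mul]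
      congr 1; funext x
      rw [hF0 x, real_inner_smul_left, real_inner_smul_left, real_inner_smul_right]; ring
    have J2 : ∫ x, c * u (ε • x + lat z) * φ x = c * ((ε ^ n)⁻¹ * ∫ x, u x * f0 x) := by
      rw [← int_aff (fun x => u x * f0 x) hε (lat z), ← integral_const_mul]
      congr 1; funext x
      rw [hf0 x]; ring
    have J3 : ∫ x, Qt n ε x * (|c * u (ε • x + lat z)| ^ (q - 2) * (c * u (ε • x + lat z)) * φ x) =
        c * ε ^ 2 * ((ε ^ n)⁻¹ * ∫ x, Qe n ε x * (|u x| ^ (q - 2) * u x * f0 x)) := by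
      rw [← int_aff (fun x => Qe n ε x * (|u x| ^ (q - 2) * u x * f0 x)) hε (lat z),
        ← integral_const_mul]
      congr 1; funext x
      rw [hf0 x, Qt_scale hε z, abs_mul, abs_of_pos hc0, Real.mul_rpow hc0.le (abs_nonneg _), hcq]
      ring
    rw [J1, J2, J3, ← hs]; ring
  · intro f F hf hP
    obtain ⟨f0, F0, h0, hf0, hF0⟩ := isH1_unscale hε (lat z) hf
    have K1 : ∫ x, ‖F x‖ ^ 2 = ε ^ 2 * ((ε ^ n)⁻¹ * ∫ x, ‖F0 x‖ ^ 2) := by
      rw [← int_aff (fun x => ‖F0 x‖ ^ 2) hε (lat z), ← integral_const_mul]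
      congr 1; funext x
      rw [hF0 x, norm_smul, mul_pow, Real.norm_eq_abs, sq_abs]
    have K2 : ∫ x, f x ^ 2 = (ε ^ n)⁻¹ * ∫ x, f0 x ^ 2 := by
      rw [← int_aff (fun x => f0 x ^ 2) hε (lat z)]
      congr 1; funext x
      rw [hf0 x]
    have K3 : ∫ x, Qt n ε x * |f x| ^ q = (ε ^ n)⁻¹ * ∫ x, Qe n ε x * |f0 x| ^ q := by
      rw [← int_aff (fun x => Qe n ε x * |f0 x| ^ q) hε (lat z)]
      congr 1; funext x
      rw [hf0 x, Qt_scale hε z]
    rw [K3] at hP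
    have hP0 : 0 < ∫ x, Qe n ε x * |f0 x| ^ q := by
      have h3 : 0 < (ε ^ n)⁻¹ := by positivity
      exact (mul_pos_iff_of_pos_left h3).1 hP
    have hm := h.min0 hq h0 hP0
    rw [integral_add hu.int_grad hu.int_sq, integral_add h0.int_grad h0.int_sq] at hm
    rw [I1, I2, K1, K2, K3]
    obtain ⟨Nu, hNu⟩ : ∃ Nu, Nu = (∫ x, ‖G x‖ ^ 2) + ∫ x, u x ^ 2 := ⟨_, rfl⟩
    obtain ⟨N0, hN0⟩ : ∃ N0, N0 = (∫ x, ‖F0 x‖ ^ 2) + ∫ x, f0 x ^ 2 := ⟨_, rfl⟩
    obtain ⟨P0, hP0e⟩ : ∃ P0, P0 = ∫ x, Qe n ε x * |f0 x| ^ q := ⟨_, rfl⟩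
    rw [← hNu, ← hN0, ← hP0e, ← ha] at hm
    rw [← hP0e] at hP0 ⊢
    have hN00 : 0 ≤ N0 := by
      rw [hN0]
      exact add_nonneg (integral_nonneg fun x => by positivity)
        (integral_nonneg fun x => by positivity)
    obtain ⟨m, hm0⟩ : ∃ m, m = (ε ^ n)⁻¹ := ⟨_, rfl⟩
    have hmpos : 0 < m := by rw [hm0]; positivity
    rw [← hm0, ← ha]
    have g1 : c ^ 2 * ε ^ 2 * (m * ∫ x, ‖G x‖ ^ 2) + ε ^ 2 * (c ^ 2 * (m * ∫ x, u x ^ 2)) =
        c ^ 2 * (ε ^ 2 * m) * Nu := by rw [hNu]; ring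
    have g2 : ε ^ 2 * (m * ∫ x, ‖F0 x‖ ^ 2) + ε ^ 2 * (m * ∫ x, f0 x ^ 2) =
        ε ^ 2 * m * N0 := by rw [hN0]; ring
    rw [g1, g2, Real.mul_rpow hmpos.le hP0.le, Real.mul_rpow (by positivity) hN00]
    have g3 : c ^ 2 * (ε ^ 2 * m) * m ^ a = (ε ^ 2 * m) ^ (q / (q - 2)) := by
      have h4 : q / (q - 2) = 1 + a := by rw [ha]; field_simp; ring
      rw [h4, Real.rpow_add (by positivity), Real.rpow_one, Real.mul_rpow (by positivity) hmpos.le]
      have h5 : (ε ^ 2) ^ a = c ^ 2 := by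
        rw [hc, ← Real.rpow_natCast, ← Real.rpow_natCast, ← Real.rpow_mul hε.le,
          ← Real.rpow_mul hε.le]
        congr 1; ring
      rw [h5]; ring
    rw [← g3]
    have g4 : 0 ≤ c ^ 2 * (ε ^ 2 * m) * m ^ a := by positivity
    calc c ^ 2 * (ε ^ 2 * m) * Nu * (m ^ a * P0 ^ a) =
        c ^ 2 * (ε ^ 2 * m) * m ^ a * (Nu * P0 ^ a) := by ring
      _ ≤ c ^ 2 * (ε ^ 2 * m) * m ^ a * N0 ^ (q / (q - 2)) :=
        mul_le_mul_of_nonneg_left hm g4

end Pool.Agent.R217.PC
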